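import Pool.Agent.Y154.NParB

/-!
If the number of points of `X_0(11)` modulo `ℓ` is even then the cubic of discriminant `-44` has a
root modulo `ℓ`.
-/

set_option autoImplicit false
set_option linter.all false

namespace Pool.Agent.R425

open Pool.Agent.Y702 (E11)
open Pool.Agent.W97.MT (affCount ap)
open Pool.Agent.Y154.NPar (g Pts card_parity)

theorem root_P {F : Type} [Field F] (h2 : (2 : F) ≠ 0) (h11 : (11 : F) ≠ 0) {x : F}
    (hx : g x = 0) : ∃ r : F, r ^ 3 - 4 * r ^ 2 + 6 * r - 2 = 0 := by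
  have h484 : (484 : F) ≠ 0 := by
    have : (484 : F) = 2 ^ 2 * 11 ^ 2 := by norm_num
    rw [this]
    exact mul_ne_zero (pow_ne_zero 2 h2) (pow_ne_zero 2 h11)
  have hx' : (4 * x) ^ 3 - 4 * (4 * x) ^ 2 - 160 * (4 * x) - 1264 = 0 := by
    unfold g at hx
    linear_combination 16 * hx
  set e : F := 4 * x with he
  refine ⟨(3 * e ^ 2 - 62 * e + 392) / 484, ?_⟩
  have h484' : (484 : F) ^ 3 ≠ 0 := pow_ne_zero 3 h484
  apply (mul_eq_zero.1 (?_ : (484 : F) ^ 3 * _ = 0)).resolve_left h484'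
  have e1 : (484 : F) ^ 3 * (((3 * e ^ 2 - 62 * e + 392) / 484) ^ 3 -
      4 * ((3 * e ^ 2 - 62 * e + 392) / 484) ^ 2 + 6 * ((3 * e ^ 2 - 62 * e + 392) / 484) - 2) =
      (3 * e ^ 2 - 62 * e + 392) ^ 3 - 4 * 484 * (3 * e ^ 2 - 62 * e + 392) ^ 2 +
        6 * 484 ^ 2 * (3 * e ^ 2 - 62 * e + 392) - 2 * 484 ^ 3 := by
    field_simp
  rw [e1]
  linear_combination (27 * e ^ 3 - 1566 * e ^ 2 + 25812 * e - 68792) * hx'

theorem exists_root {l : ℕ} (hl : l.Prime) (h2 : l ≠ 2) (h11 : l ≠ 11)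
    (hev : ¬ Odd (ap E11 l)) : ∃ n : ℤ, (l : ℤ) ∣ n ^ 3 - 4 * n ^ 2 + 6 * n - 2 := by
  have hF : Fact l.Prime := ⟨hl⟩
  have h2' : (2 : ZMod l) ≠ 0 := by
    intro h
    have h1 : ((2 : ℕ) : ZMod l) = 0 := by exact_mod_cast h
    rw [ZMod.natCast_eq_zero_iff] at h1
    exact h2 ((Nat.prime_dvd_prime_iff_eq hl Nat.prime_two).1 h1)
  have h11' : (11 : ZMod l) ≠ 0 := by
    intro h
    have h1 : ((11 : ℕ) : ZMod l) = 0 := by exact_mod_cast h
    rw [ZMod.natCast_eq_zero_iff] at h1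
    exact h11 ((Nat.prime_dvd_prime_iff_eq hl (by norm_num)).1 h1)
  have h3 : Nat.card (Pts (ZMod l)) = affCount E11 l := by
    unfold affCount
    refine Nat.card_congr (Equiv.subtypeEquivRight fun P => ?_)
    rw [WeierstrassCurve.Affine.equation_iff]
    simp only [E11, WeierstrassCurve.map_a₁, WeierstrassCurve.map_a₂, WeierstrassCurve.map_a₃,
      WeierstrassCurve.map_a₄, WeierstrassCurve.map_a₆]
    simp only [map_zero, map_one, map_neg, map_ofNat, zero_mul, add_zero, one_mul]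
    constructor
    · intro h; linear_combination h
    · intro h; linear_combination h
  have h4 := card_parity (F := ZMod l) h2'
  rw [h3] at h4
  have h5 : ¬ Even (affCount E11 l) := by
    intro h5
    apply hev
    have h6 : Odd (l : ℤ) := by
      rw [Int.odd_coe_nat]
      exact hl.odd_of_ne_two h2
    unfold ap
    have h7 : Even ((affCount E11 l : ℕ) : ℤ) := by exact_mod_cast h5
    exact h6.sub_even h7
  have h6 : Nat.card {x : ZMod l // g x = 0} ≠ 0 := by
    intro h6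
    rw [h6] at h4
    apply h5
    rw [Nat.even_iff]
    exact h4
  have h7 : Nonempty {x : ZMod l // g x = 0} := by
    by_contra hcon
    rw [not_nonempty_iff] at hcon
    exact h6 Nat.card_of_isEmpty
  obtain ⟨⟨x, hx⟩⟩ := h7
  obtain ⟨r, hr⟩ := root_P h2' h11' hx
  refine ⟨(r.val : ℤ), ?_⟩
  rw [← ZMod.intCast_zmod_eq_zero_iff_dvd _ l]
  push_cast
  rw [ZMod.natCast_val, ZMod.cast_id]
  exact hr

end Pool.Agent.R425
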