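import Pool.Agent.R425.Ram
import Pool.Agent.R425.Rt
import Pool.Agent.Y809.BS.Sel4
import Pool.Agent.Y809.BS.Kum2
import Pool.Agent.Y154.NPar
import Pool.Agent.Y154.KUnr
import Pool.Agent.Y180.Y702.SCubic
import Pool.Agent.Y852.Two

/-!
# The algebraic side
-/

set_option autoImplicit false
set_option linter.all false

open NumberField IsDedekindDomain WithZero

namespace Pool.Agent.R425

open Pool.Agent.Y702 (W2 E11)
open Pool.Agent.W97.MT (ap)
open Pool.Agent.Y809.BS (EK)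

theorem not_disc (K : Type) [Field K] [NumberField K] {l : ℕ} (hl : l.Prime)
    (h : ∀ v : HeightOneSpectrum (𝓞 K), ((l : ℕ) : 𝓞 K) ∈ v.asIdeal →
      v.valuation K (l : K) = exp (-1 : ℤ)) : ¬ (l : ℤ) ∣ discr K := by
  rw [not_dvd_discr_iff_forall_mem K (𝓞 K) (Nat.prime_iff_prime_int.1 hl)]
  intro P hP hlP
  have hlP' : ((l : ℕ) : 𝓞 K) ∈ P := by exact_mod_cast hlP
  have hl0 : ((l : ℕ) : 𝓞 K) ≠ 0 := by exact_mod_cast hl.ne_zero
  have hPb : P ≠ ⊥ := by
    rintro rfl
    exact hl0 (Ideal.mem_bot.1 hlP')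
  let u : HeightOneSpectrum (𝓞 K) := ⟨P, hP, hPb⟩
  have h1 := h u hlP'
  rw [val_ram K hl u hlP', exp_inj] at h1
  have h2 : P.ramificationIdx ℤ = 1 := by
    have : (u.asIdeal.ramificationIdx ℤ : ℤ) = 1 := by linarith
    exact_mod_cast this
  exact Ideal.ramificationIdx'_eq_one_iff.1 h2

/-- The algebraic side of the parity of the order of the Tate-Shafarevich group. -/
theorem alg_main (m : ℕ) [NeZero m] (hco : m.Coprime 22) (M : Type) [Field M] [NumberField M]
    [IsCyclotomicExtension {m} ℚ M] (K : IntermediateField ℚ M) [IsGalois ℚ K] (n : ℕ)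
    (hn : Module.finrank ℚ K = 2 ^ n) :
    (∀ l : ℕ, l.Prime → (l : ℤ) ∣ discr K → Odd (ap E11 l)) ↔
      (Finite (EK K).toAffine.Point ∧
        ∀ s : Pool.Agent.TH841.NF.D.Sha (EK K), 2 • s = 0 → s = 0) := by
  have hnot : ∀ l : ℕ, l.Prime → ¬ l ∣ m → ¬ (l : ℤ) ∣ discr K := fun l hl hlm =>
    not_disc K hl fun v hv => Pool.Agent.Y702.Fn.unr m M K hl hlm v hv
  have hm2 : ¬ 2 ∣ m := fun hd => by
    have := Nat.Coprime.eq_one_of_dvd (Nat.Coprime.coprime_dvd_left hd hco) (by norm_num : 2 ∣ 22)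
    omega
  have hm11 : ¬ 11 ∣ m := fun hd => by
    have := Nat.Coprime.eq_one_of_dvd (Nat.Coprime.coprime_dvd_left hd hco) (by norm_num : 11 ∣ 22)
    omega
  have hd2 := hnot 2 Nat.prime_two hm2
  have hd11 := hnot 11 (by norm_num) hm11
  constructor
  · intro hodd
    have hco' : (discr K).natAbs.Coprime 22 := by
      have h1 : (discr K).natAbs.Coprime 2 := by
        rw [Nat.coprime_comm, Nat.Prime.coprime_iff_not_dvd Nat.prime_two]
        intro h
        exact hd2 (Int.natCast_dvd.2 h)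
      have h2 : (discr K).natAbs.Coprime 11 := by
        rw [Nat.coprime_comm, Nat.Prime.coprime_iff_not_dvd (by norm_num)]
        intro h
        exact hd11 (Int.natCast_dvd.2 h)
      exact Nat.Coprime.mul_right h1 h2
    obtain ⟨hcub, hsel⟩ := Pool.Agent.Y809.BS.s_sel Pool.Agent.Y809.BS.s_inv
      Pool.Agent.Y180.Y702.s_cubic Pool.Agent.Y852.Two.s_two Pool.Agent.Y809.BS.s_kum
      Pool.Agent.Y154.s_unr Pool.Agent.Y154.s_npar K n (discr K).natAbs hn hco'
      (fun l hl hd => hodd l hl (Int.natCast_dvd.2 hd))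
      (fun p hp hpm v hv => unr_of_disc K hp (fun h => hpm (Int.natCast_dvd.1 h)) v hv)
    obtain ⟨hsha, hfin, hcard⟩ := Pool.Agent.Y809.BS.s_desc K hsel hcub
    exact ⟨hfin, hsha⟩
  · rintro ⟨hfin, hsha⟩ l hl hld
    by_contra hev
    have h2 : l ≠ 2 := by rintro rfl; exact hd2 hld
    have h11 : l ≠ 11 := by rintro rfl; exact hd11 hld
    obtain ⟨r, hr⟩ := exists_root hl h2 h11 hev
    exact not_sha K (Pool.Agent.Y809.BS.no_root K n hn) hl h2 h11 hr (ev_of_disc K hn hl hld)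
      hfin hsha

end Pool.Agent.R425
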