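import Pool.Agent.R425.LocInf
import Pool.Agent.Y809.BS.Desc
import Pool.Agent.Y809.BS.Sel1

/-!
# A nontrivial locally trivial class
-/

set_option autoImplicit false
set_option linter.all false

open NumberField IsDedekindDomain WeierstrassCurve WeierstrassCurve.Affine Polynomial
open scoped Classical

namespace Pool.Agent.R425

open Pool.Agent.TH115.GD
open Pool.Agent.Y702 (W2 tht)
open Pool.Agent.Y809.BS (EK trE trE_inj trE_surj trE_act W2_roots presQ isEW' tr_inj tr_surj tr)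

section rank

variable {Ω : Type} [Field Ω] [Algebra ℚ Ω] [Algebra.IsAlgebraic ℚ Ω]

/-- The cubic field generated by a root. -/
theorem gen_facts {p : Ω} (hp : p ^ 3 - 4 * p ^ 2 + 6 * p - 2 = 0) :
    FiniteDimensional ℚ (IntermediateField.adjoin ℚ {p}) ∧
      Module.finrank ℚ (IntermediateField.adjoin ℚ {p}) = 3 := by
  have hint : _root_.IsIntegral ℚ p := Algebra.IsIntegral.isIntegral p
  refine ⟨IntermediateField.adjoin.finiteDimensional hint, ?_⟩
  rw [IntermediateField.adjoin.finrank hint]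
  have h1 : minpoly ℚ p = Pool.Agent.Y180.Y702.P44 := by
    refine (minpoly.eq_of_irreducible_of_monic Pool.Agent.Y180.Y702.irr44 ?_
      Pool.Agent.Y180.Y702.mon44).symm
    simp only [Pool.Agent.Y180.Y702.P44, map_sub, map_add, map_mul, map_pow, Polynomial.aeval_X,
      map_ofNat]
    exact hp
  rw [h1]
  exact Pool.Agent.Y180.Y702.deg44

end rank

theorem fr_conv {A : Type} [Field A] (i j : Algebra ℚ A) :
    @Module.finrank ℚ A _ _ i.toModule = @Module.finrank ℚ A _ _ j.toModule := by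
  have : i = j := Subsingleton.elim _ _
  rw [this]

section nonsq

variable {Ω : Type} [Field Ω] [Algebra ℚ Ω] [IsGalois ℚ Ω] {a b c : Ω}

/-- An element of the cubic field which is a square, in coordinates. -/
theorem sq_coord {e : Ω} (he : cub W2 e = 0) {z : ℤ × ℤ × ℤ} {x : Ω} (hx : x ^ 2 = zt z e)
    (hfix : ∀ σ : Ω ≃ₐ[ℚ] Ω, σ e = e → σ x = x) : ∃ u : ℤ × ℤ × ℤ, mu u u = z := by
  haveI : CharZero Ω := algebraRat.charZero Ω
  have hf := pe_root he
  obtain ⟨h1, h3'⟩ := gen_facts hf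
  set A := IntermediateField.adjoin ℚ {pe e} with hA
  haveI : NumberField A := @NumberField.of_module_finite ℚ A _ _ _ A.algebra' h1
  have h3 := (fr_conv DivisionRing.toRatAlgebra A.algebra').trans h3'
  have hmem : pe e ∈ A := IntermediateField.subset_adjoin _ _ (Set.mem_singleton _)
  set q0 : A := ⟨pe e, hmem⟩ with hq0
  have hq0f : q0 ^ 3 - 4 * q0 ^ 2 + 6 * q0 - 2 = 0 := by
    apply Subtype.ext
    push_cast
    exact hf
  set q : 𝓞 A := ⟨q0, Pool.Agent.Y180.Y702.integ hq0f⟩ with hq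
  have hqf : q ^ 3 - 4 * q ^ 2 + 6 * q - 2 = 0 := by
    apply FaithfulSMul.algebraMap_injective (𝓞 A) A
    simp only [map_sub, map_add, map_mul, map_pow, map_ofNat, map_zero]
    exact hq0f
  have hxA : x ∈ A := by
    have h5 : x ∈ IntermediateField.fixedField (A.fixingSubgroup) := by
      rw [IntermediateField.mem_fixedField_iff]
      intro σ hσ
      apply hfix
      rw [IntermediateField.mem_fixingSubgroup_iff] at hσ
      have h6 := hσ (pe e) hmem
      have h7 := tht_pe he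
      rw [← h7]
      simp only [map_add, map_sub, map_mul, map_pow, map_ofNat, h6]
    rwa [InfiniteGalois.fixedField_fixingSubgroup] at h5
  set x0 : A := ⟨x, hxA⟩ with hx0
  have hx0z : x0 ^ 2 = ev q0 z := by
    apply Subtype.ext
    have h5 : (ev q0 z : A) = ev q0 z := rfl
    have h6 : A.val (ev q0 z) = ev (pe e) z := ev_map (A.val : A →+* Ω) q0 z
    have h7 : A.val (x0 ^ 2) = x ^ 2 := by rw [map_pow]; rfl
    have h8 : A.val (x0 ^ 2) = A.val (ev q0 z) := by rw [h6, h7, hx]; rfl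
    exact h8
  have hint : _root_.IsIntegral ℤ x0 := by
    have h5 : _root_.IsIntegral ℤ (x0 ^ 2) := by
      rw [hx0z]
      have h6 : ev q0 z = algebraMap (𝓞 A) A (ev q z) := (ev_coe q z).symm
      rw [h6]
      exact (ev q z).2
    exact _root_.IsIntegral.of_pow (by norm_num) h5
  obtain ⟨X, hX⟩ : ∃ X : 𝓞 A, algebraMap (𝓞 A) A X = x0 := ⟨⟨x0, hint⟩, rfl⟩
  obtain ⟨u, hu⟩ := coords h3 hqf X
  refine ⟨u, ?_⟩
  apply ev_inj h3 hqf
  rw [ev_mu hqf, ← hu]
  apply FaithfulSMul.algebraMap_injective (𝓞 A) A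
  rw [ev_coe, map_mul, ← pow_two, hX]
  exact hx0z

theorem zel' {l : ℕ} (hl : l.Prime) (h2 : l ≠ 2) (h11 : l ≠ 11) {n : ℤ}
    (hn : (l : ℤ) ∣ n ^ 3 - 4 * n ^ 2 + 6 * n - 2) :
    ∃ (ρ γ β z : ℤ × ℤ × ℤ) (b d : Bool) (s t : ℤ × ℤ × ℤ), mu ρ γ = ((l : ℤ), 0, 0) ∧
      mu ρ β = (-n, 1, 0) ∧ (nm ρ = l ∨ nm ρ = -l) ∧ nm z = (l : ℤ) ^ 2 ∧
      (z = mu γ (uu b) ∨ z = mu (-γ.1, -γ.2.1, -γ.2.2) (uu b)) ∧ Odd s.1 ∧
      z = ((mu (mu s s) (dd d)).1 + 8 * t.1, (mu (mu s s) (dd d)).2.1 + 8 * t.2.1,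
        (mu (mu s s) (dd d)).2.2 + 8 * t.2.2) ∧ ∀ u : ℤ × ℤ × ℤ, mu u u ≠ z := by
  obtain ⟨e, e2, e3, hC⟩ := W2_roots (AlgebraicClosure ℚ)
  have hf := pe_root hC.root_a
  obtain ⟨h1, h3'⟩ := gen_facts hf
  set A := IntermediateField.adjoin ℚ {pe e} with hA
  haveI : NumberField A := @NumberField.of_module_finite ℚ A _ _ _ A.algebra' h1
  have h3 := (fr_conv DivisionRing.toRatAlgebra A.algebra').trans h3'
  have hmem : pe e ∈ A := IntermediateField.subset_adjoin _ _ (Set.mem_singleton _)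
  set q0 : A := ⟨pe e, hmem⟩ with hq0
  have hq0f : q0 ^ 3 - 4 * q0 ^ 2 + 6 * q0 - 2 = 0 := by
    apply Subtype.ext
    push_cast
    exact hf
  set q : 𝓞 A := ⟨q0, Pool.Agent.Y180.Y702.integ hq0f⟩ with hq
  have hqf : q ^ 3 - 4 * q ^ 2 + 6 * q - 2 = 0 := by
    apply FaithfulSMul.algebraMap_injective (𝓞 A) A
    simp only [map_sub, map_add, map_mul, map_pow, map_ofNat, map_zero]
    exact hq0f
  exact zel h3 hqf hl h2 h11 hn

end nonsq

/-- the condition at the place over the prime -/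
def Ev (K : Type) [Field K] [NumberField K] (l : ℕ) : Prop :=
  ∀ v : HeightOneSpectrum (𝓞 K), ((l : ℕ) : 𝓞 K) ∈ v.asIdeal →
      ∃ s : K, v.valuation K s ^ 2 = v.valuation K (l : K)

/-- A class over `ℚ`, locally trivial over `K`, nontrivial over `K`. -/
theorem exists_class (K : Type) [Field K] [NumberField K] [IsGalois ℚ K]
    (hnr : ∀ x : K, cub W2 x ≠ 0) {l : ℕ} (hl : l.Prime) (h2 : l ≠ 2) (h11 : l ≠ 11) {n : ℤ}
    (hn : (l : ℤ) ∣ n ^ 3 - 4 * n ^ 2 + 6 * n - 2) (hram : Ev K l) :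
    ∃ g : (AlgebraicClosure K ≃ₐ[ℚ] AlgebraicClosure K) → Pt W2 (AlgebraicClosure K),
      IsLocallyConstant g ∧ (∀ σ τ, g (σ * τ) = g σ + act W2 (ak σ) (g τ)) ∧
      (∀ σ, g σ + g σ = 0) ∧
      (∀ v : HeightOneSpectrum (𝓞 K), LocTriv (F := ℚ) (Ω := AlgebraicClosure K) W2
        (v.adicCompletion K) (AlgebraicClosure (v.adicCompletion K)) g) ∧
      (∀ v : InfinitePlace K, LocTriv (F := ℚ) (Ω := AlgebraicClosure K) W2
        v.Completion (AlgebraicClosure v.Completion) g) ∧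
      ¬ ∃ T : Pt W2 (AlgebraicClosure K), T + T = 0 ∧
        ∀ σ : AlgebraicClosure K ≃ₐ[K] AlgebraicClosure K,
          g (σ.restrictScalars ℚ) = act W2 (rs ℚ σ) T - T := by
  haveI : IsGalois ℚ (AlgebraicClosure K) := IsGalois.mk
  haveI : CharZero (AlgebraicClosure K) := algebraRat.charZero _
  obtain ⟨a, b, c, hC⟩ := W2_roots (AlgebraicClosure K)
  obtain ⟨ρ, γ, β, z, b', d, s, t, e1, e2, e3, e4, e5, e6, e7, e8⟩ := zel' hl h2 h11 hn
  have hl0 : (l : ℤ) ≠ 0 := by exact_mod_cast hl.ne_zero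
  have hnrQ : ∀ x : ℚ, cub W2 x ≠ 0 := by
    intro x hx
    apply hnr (algebraMap ℚ K x)
    have h := cub_map W2 (incl ℚ ℚ K) x
    rw [hx, map_zero] at h
    exact h
  obtain ⟨v1, v2, v3⟩ := pe_vieta hC
  have hprod : zt z a * zt z b * zt z c = algebraMap ℚ (AlgebraicClosure K) (l : ℚ) ^ 2 := by
    have h := nm_eq_prod v1 v2 v3 z
    show ev (pe a) z * ev (pe b) z * ev (pe c) z = _
    rw [← h, e4, map_natCast]
    push_cast
    rfl
  have hl0' : algebraMap ℚ (AlgebraicClosure K) (l : ℚ) ≠ 0 := by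
    rw [map_natCast]
    exact_mod_cast hl.ne_zero
  have hn0 : zt z a * zt z b * zt z c ≠ 0 := by
    rw [hprod]
    exact pow_ne_zero 2 hl0'
  have hζ0 : ∀ e : AlgebraicClosure K, cub W2 e = 0 → zt z e ≠ 0 := by
    intro e he h
    rcases hC.root he with rfl | rfl | rfl <;> exact hn0 (by rw [h]; ring)
  obtain ⟨g, tt, hg1, hg2, hg3, hg4, hg5, hg6⟩ := exists_cls hC (zt z)
    (fun σ e _ => zt_map (σ : AlgebraicClosure K →+* AlgebraicClosure K) z e) hζ0
    (r := (l : ℚ)) hprod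
  have hθ : tht (pe a) = a := tht_pe hC.root_a
  have hk : ∀ τ : AlgebraicClosure K ≃ₐ[ℚ] AlgebraicClosure K, τ a = a →
      τ (tt a) = sC a (g τ) * tt a := by
    intro τ hτ
    have h := hg6 τ a hC.root_a
    have h3 : τ⁻¹ a = a := by
      apply τ.injective
      rw [← AlgEquiv.mul_apply, mul_inv_cancel]
      exact hτ.symm
    rwa [h3] at h
  refine ⟨g, hg1, hg2, hg3, fun v => ?_, fun v => ?_, ?_⟩
  · haveI : IsGalois (v.adicCompletion K) (AlgebraicClosure (v.adicCompletion K)) := by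
      haveI : CharZero (v.adicCompletion K) := algebraRat.charZero _
      infer_instance
    have hLC := locF (K := K) hl h2 h11 e1 e2 e3 e4 e5 e6 e7 hram v
    have hcond := LC.cond (π := pe a) (pe_root hC.root_a) hLC
    exact Pool.Agent.Y710.CV.core' W2 (RingHom.id (AlgebraicClosure K)) (θ := tht (pe a))
      (b := b) (c := c) (by rw [RingHom.id_apply, hθ]; exact hC) hnrQ hg2 hg3
      (t := tt a) (hg4 a hC.root_a).1 (hg4 a hC.root_a).2
      (by rw [RingHom.id_apply, hθ]; exact hk) hcond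
  · haveI : IsGalois v.Completion (AlgebraicClosure v.Completion) := by
      haveI : CharZero v.Completion := algebraRat.charZero _
      infer_instance
    have hLC := locInf (K := K) hl0 e4 v
    have hcond := LC.cond (π := pe a) (pe_root hC.root_a) hLC
    exact Pool.Agent.Y710.CV.core' W2 (RingHom.id (AlgebraicClosure K)) (θ := tht (pe a))
      (b := b) (c := c) (by rw [RingHom.id_apply, hθ]; exact hC) hnrQ hg2 hg3
      (t := tt a) (hg4 a hC.root_a).1 (hg4 a hC.root_a).2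
      (by rw [RingHom.id_apply, hθ]; exact hk) hcond
  · rintro ⟨T, hT, hT2⟩
    -- the subgroup
    set H : Subgroup (AlgebraicClosure K ≃ₐ[ℚ] AlgebraicClosure K) :=
      (AlgEquiv.restrictScalarsHom ℚ :
        (AlgebraicClosure K ≃ₐ[K] AlgebraicClosure K) →* _).range with hH
    haveI : H.Normal := by
      refine ⟨fun σ hσ τ => ?_⟩
      obtain ⟨σ0, rfl⟩ := hσ
      obtain ⟨σ', hσ'⟩ := exists_conj (presQ K) τ⁻¹ σ0
      refine ⟨σ', AlgEquiv.ext fun x => ?_⟩
      show σ' x = τ (σ0 (τ⁻¹ x))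
      have h := hσ' x
      rw [← h, ← AlgEquiv.mul_apply, mul_inv_cancel]
      rfl
    have htrans : ∀ e, cub W2 e = 0 → ∃ σ ∈ H, σ a = e := by
      intro e he
      obtain ⟨σ, hσ⟩ := trans_roots hC hnr e (hC.root he)
      exact ⟨σ.restrictScalars ℚ, ⟨σ, rfl⟩, hσ⟩
    obtain ⟨t', ht1, ht2⟩ := sq_of_triv hC (ζ := zt z) (g := g) (t := tt) (r := (l : ℚ))
      (by exact_mod_cast hl.ne_zero) hg3 hg4 hg5 hg6 H htrans hT (by
        rintro σ ⟨σ0, rfl⟩
        exact hT2 σ0)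
    obtain ⟨u, hu⟩ := sq_coord hC.root_a (ht1 a hC.root_a) (fun σ hσ => by
      rw [ht2 σ a hC.root_a, hσ])
    exact e8 u hu

end Pool.Agent.R425
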