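import Mathlib

/-!
# The extension of the valuation of a completion of a number field to the algebraic closure
-/

set_option autoImplicit false
set_option linter.all false

open NumberField IsDedekindDomain WithZeroMulInt
open scoped NNReal WithZero

namespace Pool.Agent.R425

section sp

variable {K : Type} [Field K] [NumberField K] (v : HeightOneSpectrum (𝓞 K))

theorem norm_lt_one_iff' (x : v.adicCompletion K) :
    (toNNReal (HeightOneSpectrum.absNorm_ne_zero v) (Valued.v x) : ℝ≥0) < 1 ↔ Valued.v x < 1 := by
  have h := toNNReal_strictMono (HeightOneSpectrum.one_lt_absNorm_nnreal v)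
  rw [← map_one (toNNReal (HeightOneSpectrum.absNorm_ne_zero v)), h.lt_iff_lt]

theorem exists_vv :
    ∃ w : Valuation (AlgebraicClosure (v.adicCompletion K)) ℝ≥0,
      (∀ (σ : AlgebraicClosure (v.adicCompletion K) ≃ₐ[v.adicCompletion K]
        AlgebraicClosure (v.adicCompletion K)) (x : AlgebraicClosure (v.adicCompletion K)),
          w (σ x) = w x) ∧
      ∀ x : v.adicCompletion K, w (algebraMap (v.adicCompletion K) _ x) =
        toNNReal (HeightOneSpectrum.absNorm_ne_zero v) (Valued.v x) := by
  let _ : NontriviallyNormedField (v.adicCompletion K) :=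
    Valued.toNontriviallyNormedField (v.adicCompletion K) ℤᵐ⁰
  have : IsUltrametricDist (v.adicCompletion K) := inferInstance
  have : CompleteSpace (v.adicCompletion K) :=
    HeightOneSpectrum.adicCompletion.instCompleteSpace K v
  refine ⟨{ toFun := fun x => ⟨spectralNorm (v.adicCompletion K)
              (AlgebraicClosure (v.adicCompletion K)) x, spectralNorm_nonneg x⟩
            map_zero' := ?_
            map_one' := ?_
            map_mul' := ?_
            map_add_le_max' := ?_ }, ?_, ?_⟩
  · apply NNReal.eq
    exact spectralNorm_zero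
  · apply NNReal.eq
    exact spectralNorm_one
  · intro x y
    apply NNReal.eq
    have h := map_mul (spectralMulAlgNorm (v.adicCompletion K)
      (AlgebraicClosure (v.adicCompletion K))) x y
    exact h
  · intro x y
    have h := isNonarchimedean_spectralNorm (K := v.adicCompletion K)
      (L := AlgebraicClosure (v.adicCompletion K)) x y
    rcases le_max_iff.1 h with h | h
    · exact le_max_of_le_left h
    · exact le_max_of_le_right h
  · intro σ x
    apply NNReal.eq
    exact (spectralNorm_eq_of_equiv σ x).symm
  · intro x
    apply NNReal.eq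
    have h := spectralNorm_extends (K := v.adicCompletion K)
      (L := AlgebraicClosure (v.adicCompletion K)) x
    refine Eq.trans h ?_
    exact FinitePlace.norm_def v x

theorem exists_approxO (x : v.adicCompletion K) (hx : Valued.v x ≤ 1) :
    ∃ a : 𝓞 K, Valued.v (x - algebraMap K (v.adicCompletion K) (a : K)) < 1 := by
  have hopen : IsOpen {y : v.adicCompletion K | Valued.v (y - x) < 1} := by
    have h1 : IsOpen {y : v.adicCompletion K | Valued.v y < 1} := by
      have h2 := Valued.isOpen_ball (v.adicCompletion K)
        ((Valued.v (R := v.adicCompletion K)).restrict 1)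
      have h3 : {y : v.adicCompletion K | Valued.v y < 1} =
          {y : v.adicCompletion K | (Valued.v (R := v.adicCompletion K)).restrict y <
            (Valued.v (R := v.adicCompletion K)).restrict 1} := by
        ext y
        change _ ↔ (Valued.v (R := v.adicCompletion K)).restrict y <
            (Valued.v (R := v.adicCompletion K)).restrict 1
        rw [Valuation.restrict_lt_iff, map_one]
        exact Iff.rfl
      rw [h3]
      exact h2
    exact h1.preimage (continuous_id.sub continuous_const)
  obtain ⟨k, hk⟩ := (HeightOneSpectrum.denseRange_algebraMap K v).exists_mem_open hopen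
    ⟨x, by simp⟩
  have hk1 : Valued.v (algebraMap K (v.adicCompletion K) k - x) < 1 := hk
  have hval : ∀ y : K, Valued.v (algebraMap K (v.adicCompletion K) y) = v.valuation K y := by
    intro y
    rw [HeightOneSpectrum.algebraMap_adicCompletion]
    exact HeightOneSpectrum.valuedAdicCompletion_eq_valuation' v y
  have hk2 : v.valuation K k ≤ 1 := by
    rw [← hval]
    have e : algebraMap K (v.adicCompletion K) k = (algebraMap K (v.adicCompletion K) k - x) + x := by
      ring
    rw [e]
    exact (Valuation.map_add _ _ _).trans (max_le hk1.le hx)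
  obtain ⟨a, ha⟩ := v.exists_valuation_sub_lt_of_integer hk2 1
  refine ⟨a, ?_⟩
  have e : x - algebraMap K (v.adicCompletion K) (a : K) =
      -((algebraMap K (v.adicCompletion K) k - x) + algebraMap K (v.adicCompletion K) ((a : K) - k)) := by
    rw [map_sub]; ring
  rw [e, Valuation.map_neg]
  refine Valuation.map_add_lt _ hk1 ?_
  rw [hval]
  simpa using ha

/-- the data of the local field at `v` -/
theorem exists_data :
    ∃ w : Valuation (AlgebraicClosure (v.adicCompletion K)) ℝ≥0,
      (∀ (σ : AlgebraicClosure (v.adicCompletion K) ≃ₐ[v.adicCompletion K]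
        AlgebraicClosure (v.adicCompletion K)) (x : AlgebraicClosure (v.adicCompletion K)),
          w (σ x) = w x) ∧
      (∀ x y : v.adicCompletion K, w (algebraMap (v.adicCompletion K) _ x) ≤
        w (algebraMap (v.adicCompletion K) _ y) ↔ Valued.v x ≤ Valued.v y) ∧
      (∀ a : 𝓞 K, w (algebraMap (v.adicCompletion K) _
        (algebraMap K (v.adicCompletion K) (a : K))) ≤ 1) ∧
      (∀ a : 𝓞 K, w (algebraMap (v.adicCompletion K) _
        (algebraMap K (v.adicCompletion K) (a : K))) < 1 ↔ a ∈ v.asIdeal) ∧
      ∀ x : v.adicCompletion K, w (algebraMap (v.adicCompletion K) _ x) ≤ 1 →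
        ∃ a : 𝓞 K, w (algebraMap (v.adicCompletion K) _ x - algebraMap (v.adicCompletion K) _
          (algebraMap K (v.adicCompletion K) (a : K))) < 1 := by
  obtain ⟨w, hw1, hw2⟩ := exists_vv v
  have hval : ∀ y : K, Valued.v (algebraMap K (v.adicCompletion K) y) = v.valuation K y := by
    intro y
    rw [HeightOneSpectrum.algebraMap_adicCompletion]
    exact HeightOneSpectrum.valuedAdicCompletion_eq_valuation' v y
  have hmono : ∀ x y : v.adicCompletion K, w (algebraMap (v.adicCompletion K) _ x) ≤
        w (algebraMap (v.adicCompletion K) _ y) ↔ Valued.v x ≤ Valued.v y := by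
    intro x y
    rw [hw2, hw2, (toNNReal_strictMono (HeightOneSpectrum.one_lt_absNorm_nnreal v)).le_iff_le]
  have hlt : ∀ x : v.adicCompletion K, w (algebraMap (v.adicCompletion K) _ x) < 1 ↔
      Valued.v x < 1 := by
    intro x
    rw [hw2, norm_lt_one_iff']
  have hle : ∀ x : v.adicCompletion K, w (algebraMap (v.adicCompletion K) _ x) ≤ 1 ↔
      Valued.v x ≤ 1 := by
    intro x
    have := hmono x 1
    rwa [map_one, map_one, map_one] at this
  refine ⟨w, hw1, hmono, fun a => ?_, fun a => ?_, fun x hx => ?_⟩
  · rw [hle, hval]
    exact v.valuation_le_one a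
  · rw [hlt, hval]
    exact HeightOneSpectrum.valuation_lt_one_iff_mem v a
  · obtain ⟨a, ha⟩ := exists_approxO v x ((hle x).1 hx)
    refine ⟨a, ?_⟩
    rw [← map_sub, hlt]
    exact ha

end sp

end Pool.Agent.R425
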