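import Pool.Agent.Y809.BS.Desc

/-!
# Torsion and finiteness of the group of the points
-/

set_option autoImplicit false
set_option linter.all false

open NumberField IsDedekindDomain WeierstrassCurve WeierstrassCurve.Affine
open scoped Classical

namespace Pool.Agent.R425

open Pool.Agent.TH115.GD
open Pool.Agent.Y702 (W2)
open Pool.Agent.Y809.BS (EK trE trE_inj trE_surj trE_act W2_roots isEW' tr_inj tr_surj tr tr_add mw)

/-- The torsion of a finitely generated abelian group without elements of order two. -/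
theorem tors_odd {A : Type} [AddCommGroup A] (hA : AddGroup.FG A)
    (h2 : ∀ a : A, a + a = 0 → a = 0) :
    Odd (Nat.card {P : A | ∃ n : ℕ, 0 < n ∧ n • P = 0}) := by
  haveI : Module.Finite ℤ A := Module.Finite.iff_addGroup_fg.2 hA
  haveI : IsNoetherian ℤ A := isNoetherian_of_isNoetherianRing_of_finite ℤ A
  set T : AddSubgroup A := AddCommGroup.torsion A with hT
  have hset : {P : A | ∃ n : ℕ, 0 < n ∧ n • P = 0} = (T : Set A) := by
    ext P
    show _ ↔ IsOfFinAddOrder P
    rw [isOfFinAddOrder_iff_nsmul_eq_zero]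
    rfl
  haveI : Module.Finite ℤ (AddSubgroup.toIntSubmodule T) := inferInstance
  haveI hTf : Module.Finite ℤ T := this
  haveI hfg : AddGroup.FG T := Module.Finite.iff_addGroup_fg.1 hTf
  haveI hfin : Finite T := by
    apply AddCommGroup.finite_of_fg_isAddTorsion
    rintro ⟨x, hx⟩
    have h1 : IsOfFinAddOrder x := hx
    rw [isOfFinAddOrder_iff_nsmul_eq_zero] at h1 ⊢
    obtain ⟨n, hn, hn0⟩ := h1
    exact ⟨n, hn, Subtype.ext hn0⟩
  rw [hset]
  show Odd (Nat.card T)
  by_contra hodd
  rw [Nat.not_odd_iff_even, even_iff_two_dvd] at hodd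
  haveI : Fact (Nat.Prime 2) := ⟨Nat.prime_two⟩
  obtain ⟨x, hx⟩ := exists_prime_addOrderOf_dvd_card' 2 hodd
  have h1 : (2 : ℕ) • x = 0 := by
    rw [← hx]
    exact addOrderOf_nsmul_eq_zero x
  have h3 : (x : A) + x = 0 := by
    have := congrArg (Subtype.val) h1
    rw [two_nsmul] at this
    exact this
  have h4 : x = 0 := Subtype.ext (h2 _ h3)
  rw [h4, addOrderOf_zero] at hx
  norm_num at hx

/-- A finitely generated abelian group of rank zero is finite. -/
theorem fin_of_rank {A : Type} [AddCommGroup A] (hA : AddGroup.FG A)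
    (h : Module.finrank ℤ A = 0) : Finite A := by
  haveI : Module.Finite ℤ A := Module.Finite.iff_addGroup_fg.2 hA
  apply AddCommGroup.finite_of_fg_isAddTorsion
  have h1 : Module.IsTorsion ℤ A := by
    rw [← Module.rank_eq_zero_iff_isTorsion (R := ℤ)]
    rw [← Module.finrank_eq_rank, h]
    rfl
  intro x
  obtain ⟨⟨a, ha⟩, hx⟩ := @h1 x
  rw [isOfFinAddOrder_iff_zsmul_eq_zero]
  exact ⟨a, nonZeroDivisors.ne_zero ha, hx⟩

theorem two_tors {K : Type} [Field K] [NumberField K] (hnr : ∀ x : K, cub W2 x ≠ 0)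
    (P : Pt W2 K) (h : P + P = 0) : P = 0 := by
  haveI : IsGalois K (AlgebraicClosure K) := inferInstance
  obtain ⟨a, b, c, hC⟩ := W2_roots (AlgebraicClosure K)
  apply act_inj W2 (incl ℚ K (AlgebraicClosure K))
  rw [map_zero]
  apply no_two hC hnr
  · rw [← map_add, h, map_zero]
  · intro σ
    exact rs_act_incl W2 σ P

end Pool.Agent.R425
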