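import Mathlib

/-!
# Square roots and interpolation over a local field
-/

set_option autoImplicit false
set_option linter.all false

open Polynomial
open scoped NNReal

namespace Pool.Agent.R425

section gen

variable {L Ω' : Type} [Field L] [Field Ω'] [Algebra L Ω'] (w : Valuation Ω' ℝ≥0)
  (hσ : ∀ (σ : Ω' ≃ₐ[L] Ω') (x : Ω'), w (σ x) = w x)

include hσ in
/-- the square root that is close to `S` is fixed by the automorphisms that fix `S` -/
theorem sqrt_fix [IsAlgClosed Ω'] (h2 : w 2 = 1) {u S : Ω'} (hS : w S = 1)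
    (hu : w (u - S ^ 2) < 1) :
    ∃ y : Ω', y ^ 2 = u ∧ w (y - S) < 1 ∧ ∀ σ : Ω' ≃ₐ[L] Ω', σ u = u → σ S = S → σ y = y := by
  obtain ⟨y, hy, hyS⟩ : ∃ y : Ω', y ^ 2 = u ∧ w (y - S) < 1 := by
    obtain ⟨y0, hy0⟩ := IsAlgClosed.exists_pow_nat_eq u (n := 2) (by norm_num)
    have h1 : w (y0 - S) * w (y0 + S) < 1 := by
      rw [← map_mul]
      have : (y0 - S) * (y0 + S) = u - S ^ 2 := by rw [← hy0]; ring
      rw [this]
      exact hu
    by_cases h : w (y0 - S) < 1
    · exact ⟨y0, hy0, h⟩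
    · refine ⟨-y0, by rw [neg_sq, hy0], ?_⟩
      have h3 : w (-y0 - S) = w (y0 + S) := by
        rw [← Valuation.map_neg]
        congr 1
        ring
      rw [h3]
      by_contra h4
      rw [not_lt] at h h4
      exact absurd h1 (not_lt.2 (one_le_mul h h4))
  refine ⟨y, hy, hyS, fun σ hu' hS' => ?_⟩
  have h3 : (σ y) ^ 2 = y ^ 2 := by rw [← map_pow, hy, hu']
  rcases sq_eq_sq_iff_eq_or_eq_neg.1 h3 with h4 | h4
  · exact h4
  · exfalso
    have h5 : w (σ y - S) < 1 := by
      have : σ y - S = σ (y - S) := by rw [map_sub, hS']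
      rw [this, hσ]
      exact hyS
    rw [h4] at h5
    have h6 : w (2 * S) < 1 := by
      have e : 2 * S = -((-y - S) + (y - S)) := by ring
      rw [e, Valuation.map_neg]
      exact Valuation.map_add_lt _ h5 hyS
    rw [map_mul, h2, hS, one_mul] at h6
    exact lt_irrefl _ h6

include hσ in
/-- the square root of `1 + 4 t` -/
theorem sqrt_fix4 [IsAlgClosed Ω'] {u t : Ω'} (hu : u = 1 + 4 * t) (ht : w t < 1) (h2 : w 2 ≤ 1) :
    ∃ y : Ω', y ^ 2 = u ∧ ∀ σ : Ω' ≃ₐ[L] Ω', σ t = t → σ y = y := by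
  obtain ⟨r, hr⟩ : ∃ r : Ω', r ^ 2 + r = t := by
    have hne : (X ^ 2 + X - C t : Ω'[X]).degree ≠ 0 := by
      have : (X ^ 2 + X - C t : Ω'[X]).degree = 2 := by compute_degree!
      rw [this]; norm_num
    obtain ⟨r, hr⟩ := IsAlgClosed.exists_root _ hne
    refine ⟨r, ?_⟩
    have h1 := hr
    simp only [IsRoot.def, eval_sub, eval_add, eval_pow, eval_X, eval_C] at h1
    linear_combination h1
  obtain ⟨s, hs, hs1⟩ : ∃ s : Ω', s ^ 2 + s = t ∧ w s < 1 := by
    by_cases h : w r < 1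
    · exact ⟨r, hr, h⟩
    · refine ⟨-(r + 1), by linear_combination hr, ?_⟩
      rw [not_lt] at h
      have h1 : w r * w (r + 1) < 1 := by
        rw [← map_mul]
        have : r * (r + 1) = t := by rw [← hr]; ring
        rw [this]; exact ht
      rw [Valuation.map_neg]
      by_contra h4
      rw [not_lt] at h4
      exact absurd h1 (not_lt.2 (one_le_mul h h4))
  refine ⟨1 + 2 * s, by rw [hu, ← hs]; ring, fun σ ht' => ?_⟩
  have h3 : (σ s - s) * (σ s + s + 1) = 0 := by
    have h4 : σ s ^ 2 + σ s = s ^ 2 + s := by rw [← map_pow, ← map_add, hs, ht']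
    linear_combination h4
  have h5 : σ s = s := by
    rcases mul_eq_zero.1 h3 with h4 | h4
    · exact sub_eq_zero.1 h4
    · exfalso
      have h6 : (1 : Ω') = -(σ s + s) := by linear_combination h4
      have h7 : w (1 : Ω') < 1 := by
        rw [h6, Valuation.map_neg]
        exact Valuation.map_add_lt _ (by rw [hσ]; exact hs1) hs1
      rw [map_one] at h7
      exact lt_irrefl _ h7
  rw [map_add, map_mul, map_one, map_ofNat, h5]

/-- elements fixed by the Galois group -/
theorem mem_of_fixed [IsGalois L Ω'] {x : Ω'} (h : ∀ σ : Ω' ≃ₐ[L] Ω', σ x = x) :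
    ∃ l : L, algebraMap L Ω' l = x := by
  have := (InfiniteGalois.mem_bot_iff_fixed (k := L) x).2 h
  exact IntermediateField.mem_bot.1 this

/-- polynomials with integral coefficients -/
def IP (p : Ω'[X]) : Prop := ∀ n, w (p.coeff n) ≤ 1

theorem IP.mul {p q : Ω'[X]} (hp : IP w p) (hq : IP w q) : IP w (p * q) := by
  intro n
  rw [coeff_mul]
  refine Valuation.map_sum_le _ fun i _ => ?_
  rw [map_mul]
  exact mul_le_one' (hp _) (hq _)

theorem IP.sum {ι : Type} {s : Finset ι} {f : ι → Ω'[X]} (h : ∀ i ∈ s, IP w (f i)) :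
    IP w (∑ i ∈ s, f i) := by
  intro n
  rw [finset_sum_coeff]
  exact Valuation.map_sum_le _ fun i hi => h i hi n

theorem IP.prod {ι : Type} [DecidableEq ι] {s : Finset ι} {f : ι → Ω'[X]}
    (h : ∀ i ∈ s, IP w (f i)) : IP w (∏ i ∈ s, f i) := by
  induction s using Finset.induction_on with
  | empty =>
    intro n
    rw [Finset.prod_empty, coeff_one]
    split_ifs <;> simp
  | insert a s ha ih =>
    rw [Finset.prod_insert ha]
    exact IP.mul w (h a (Finset.mem_insert_self _ _)) (ih fun i hi => h i (Finset.mem_insert_of_mem hi))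

theorem IP.C {a : Ω'} (h : w a ≤ 1) : IP w (C a) := by
  intro n
  rw [coeff_C]
  split_ifs
  · exact h
  · simp

theorem IP.X_sub {a : Ω'} (h : w a ≤ 1) : IP w (X - Polynomial.C a) := by
  intro n
  rw [coeff_sub, coeff_X, coeff_C]
  refine (Valuation.map_sub _ _ _).trans (max_le ?_ ?_)
  · split_ifs <;> simp
  · split_ifs
    · exact h
    · simp

open Classical in
/-- an equivariant integral function on the roots is given by an integral polynomial over `L` -/
theorem interp [IsGalois L Ω'] {s : Finset Ω'} (hs3 : s.card = 3) (he : ∀ e ∈ s, w e ≤ 1)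
    (hd : ∀ e ∈ s, ∀ f ∈ s, e ≠ f → w (e - f) = 1)
    (hperm : ∀ σ : Ω' ≃ₐ[L] Ω', ∀ e ∈ s, σ e ∈ s) (η : Ω' → Ω') (hη : ∀ e ∈ s, w (η e) ≤ 1)
    (hησ : ∀ (σ : Ω' ≃ₐ[L] Ω'), ∀ e ∈ s, σ (η e) = η (σ e)) :
    ∃ l0 l1 l2 : L, w (algebraMap L Ω' l0) ≤ 1 ∧ w (algebraMap L Ω' l1) ≤ 1 ∧
      w (algebraMap L Ω' l2) ≤ 1 ∧
      ∀ e ∈ s, η e = algebraMap L Ω' l0 + algebraMap L Ω' l1 * e + algebraMap L Ω' l2 * e ^ 2 := by
  set H : Ω'[X] := Lagrange.interpolate s id η with hH
  have hinj : Set.InjOn (id : Ω' → Ω') (s : Set Ω') := fun _ _ _ _ h => h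
  have hdeg : H.degree < 3 := by
    have := Lagrange.degree_interpolate_lt (s := s) (v := id) η hinj
    rwa [hs3] at this
  have hev : ∀ e ∈ s, H.eval e = η e := fun e he' =>
    Lagrange.eval_interpolate_at_node (s := s) (v := id) η hinj he'
  have hint : IP w H := by
    rw [hH, Lagrange.interpolate_apply]
    refine IP.sum w fun i hi => ?_
    refine IP.mul w (IP.C w (hη i hi)) ?_
    unfold Lagrange.basis
    refine IP.prod w fun k hk => ?_
    rw [Finset.mem_erase] at hk
    unfold Lagrange.basisDivisor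
    refine IP.mul w (IP.C w ?_) (IP.X_sub w (he _ hk.2))
    rw [map_inv₀]
    have := hd i hi k hk.2 hk.1.symm
    simp only [id]
    rw [this, inv_one]
  have hmap : ∀ σ : Ω' ≃ₐ[L] Ω', H.map (σ : Ω' →+* Ω') = H := by
    intro σ
    refine Polynomial.eq_of_degrees_lt_of_eval_finset_eq s ?_ ?_ ?_
    · rw [hs3]
      exact (degree_map_le).trans_lt hdeg
    · rw [hs3]; exact hdeg
    · intro x hx
      have hx' : σ⁻¹ x ∈ s := hperm _ x hx
      have hxx : σ (σ⁻¹ x) = x := by
        rw [← AlgEquiv.mul_apply, mul_inv_cancel]; rfl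
      have h1 : eval x (H.map (σ : Ω' →+* Ω')) = σ (eval (σ⁻¹ x) H) := by
        conv_lhs => rw [← hxx]
        rw [eval_map]
        exact (hom_eval₂ H (RingHom.id Ω') (σ : Ω' →+* Ω') (σ⁻¹ x)).symm.trans (by
          rfl)
      rw [h1, hev _ hx', hησ σ _ hx', hxx, hev x hx]
  have hco : ∀ n, ∃ l : L, algebraMap L Ω' l = H.coeff n := fun n => by
    refine mem_of_fixed fun σ => ?_
    have h1 := congrArg (fun p => coeff p n) (hmap σ)
    simp only [coeff_map] at h1
    exact h1
  obtain ⟨l0, h0⟩ := hco 0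
  obtain ⟨l1, h1⟩ := hco 1
  obtain ⟨l2, h2⟩ := hco 2
  refine ⟨l0, l1, l2, by rw [h0]; exact hint 0, by rw [h1]; exact hint 1, by rw [h2]; exact hint 2,
    fun e he' => ?_⟩
  rw [← hev e he', h0, h1, h2]
  have hnd : H.natDegree < 3 := by
    by_cases hH0 : H = 0
    · rw [hH0, natDegree_zero]; norm_num
    · exact (natDegree_lt_iff_degree_lt hH0).2 hdeg
  rw [eval_eq_sum_range' hnd, Finset.sum_range_succ, Finset.sum_range_succ, Finset.sum_range_one,
    pow_zero, pow_one, mul_one]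

end gen

end Pool.Agent.R425
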