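import Pool.Agent.R425.Sh
import Pool.Agent.Y702.F.Unr

/-!
# Ramification in Galois extensions of degree a power of two
-/

set_option autoImplicit false
set_option linter.all false

open NumberField IsDedekindDomain WithZero

namespace Pool.Agent.R425

theorem val_ram (K : Type) [Field K] [NumberField K] {l : ℕ} (hl : l.Prime)
    (v : HeightOneSpectrum (𝓞 K)) (hv : ((l : ℕ) : 𝓞 K) ∈ v.asIdeal) :
    v.valuation K (l : K) = exp (-(v.asIdeal.ramificationIdx ℤ : ℤ)) := by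
  have hfact : Fact l.Prime := ⟨hl⟩
  have hlo : v.asIdeal.LiesOver (Ideal.span {(l : ℤ)}) :=
    Pool.Agent.H82R3.EK.liesOver_of_mem K hl v hv
  have hpz : (l : ℤ) ≠ 0 := by exact_mod_cast hl.ne_zero
  have hne : (Ideal.span {(l : ℤ)} : Ideal ℤ) ≠ ⊥ := by
    rw [Ne, Ideal.span_singleton_eq_bot]
    exact hpz
  have hpr : (Ideal.span {(l : ℤ)} : Ideal ℤ).IsPrime := by
    rw [Ideal.span_singleton_prime hpz]
    exact Nat.prime_iff_prime_int.1 hl
  have hwp := v.isPrime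
  let v0 : HeightOneSpectrum ℤ := ⟨Ideal.span {(l : ℤ)}, hpr, hne⟩
  have : v.asIdeal.LiesOver v0.asIdeal := hlo
  have h1 := HeightOneSpectrum.intValuation_liesOver v0 v (l : ℤ)
  have h2 : v0.intValuation (l : ℤ) = exp (-1 : ℤ) :=
    HeightOneSpectrum.intValuation_singleton v0 hpz rfl
  have h3 : v0.asIdeal.ramificationIdx' v.asIdeal = v.asIdeal.ramificationIdx ℤ :=
    Ideal.ramificationIdx'_eq_ramificationIdx _ _ hne
  rw [h2, h3] at h1
  have h4 : v.valuation K (l : K) = v.intValuation (algebraMap ℤ (𝓞 K) l) := by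
    have : (l : K) = algebraMap (𝓞 K) K (algebraMap ℤ (𝓞 K) l) := by simp
    rw [this, HeightOneSpectrum.valuation_of_algebraMap]
  rw [h4, ← h1, ← exp_nsmul]
  congr 1
  simp

theorem unr_of_disc (K : Type) [Field K] [NumberField K] {l : ℕ} (hl : l.Prime)
    (h : ¬ (l : ℤ) ∣ discr K) (v : HeightOneSpectrum (𝓞 K)) (hv : ((l : ℕ) : 𝓞 K) ∈ v.asIdeal) :
    v.valuation K (l : K) = exp (-1 : ℤ) := by
  rw [not_dvd_discr_iff_forall_mem K (𝓞 K) (Nat.prime_iff_prime_int.1 hl)] at h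
  haveI := v.isPrime
  have h1 := h v.asIdeal v.isPrime (by exact_mod_cast hv)
  have h2 : v.asIdeal.ramificationIdx ℤ = 1 := Ideal.ramificationIdx'_eq_one_iff.2 h1
  rw [val_ram K hl v hv, h2]
  rfl

theorem ev_of_disc (K : Type) [Field K] [NumberField K] [IsGalois ℚ K] {n : ℕ}
    (hn : Module.finrank ℚ K = 2 ^ n) {l : ℕ} (hl : l.Prime) (h : (l : ℤ) ∣ discr K) : Ev K l := by
  intro v hv
  have h0 : ¬ ¬ (l : ℤ) ∣ discr K := not_not.2 h
  rw [not_dvd_discr_iff_forall_mem K (𝓞 K) (Nat.prime_iff_prime_int.1 hl)] at h0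
  push Not at h0
  obtain ⟨P, hP, hlP, hram⟩ := h0
  have hlP' : ((l : ℕ) : 𝓞 K) ∈ P := by exact_mod_cast hlP
  have hl0 : ((l : ℕ) : 𝓞 K) ≠ 0 := by exact_mod_cast hl.ne_zero
  have hPb : P ≠ ⊥ := by
    rintro rfl
    exact hl0 (Ideal.mem_bot.1 hlP')
  let u : HeightOneSpectrum (𝓞 K) := ⟨P, hP, hPb⟩
  have hlou : P.LiesOver (Ideal.span {(l : ℤ)}) :=
    Pool.Agent.H82R3.EK.liesOver_of_mem K hl u hlP'
  have hlov : v.asIdeal.LiesOver (Ideal.span {(l : ℤ)}) :=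
    Pool.Agent.H82R3.EK.liesOver_of_mem K hl v hv
  haveI := v.isPrime
  have hpz : (l : ℤ) ≠ 0 := by exact_mod_cast hl.ne_zero
  haveI hpr : (Ideal.span {(l : ℤ)} : Ideal ℤ).IsPrime := by
    rw [Ideal.span_singleton_prime hpz]
    exact Nat.prime_iff_prime_int.1 hl
  have e1 := Ideal.ramificationIdxIn_eq_ramificationIdx (Ideal.span {(l : ℤ)}) P Gal(K/ℚ)
  have e2 := Ideal.ramificationIdxIn_eq_ramificationIdx (Ideal.span {(l : ℤ)}) v.asIdeal Gal(K/ℚ)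
  have e3 := Ideal.ncard_primesOver_mul_ramificationIdxIn_mul_inertiaDegIn
    (Ideal.span {(l : ℤ)}) (𝓞 K) Gal(K/ℚ)
  rw [IsGaloisGroup.card_eq_finrank Gal(K/ℚ) ℚ K, hn, e2] at e3
  have h1 : v.asIdeal.ramificationIdx ℤ ≠ 1 := by
    rw [← e2, e1]
    intro h'
    exact hram (Ideal.ramificationIdx'_eq_one_iff.1 h')
  have h2 : v.asIdeal.ramificationIdx ℤ ∣ 2 ^ n := by
    rw [← e3]
    exact dvd_mul_of_dvd_right (dvd_mul_right _ _) _
  obtain ⟨k, hk, hke⟩ := (Nat.dvd_prime_pow Nat.prime_two).1 h2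
  have hk0 : k ≠ 0 := by
    rintro rfl
    exact h1 (by rw [hke, pow_zero])
  obtain ⟨k', rfl⟩ := Nat.exists_eq_succ_of_ne_zero hk0
  obtain ⟨ϖ, hϖ⟩ := v.valuation_exists_uniformizer K
  refine ⟨ϖ ^ (2 ^ k'), ?_⟩
  rw [val_ram K hl v hv, hke, map_pow, hϖ, ← pow_mul, ← exp_nsmul]
  congr 1
  rw [nsmul_eq_mul, pow_succ]
  push_cast
  ring

end Pool.Agent.R425
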