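import Pool.Agent.Y710.CV.Core

/-!
# Cocycles with values in the points of order two, from elements of the cubic algebra
-/

set_option autoImplicit false
set_option linter.all false

open WeierstrassCurve WeierstrassCurve.Affine Polynomial
open scoped Classical

namespace Pool.Agent.R425

open Pool.Agent.TH115.GD
open Pool.Agent.Y710.CV (sC_at neg_two)

section

variable {Ω : Type} [Field Ω] [Algebra ℚ Ω] {V : WeierstrassCurve ℚ} {a b c : Ω}

theorem root_act (σ : Ω ≃ₐ[ℚ] Ω) {e : Ω} (he : cub V e = 0) : cub V (σ e) = 0 := by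
  have := cub_map V (ak σ) e
  rw [he, map_zero] at this
  exact this

/-- products over the roots do not change under permutations -/
theorem prod_perm (hC : IsC (V.baseChange Ω).toAffine a b c) (σ : Ω ≃ₐ[ℚ] Ω) (t : Ω → Ω) :
    t (σ a) * t (σ b) * t (σ c) = t a * t b * t c := by
  have ra := hC.root (root_act σ hC.root_a)
  have rb := hC.root (root_act σ hC.root_b)
  have rc := hC.root (root_act σ hC.root_c)
  have hab : σ a ≠ σ b := fun h => hC.ab (σ.injective h)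
  have hac : σ a ≠ σ c := fun h => hC.ac (σ.injective h)
  have hbc : σ b ≠ σ c := fun h => hC.bc (σ.injective h)
  rcases ra with h1 | h1 | h1 <;> rcases rb with h2 | h2 | h2 <;> rcases rc with h3 | h3 | h3 <;>
    first
      | exact absurd (h1.trans h2.symm) hab
      | exact absurd (h1.trans h3.symm) hac
      | exact absurd (h2.trans h3.symm) hbc
      | (rw [h1, h2, h3] <;> ring)

variable [IsGalois ℚ Ω] [IsAlgClosed Ω]

/-- the class of an element of the cubic algebra -/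
theorem exists_cls (hC : IsC (V.baseChange Ω).toAffine a b c) (ζ : Ω → Ω)
    (hζ : ∀ (σ : Ω ≃ₐ[ℚ] Ω) (e : Ω), cub V e = 0 → σ (ζ e) = ζ (σ e))
    (hζ0 : ∀ e, cub V e = 0 → ζ e ≠ 0) {r : ℚ} (hr : ζ a * ζ b * ζ c = algebraMap ℚ Ω r ^ 2) :
    ∃ (g : (Ω ≃ₐ[ℚ] Ω) → Pt V Ω) (t : Ω → Ω), IsLocallyConstant g ∧
      (∀ σ τ, g (σ * τ) = g σ + act V (ak σ) (g τ)) ∧ (∀ σ, g σ + g σ = 0) ∧
      (∀ e, cub V e = 0 → t e ≠ 0 ∧ t e ^ 2 = ζ e) ∧ t a * t b * t c = algebraMap ℚ Ω r ∧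
      ∀ σ e, cub V e = 0 → σ (t (σ⁻¹ e)) = sC e (g σ) * t e := by
  haveI : IsSepClosed Ω := inferInstance
  have ex0 : ∀ e : Ω, ∃ y : Ω, y ^ 2 = ζ e := fun e =>
    IsAlgClosed.exists_pow_nat_eq (ζ e) (n := 2) (by norm_num)
  choose t0 ht0 using ex0
  obtain ⟨t, ht, htr⟩ : ∃ t : Ω → Ω, (∀ e, t e ^ 2 = ζ e) ∧
      t a * t b * t c = algebraMap ℚ Ω r := by
    have h1 : (t0 a * t0 b * t0 c) ^ 2 = algebraMap ℚ Ω r ^ 2 := by
      rw [← hr, mul_pow, mul_pow, ht0, ht0, ht0]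
    rcases sq_eq_sq_iff_eq_or_eq_neg.1 h1 with h | h
    · exact ⟨t0, ht0, h⟩
    · refine ⟨fun e => if e = a then - t0 e else t0 e, fun e => ?_, ?_⟩
      · show (if e = a then - t0 e else t0 e) ^ 2 = ζ e
        split_ifs
        · rw [neg_sq, ht0]
        · exact ht0 e
      · show (if a = a then - t0 a else t0 a) * (if b = a then - t0 b else t0 b) *
          (if c = a then - t0 c else t0 c) = _
        rw [if_pos rfl, if_neg (Ne.symm hC.ab), if_neg (Ne.symm hC.ac)]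
        linear_combination -h
  have htn : ∀ e, cub V e = 0 → t e ≠ 0 := by
    intro e he h
    apply hζ0 e he
    rw [← ht, h]
    ring
  have hinv : ∀ (τ : Ω ≃ₐ[ℚ] Ω) (e : Ω), τ (τ⁻¹ e) = e := by
    intro τ e
    rw [← AlgEquiv.mul_apply, mul_inv_cancel]; rfl
  -- the signs
  have hsg : ∀ (σ : Ω ≃ₐ[ℚ] Ω) (e : Ω), cub V e = 0 →
      ∃ u : Ω, (u = 1 ∨ u = -1) ∧ σ (t (σ⁻¹ e)) = u * t e := by
    intro σ e he
    have he' : cub V (σ⁻¹ e) = 0 := root_act σ⁻¹ he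
    have h1 : (σ (t (σ⁻¹ e))) ^ 2 = t e ^ 2 := by
      rw [← map_pow, ht, hζ σ _ he', hinv, ht]
    rcases sq_eq_sq_iff_eq_or_eq_neg.1 h1 with h | h
    · exact ⟨1, Or.inl rfl, by rw [h, one_mul]⟩
    · exact ⟨-1, Or.inr rfl, by rw [h, neg_one_mul]⟩
  have hex : ∀ σ : Ω ≃ₐ[ℚ] Ω, ∃ P : Pt V Ω, P + P = 0 ∧
      ∀ e, cub V e = 0 → σ (t (σ⁻¹ e)) = sC e P * t e := by
    intro σ
    obtain ⟨ua, hua, ea⟩ := hsg σ a hC.root_a
    obtain ⟨ub, hub, eb⟩ := hsg σ b hC.root_b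
    obtain ⟨uc, huc, ec⟩ := hsg σ c hC.root_c
    have hp : ua * ub * uc = 1 := by
      have h1 := prod_perm hC σ⁻¹ t
      have h2 : σ (t (σ⁻¹ a)) * σ (t (σ⁻¹ b)) * σ (t (σ⁻¹ c)) = t a * t b * t c := by
        rw [← map_mul, ← map_mul, h1, htr, AlgEquiv.commutes]
      rw [ea, eb, ec] at h2
      have h3 : t a * t b * t c ≠ 0 :=
        mul_ne_zero (mul_ne_zero (htn a hC.root_a) (htn b hC.root_b)) (htn c hC.root_c)
      apply mul_right_cancel₀ h3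
      rw [one_mul]
      linear_combination h2
    obtain ⟨P, hP, ha, hb, hc⟩ := exists_tor hC hua hub huc hp
    refine ⟨P, hP, fun e he => ?_⟩
    rcases hC.root he with rfl | rfl | rfl
    · rw [ea, ha]
    · rw [eb, hb]
    · rw [ec, hc]
  choose g hg2 hg using hex
  have hact : ∀ (τ : Ω ≃ₐ[ℚ] Ω) (e : Ω) (P : Pt V Ω),
      sC e (act V (ak τ) P) = sC (τ⁻¹ e) P := by
    intro τ e P
    have := sC_act' V (ak τ) (τ⁻¹ e) P
    have h3 : (ak τ) (τ⁻¹ e) = e := hinv τ e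
    rw [h3] at this
    exact this
  have hta : ∀ (σ : Ω ≃ₐ[ℚ] Ω) (P : Pt V Ω), P + P = 0 → act V (ak σ) P + act V (ak σ) P = 0 :=
    fun σ P hP => (two_act V _ _).2 hP
  have hmul : ∀ σ τ, g (σ * τ) = g σ + act V (ak σ) (g τ) := by
    intro σ τ
    have key : ∀ e, cub V e = 0 → sC e (g (σ * τ)) = sC e (g σ + act V (ak σ) (g τ)) := by
      intro e he
      have he' : cub V (σ⁻¹ e) = 0 := root_act σ⁻¹ he
      have h1 := hg (σ * τ) e he
      have h2 := hg τ (σ⁻¹ e) he'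
      have h3 := hg σ e he
      have h4 : (σ * τ)⁻¹ e = τ⁻¹ (σ⁻¹ e) := by rw [mul_inv_rev]; rfl
      have h5 : (σ * τ) (t ((σ * τ)⁻¹ e)) = σ (τ (t (τ⁻¹ (σ⁻¹ e)))) := by rw [h4]; rfl
      rw [h5, h2, map_mul] at h1
      have h6 : σ (sC (σ⁻¹ e) (g τ)) = sC (σ⁻¹ e) (g τ) := by
        rcases sC_sq (a := σ⁻¹ e) (g τ) with h | h <;> rw [h] <;> simp
      rw [h6, h3] at h1
      rw [sC_at hC he (hg2 σ) (hta σ _ (hg2 τ)), hact]
      apply mul_right_cancel₀ (htn e he)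
      linear_combination -h1
    refine sC_ext hC (hg2 _) ?_ (key a hC.root_a) (key b hC.root_b)
    rw [add_add_add_comm, hg2, hta _ _ (hg2 _), add_zero]
  refine ⟨g, t, ?_, hmul, hg2, fun e he => ⟨htn e he, ht e⟩, htr, hg⟩
  -- continuity
  set S : Finset Ω := {a, b, c, t a, t b, t c} with hS
  have hUopen : IsOpen (⋂ x ∈ S, (MulAction.stabilizer (Ω ≃ₐ[ℚ] Ω) x : Set (Ω ≃ₐ[ℚ] Ω))) :=
    isOpen_biInter_finset fun x _ => stabilizer_isOpen_of_isIntegral (K := ℚ) x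
  set U := ⋂ x ∈ S, (MulAction.stabilizer (Ω ≃ₐ[ℚ] Ω) x : Set (Ω ≃ₐ[ℚ] Ω)) with hU
  have hUmem : ∀ τ ∈ U, ∀ x ∈ S, τ x = x := by
    intro τ hτ x hx
    rw [hU, Set.mem_iInter₂] at hτ
    exact hτ x hx
  have hU0 : ∀ τ ∈ U, g τ = 0 := by
    intro τ hτ
    have hfx := hUmem τ hτ
    have hτinv : ∀ x, τ x = x → τ⁻¹ x = x := by
      intro x hx
      apply τ.injective
      rw [hinv, hx]
    have key : ∀ e, cub V e = 0 → τ e = e → τ (t e) = t e → sC e (g τ) = sC e (0 : Pt V Ω) := by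
      intro e he h1 h2
      have h3 := hg τ e he
      rw [hτinv e h1, h2] at h3
      rw [sC_zero]
      apply mul_right_cancel₀ (htn e he)
      rw [← h3, one_mul]
    exact sC_ext hC (hg2 τ) (add_zero 0)
      (key a hC.root_a (hfx a (by simp [hS])) (hfx _ (by simp [hS])))
      (key b hC.root_b (hfx b (by simp [hS])) (hfx _ (by simp [hS])))
  rw [IsLocallyConstant.iff_exists_open]
  intro τ
  refine ⟨(fun x => τ⁻¹ * x) ⁻¹' U, hUopen.preimage (continuous_const.mul continuous_id), ?_, ?_⟩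
  · show τ⁻¹ * τ ∈ U
    rw [inv_mul_cancel, hU, Set.mem_iInter₂]
    intro x _
    exact (MulAction.stabilizer (Ω ≃ₐ[ℚ] Ω) x).one_mem
  · intro τ' hτ'
    have h1 : τ' = τ * (τ⁻¹ * τ') := by group
    rw [h1, hmul, hU0 _ hτ', map_zero, add_zero]

/-- If the class is trivial on a normal subgroup which is transitive on the roots, then the element
is a square. -/
theorem sq_of_triv (hC : IsC (V.baseChange Ω).toAffine a b c) {ζ : Ω → Ω}
    {g : (Ω ≃ₐ[ℚ] Ω) → Pt V Ω} {t : Ω → Ω} {r : ℚ} (hr0 : r ≠ 0) (h2 : ∀ σ, g σ + g σ = 0)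
    (ht : ∀ e, cub V e = 0 → t e ≠ 0 ∧ t e ^ 2 = ζ e) (htr : t a * t b * t c = algebraMap ℚ Ω r)
    (hg : ∀ σ e, cub V e = 0 → σ (t (σ⁻¹ e)) = sC e (g σ) * t e)
    (H : Subgroup (Ω ≃ₐ[ℚ] Ω)) [H.Normal] (htrans : ∀ e, cub V e = 0 → ∃ σ ∈ H, σ a = e)
    {T : Pt V Ω} (hT : T + T = 0) (hgT : ∀ σ ∈ H, g σ = act V (ak σ) T - T) :
    ∃ t' : Ω → Ω, (∀ e, cub V e = 0 → t' e ^ 2 = ζ e) ∧
      ∀ (σ : Ω ≃ₐ[ℚ] Ω) (e : Ω), cub V e = 0 → σ (t' e) = t' (σ e) := by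
  haveI : IsSepClosed Ω := inferInstance
  have hinv : ∀ (τ : Ω ≃ₐ[ℚ] Ω) (e : Ω), τ (τ⁻¹ e) = e := by
    intro τ e
    rw [← AlgEquiv.mul_apply, mul_inv_cancel]; rfl
  have hinv' : ∀ (τ : Ω ≃ₐ[ℚ] Ω) (e : Ω), τ⁻¹ (τ e) = e := by
    intro τ e
    rw [← AlgEquiv.mul_apply, inv_mul_cancel]; rfl
  have hact : ∀ (τ : Ω ≃ₐ[ℚ] Ω) (e : Ω) (P : Pt V Ω),
      sC e (act V (ak τ) P) = sC (τ⁻¹ e) P := by
    intro τ e P
    have := sC_act' V (ak τ) (τ⁻¹ e) P
    have h3 : (ak τ) (τ⁻¹ e) = e := hinv τ e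
    rw [h3] at this
    exact this
  have hta : ∀ (σ : Ω ≃ₐ[ℚ] Ω) (P : Pt V Ω), P + P = 0 → act V (ak σ) P + act V (ak σ) P = 0 :=
    fun σ P hP => (two_act V _ _).2 hP
  have hsgn : ∀ (σ : Ω ≃ₐ[ℚ] Ω) (e : Ω) (P : Pt V Ω), σ (sC e P) = sC e P := by
    intro σ e P
    rcases sC_sq (a := e) P with h | h <;> rw [h] <;> simp
  -- the equivariant root
  set t' : Ω → Ω := fun e => sC e T * t e with ht'
  have hn' : ∀ e, cub V e = 0 → t' e ≠ 0 := fun e he => mul_ne_zero (sC_ne _) (ht e he).1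
  have hsq' : ∀ e, cub V e = 0 → t' e ^ 2 = ζ e := by
    intro e he
    have h1 := sC_mul_self (a := e) T
    have h3 := (ht e he).2
    simp only [ht']
    rw [← h3]
    linear_combination (t e ^ 2) * h1
  have hH : ∀ σ ∈ H, ∀ e, cub V e = 0 → σ (t' e) = t' (σ e) := by
    intro σ hσ e he
    have he' := root_act σ he
    have h1 := hg σ (σ e) he'
    rw [hinv', hgT σ hσ, sub_eq_add_neg, neg_two hT, sC_at hC he' (hta σ T hT) hT, hact,
      hinv'] at h1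
    simp only [ht']
    rw [map_mul, hsgn, h1]
    have h3 := sC_mul_self (a := e) T
    linear_combination (sC (σ e) T * t (σ e)) * h3
  have hprod : t' a * t' b * t' c = algebraMap ℚ Ω r := by
    have h1 := sC_prod hC hT
    simp only [ht']
    rw [← htr]
    linear_combination (t a * t b * t c) * h1
  refine ⟨t', hsq', ?_⟩
  have hζt : ∀ (τ : Ω ≃ₐ[ℚ] Ω) e, cub V e = 0 → ∃ u : Ω, (u = 1 ∨ u = -1) ∧
      τ (t' (τ⁻¹ e)) = u * t' e := by
    intro τ e he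
    have he' : cub V (τ⁻¹ e) = 0 := root_act τ⁻¹ he
    have h1 := hg τ e he
    refine ⟨sC (τ⁻¹ e) T * sC e (g τ) * sC e T, ?_, ?_⟩
    · rcases sC_sq (a := τ⁻¹ e) T with h | h <;> rcases sC_sq (a := e) T with h' | h' <;>
        rcases sC_sq (a := e) (g τ) with h'' | h'' <;> rw [h, h', h''] <;> simp
    · simp only [ht']
      rw [map_mul, hsgn, h1]
      have h3 := sC_mul_self (a := e) T
      linear_combination (-(sC (τ⁻¹ e) T * sC e (g τ) * t e)) * h3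
  intro τ
  -- the sign does not depend on the root
  obtain ⟨u, hu, hua⟩ := hζt τ a hC.root_a
  have hall : ∀ e, cub V e = 0 → τ (t' (τ⁻¹ e)) = u * t' e := by
    intro e he
    obtain ⟨σ, hσ, hσa⟩ := htrans e he
    have hσ' : τ⁻¹ * σ * τ ∈ H := by
      have := Subgroup.Normal.conj_mem inferInstance σ hσ τ⁻¹
      rwa [inv_inv] at this
    have ha' : cub V (τ⁻¹ a) = 0 := root_act τ⁻¹ hC.root_a
    have h1 := hH _ hσ' (τ⁻¹ a) ha'
    have h3 : (τ⁻¹ * σ * τ) (τ⁻¹ a) = τ⁻¹ e := by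
      show τ⁻¹ (σ (τ (τ⁻¹ a))) = _
      rw [hinv, hσa]
    rw [h3] at h1
    rw [← h1]
    show τ (τ⁻¹ (σ (τ (t' (τ⁻¹ a))))) = _
    rw [hinv, hua, map_mul, hH σ hσ a hC.root_a, hσa]
    congr 1
    rcases hu with rfl | rfl <;> simp
  have hu1 : u = 1 := by
    have h1 := prod_perm hC τ⁻¹ t'
    have h3 : τ (t' (τ⁻¹ a)) * τ (t' (τ⁻¹ b)) * τ (t' (τ⁻¹ c)) = t' a * t' b * t' c := by
      rw [← map_mul, ← map_mul, h1, hprod, AlgEquiv.commutes]
    rw [hall a hC.root_a, hall b hC.root_b, hall c hC.root_c] at h3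
    have h4 : t' a * t' b * t' c ≠ 0 :=
      mul_ne_zero (mul_ne_zero (hn' a hC.root_a) (hn' b hC.root_b)) (hn' c hC.root_c)
    have h5 : u * u * u = 1 := by
      apply mul_right_cancel₀ h4
      rw [one_mul]
      linear_combination h3
    rcases hu with h | h
    · exact h
    · rw [h] at h5 ⊢
      linear_combination h5
  intro e he
  have he' := root_act τ he
  have h1 := hall (τ e) he'
  rw [hinv', hu1, one_mul] at h1
  exact h1

end

end Pool.Agent.R425
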