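import Pool.Agent.TH115.TC.LocC
import Pool.Agent.R425.Sq

/-!
# The local condition at a place of good reduction of a number field
-/

set_option autoImplicit false
set_option linter.all false

open Polynomial
open scoped NNReal

namespace Pool.Agent.R425

open Pool.Agent.TH115.GD (cub cub')

/-- the descent over a finite field, see `Pool.Agent.Y702.G.S_FL` -/
def FLs : Prop := ∀ (F : Type) [Field F] [Finite F], (2 : F) ≠ 0 → ∀ (V : WeierstrassCurve F),
  V.a₁ = 0 → V.a₃ = 0 → V.Δ ≠ 0 → ∀ (Ω : Type) [Field Ω] [Algebra F Ω] (a b c : Ω),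
    (∀ x : Ω, cub V x = (x - a) * (x - b) * (x - c)) → ∀ (h : F[X]) (r : F), r ≠ 0 →
    aeval a h * aeval b h * aeval c h = algebraMap F Ω r ^ 2 →
    (∀ e : Ω, cub V e = 0 → ∃ s : F[X], aeval e h = (aeval e s) ^ 2) ∨
    ∃ x y : F, y ^ 2 = cub V x ∧ ∀ e : Ω, cub V e = 0 → ∃ (s : F[X]) (D : Ω),
      aeval e h = (aeval e s) ^ 2 * D ∧ ((algebraMap F Ω x = e ∧ D = cub' V e) ∨
        (algebraMap F Ω x ≠ e ∧ D = algebraMap F Ω x - e))

section rd

variable {Ω' : Type} [Field Ω'] (w : Valuation Ω' ℝ≥0)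

/-- the residue class -/
noncomputable def rd (x : Ω') (hx : w x ≤ 1) : IsLocalRing.ResidueField w.valuationSubring :=
  IsLocalRing.residue w.valuationSubring ⟨x, hx⟩

theorem rd_zero_iff {x : Ω'} (hx : w x ≤ 1) : rd w x hx = 0 ↔ w x < 1 := by
  unfold rd
  rw [IsLocalRing.residue_eq_zero_iff, Valuation.mem_maximalIdeal_iff]

theorem rd_sub {x y : Ω'} (hx : w x ≤ 1) (hy : w y ≤ 1) (h : w (x - y) ≤ 1) :
    rd w (x - y) h = rd w x hx - rd w y hy := by
  unfold rd
  rw [← map_sub]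
  rfl

theorem rd_add {x y : Ω'} (hx : w x ≤ 1) (hy : w y ≤ 1) (h : w (x + y) ≤ 1) :
    rd w (x + y) h = rd w x hx + rd w y hy := by
  unfold rd
  rw [← map_add]
  rfl

theorem rd_mul {x y : Ω'} (hx : w x ≤ 1) (hy : w y ≤ 1) (h : w (x * y) ≤ 1) :
    rd w (x * y) h = rd w x hx * rd w y hy := by
  unfold rd
  rw [← map_mul]
  rfl

theorem rd_eq_iff {x y : Ω'} (hx : w x ≤ 1) (hy : w y ≤ 1) :
    rd w x hx = rd w y hy ↔ w (x - y) < 1 := by
  have h : w (x - y) ≤ 1 := (Valuation.map_sub _ _ _).trans (max_le hx hy)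
  rw [← rd_zero_iff w h, rd_sub w hx hy, sub_eq_zero]

theorem int_le (n : ℤ) : w (n : Ω') ≤ 1 := by
  have h : (n : Ω') ∈ w.valuationSubring := intCast_mem _ n
  exact h

theorem rd_int (n : ℤ) (h : w (n : Ω') ≤ 1) : rd w (n : Ω') h = n := by
  unfold rd
  rw [← map_intCast (IsLocalRing.residue w.valuationSubring)]
  congr 1

end rd

section main

variable {O : Type} [CommRing O] (P : Ideal O) [hP : P.IsMaximal] [hfin : Finite (O ⧸ P)]
  {L Ω' : Type} [Field L] [Field Ω'] [Algebra L Ω'] [IsAlgClosed Ω'] [IsGalois L Ω']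
  [CharZero Ω'] [Algebra ℚ L] [Algebra ℚ Ω'] [IsScalarTower ℚ L Ω']
  (j : O →+* L) (w : Valuation Ω' ℝ≥0)
  (hσ : ∀ (σ : Ω' ≃ₐ[L] Ω') (x : Ω'), w (σ x) = w x)
  (hj : ∀ a, w (algebraMap L Ω' (j a)) ≤ 1) (hjP : ∀ a, w (algebraMap L Ω' (j a)) < 1 ↔ a ∈ P)
  (happ : ∀ x : L, w (algebraMap L Ω' x) ≤ 1 →
    ∃ a : O, w (algebraMap L Ω' x - algebraMap L Ω' (j a)) < 1)

include hσ hj hjP happ in
theorem lz (hF : FLs) (h2 : w 2 = 1) {V : WeierstrassCurve ℚ} {a b c : ℤ}
    (hcub : ∀ {L : Type} [Field L] [Algebra ℚ L] (x : L),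
      cub V x = x ^ 3 + (a : L) * x ^ 2 + (b : L) * x + (c : L))
    (hcub' : ∀ {L : Type} [Field L] [Algebra ℚ L] (x : L),
      cub' V x = 3 * x ^ 2 + 2 * (a : L) * x + (b : L))
    {e1 e2 e3 : Ω'} (hC : ∀ x : Ω', cub V x = (x - e1) * (x - e2) * (x - e3))
    (he1 : w e1 ≤ 1) (he2 : w e2 ≤ 1) (he3 : w e3 ≤ 1) (h12 : w (e1 - e2) = 1)
    (h13 : w (e1 - e3) = 1) (h23 : w (e2 - e3) = 1) (ζ : Ω' → Ω')
    (hζσ : ∀ (σ : Ω' ≃ₐ[L] Ω') (e : Ω'), cub V e = 0 → σ (ζ e) = ζ (σ e))
    (hζv : ∀ e : Ω', cub V e = 0 → ∃ s : L, s ≠ 0 ∧ w (ζ e) = w (algebraMap L Ω' s) ^ 2)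
    (r : L) (hr : ζ e1 * ζ e2 * ζ e3 = algebraMap L Ω' r ^ 2) :
    (∀ e : Ω', cub V e = 0 → ∃ y : Ω', (∀ σ : Ω' ≃ₐ[L] Ω', σ e = e → σ y = y) ∧ ζ e = y ^ 2) ∨
    ∃ X Y : L, Y ^ 2 = cub V X ∧ ∀ e : Ω', cub V e = 0 → ∃ y D : Ω',
      (∀ σ : Ω' ≃ₐ[L] Ω', σ e = e → σ y = y) ∧ ζ e = y ^ 2 * D ∧
      ((algebraMap L Ω' X = e ∧ D = cub' V e) ∨
        (algebraMap L Ω' X ≠ e ∧ D = algebraMap L Ω' X - e)) := by
  classical
  -- the roots
  have hroot : ∀ e : Ω', cub V e = 0 ↔ e = e1 ∨ e = e2 ∨ e = e3 := by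
    intro e
    rw [hC, mul_eq_zero, mul_eq_zero, sub_eq_zero, sub_eq_zero, sub_eq_zero, or_assoc]
  have ne_of : ∀ {x y : Ω'}, w (x - y) = 1 → x ≠ y := by
    rintro x y h rfl
    rw [sub_self, map_zero] at h
    exact zero_ne_one h
  have n12 := ne_of h12
  have n13 := ne_of h13
  have n23 := ne_of h23
  set s : Finset Ω' := {e1, e2, e3} with hs
  have hms : ∀ e, e ∈ s ↔ cub V e = 0 := by
    intro e
    rw [hroot, hs]
    simp
  have hs3 : s.card = 3 := by
    rw [hs, Finset.card_insert_of_notMem (by simp [n12, n13]),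
      Finset.card_insert_of_notMem (by simp [n23]), Finset.card_singleton]
  have hse : ∀ e ∈ s, w e ≤ 1 := by
    intro e he
    rcases (hroot e).1 ((hms e).1 he) with rfl | rfl | rfl
    · exact he1
    · exact he2
    · exact he3
  have hsd : ∀ e ∈ s, ∀ f ∈ s, e ≠ f → w (e - f) = 1 := by
    intro e he f hf hef
    have h21 : w (e2 - e1) = 1 := by rw [Valuation.map_sub_swap]; exact h12
    have h31 : w (e3 - e1) = 1 := by rw [Valuation.map_sub_swap]; exact h13
    have h32 : w (e3 - e2) = 1 := by rw [Valuation.map_sub_swap]; exact h23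
    rcases (hroot e).1 ((hms e).1 he) with rfl | rfl | rfl <;>
      rcases (hroot f).1 ((hms f).1 hf) with rfl | rfl | rfl <;>
      first
        | exact absurd rfl hef
        | assumption
  have hcubσ : ∀ (σ : Ω' ≃ₐ[L] Ω') (e : Ω'), cub V e = 0 → cub V (σ e) = 0 := by
    intro σ e he
    have h1 := congrArg σ he
    rw [hcub, map_zero] at h1
    simp only [map_add, map_mul, map_pow, map_intCast] at h1
    rw [hcub]
    exact h1
  have hperm : ∀ σ : Ω' ≃ₐ[L] Ω', ∀ e ∈ s, σ e ∈ s := fun σ e he =>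
    (hms _).2 (hcubσ σ e ((hms _).1 he))
  -- the normalisation
  obtain ⟨sv, hsv⟩ : ∃ sv : ℝ≥0 → L, ∀ e : Ω', cub V e = 0 → sv (w (ζ e)) ≠ 0 ∧
      w (ζ e) = w (algebraMap L Ω' (sv (w (ζ e)))) ^ 2 := by
    have hex : ∀ t : ℝ≥0, ∃ s : L, (∃ s : L, s ≠ 0 ∧ t = w (algebraMap L Ω' s) ^ 2) →
        s ≠ 0 ∧ t = w (algebraMap L Ω' s) ^ 2 := by
      intro t
      by_cases h : ∃ s : L, s ≠ 0 ∧ t = w (algebraMap L Ω' s) ^ 2
      · obtain ⟨s, hs⟩ := h
        exact ⟨s, fun _ => hs⟩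
      · exact ⟨0, fun h' => absurd h' h⟩
    choose sv hsv using hex
    exact ⟨sv, fun e he => hsv _ (hζv e he)⟩
  set q : Ω' → Ω' := fun e => algebraMap L Ω' (sv (w (ζ e))) with hq
  set η : Ω' → Ω' := fun e => ζ e / q e ^ 2 with hηdef
  have hq0 : ∀ e, cub V e = 0 → q e ≠ 0 := fun e he =>
    (map_ne_zero (algebraMap L Ω')).2 (hsv e he).1
  have hwζ : ∀ e, cub V e = 0 → w (ζ e) = w (q e) ^ 2 := fun e he => (hsv e he).2
  have hη1 : ∀ e, cub V e = 0 → w (η e) = 1 := by
    intro e he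
    rw [hηdef]
    simp only
    rw [map_div₀, map_pow, hwζ e he]
    exact div_self (pow_ne_zero 2 ((Valuation.ne_zero_iff _).2 (hq0 e he)))
  have hζη : ∀ e, cub V e = 0 → ζ e = q e ^ 2 * η e := by
    intro e he
    rw [hηdef]
    simp only
    rw [mul_div_cancel₀ _ (pow_ne_zero 2 (hq0 e he))]
  have hqσ : ∀ (σ : Ω' ≃ₐ[L] Ω') (e : Ω'), σ (q e) = q e := fun σ e => σ.commutes _
  have hqσ' : ∀ (σ : Ω' ≃ₐ[L] Ω') (e : Ω'), cub V e = 0 → q (σ e) = q e := by
    intro σ e he
    simp only [hq]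
    rw [← hζσ σ e he, hσ]
  have hησ : ∀ (σ : Ω' ≃ₐ[L] Ω') (e : Ω'), cub V e = 0 → σ (η e) = η (σ e) := by
    intro σ e he
    simp only [hηdef]
    rw [map_div₀, map_pow, hqσ, hζσ σ e he, hqσ' σ e he]
  obtain ⟨l0, l1, l2, hl0, hl1, hl2, hl⟩ := interp (L := L) w hs3 hse hsd hperm η
    (fun e he => (hη1 e ((hms e).1 he)).le) (fun σ e he => hησ σ e ((hms e).1 he))
  -- the residue fields
  letI : Field (O ⧸ P) := Ideal.Quotient.field P
  set κ := IsLocalRing.ResidueField w.valuationSubring with hκ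
  set jO : O →+* w.valuationSubring := ((algebraMap L Ω').comp j).codRestrict w.valuationSubring hj
    with hjO
  set f0 : O →+* κ := (IsLocalRing.residue w.valuationSubring).comp jO with hf0
  have hf0' : ∀ a, f0 a = rd w (algebraMap L Ω' (j a)) (hj a) := fun a => rfl
  have hf0z : ∀ a, f0 a = 0 ↔ a ∈ P := by
    intro a
    rw [hf0', rd_zero_iff, hjP]
  set FK : O ⧸ P →+* κ := Ideal.Quotient.lift P f0 (fun a ha => (hf0z a).2 ha) with hFK
  letI : Algebra (O ⧸ P) κ := FK.toAlgebra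
  have hFKm : ∀ a : O, algebraMap (O ⧸ P) κ (Ideal.Quotient.mk P a) = f0 a := fun a => rfl
  -- evaluation
  have hEv : ∀ (S : O[X]) (e : Ω') (he : w e ≤ 1),
      ∃ (Se : Ω') (hSe : w Se ≤ 1), aeval (rd w e he) (S.map (Ideal.Quotient.mk P)) = rd w Se hSe ∧
        ∀ σ : Ω' ≃ₐ[L] Ω', σ e = e → σ Se = Se := by
    intro S e he
    refine ⟨eval₂ ((algebraMap L Ω').comp j) e S, ?_, ?_, ?_⟩
    · have h1 := hom_eval₂ S jO w.valuationSubring.subtype ⟨e, he⟩
      have h3 : (w.valuationSubring.subtype.comp jO) = (algebraMap L Ω').comp j := rfl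
      rw [h3] at h1
      have h4 : (w.valuationSubring.subtype ⟨e, he⟩ : Ω') = e := rfl
      rw [h4] at h1
      rw [← h1]
      exact (eval₂ jO ⟨e, he⟩ S).2
    · have h1 := hom_eval₂ S jO w.valuationSubring.subtype ⟨e, he⟩
      have h3 : (w.valuationSubring.subtype.comp jO) = (algebraMap L Ω').comp j := rfl
      rw [h3] at h1
      have h4 : (w.valuationSubring.subtype ⟨e, he⟩ : Ω') = e := rfl
      rw [h4] at h1
      have h5 := hom_eval₂ S jO (IsLocalRing.residue w.valuationSubring) ⟨e, he⟩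
      rw [aeval_def, eval₂_map]
      have h6 : (algebraMap (O ⧸ P) κ).comp (Ideal.Quotient.mk P) = f0 := by
        ext a; rfl
      rw [h6]
      refine Eq.trans h5.symm ?_
      unfold rd
      congr 1
      exact Subtype.ext h1
    · intro σ hσe
      have h1 := hom_eval₂ S ((algebraMap L Ω').comp j) (σ : Ω' →+* Ω') e
      have h3 : ((σ : Ω' →+* Ω').comp ((algebraMap L Ω').comp j)) = (algebraMap L Ω').comp j := by
        ext a
        exact σ.commutes _
      rw [h3] at h1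
      have h4 : (σ : Ω' →+* Ω') e = e := hσe
      rw [h4] at h1
      exact h1
  have hlift : ∀ t : (O ⧸ P)[X], ∃ S : O[X], S.map (Ideal.Quotient.mk P) = t := fun t =>
    Polynomial.map_surjective (Ideal.Quotient.mk P) Ideal.Quotient.mk_surjective t
  obtain ⟨a0, ha0⟩ := happ l0 hl0
  obtain ⟨a1, ha1⟩ := happ l1 hl1
  obtain ⟨a2, ha2⟩ := happ l2 hl2
  set H : (O ⧸ P)[X] := C (Ideal.Quotient.mk P a0) + C (Ideal.Quotient.mk P a1) * X +
    C (Ideal.Quotient.mk P a2) * X ^ 2 with hH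
  have hHe : ∀ (e : Ω') (he : cub V e = 0) (hwe : w e ≤ 1),
      aeval (rd w e hwe) H = rd w (η e) (hη1 e he).le := by
    intro e he hwe
    have h1 : aeval (rd w e hwe) H = f0 a0 + f0 a1 * rd w e hwe + f0 a2 * rd w e hwe ^ 2 := by
      rw [hH]
      simp only [map_add, map_mul, map_pow, aeval_C, aeval_X]
      rfl
    rw [h1]
    have e0 : f0 a0 = rd w (algebraMap L Ω' l0) hl0 := by
      rw [hf0', rd_eq_iff, Valuation.map_sub_swap]; exact ha0
    have e1' : f0 a1 = rd w (algebraMap L Ω' l1) hl1 := by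
      rw [hf0', rd_eq_iff, Valuation.map_sub_swap]; exact ha1
    have e2' : f0 a2 = rd w (algebraMap L Ω' l2) hl2 := by
      rw [hf0', rd_eq_iff, Valuation.map_sub_swap]; exact ha2
    rw [e0, e1', e2']
    have h3 : (⟨η e, (hη1 e he).le⟩ : w.valuationSubring) = ⟨algebraMap L Ω' l0, hl0⟩ +
        ⟨algebraMap L Ω' l1, hl1⟩ * ⟨e, hwe⟩ + ⟨algebraMap L Ω' l2, hl2⟩ * ⟨e, hwe⟩ ^ 2 := by
      apply Subtype.ext
      exact hl e ((hms e).2 he)
    unfold rd
    rw [h3, map_add, map_add, map_mul, map_mul, map_pow]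
  have hz1 : cub V e1 = 0 := (hroot e1).2 (Or.inl rfl)
  have hz2 : cub V e2 = 0 := (hroot e2).2 (Or.inr (Or.inl rfl))
  have hz3 : cub V e3 = 0 := (hroot e3).2 (Or.inr (Or.inr rfl))
  -- symmetric functions
  obtain ⟨hA, hB, hCc⟩ : (a : Ω') = -(e1 + e2 + e3) ∧ (b : Ω') = e1 * e2 + e1 * e3 + e2 * e3 ∧
      (c : Ω') = -(e1 * e2 * e3) := by
    have g0 := hC 0
    have g1 := hC 1
    have g2 := hC (-1)
    rw [hcub] at g0 g1 g2
    have hc : (c : Ω') = -(e1 * e2 * e3) := by linear_combination g0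
    refine ⟨?_, ?_, hc⟩
    · have : (2 : Ω') * a = 2 * (-(e1 + e2 + e3)) := by linear_combination g1 + g2 - 2 * hc
      exact mul_left_cancel₀ two_ne_zero this
    · have : (2 : Ω') * b = 2 * (e1 * e2 + e1 * e3 + e2 * e3) := by linear_combination g1 - g2
      exact mul_left_cancel₀ two_ne_zero this
  set E1 : w.valuationSubring := ⟨e1, he1⟩ with hE1
  set E2 : w.valuationSubring := ⟨e2, he2⟩ with hE2
  set E3 : w.valuationSubring := ⟨e3, he3⟩ with hE3
  set ρ := IsLocalRing.residue w.valuationSubring with hρ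
  have hρ1 : rd w e1 he1 = ρ E1 := rfl
  have hρ2 : rd w e2 he2 = ρ E2 := rfl
  have hρ3 : rd w e3 he3 = ρ E3 := rfl
  have hAk : (a : κ) = -(ρ E1 + ρ E2 + ρ E3) := by
    have h1 : (a : w.valuationSubring) = -(E1 + E2 + E3) := by
      apply Subtype.ext
      push_cast
      exact hA
    have h3 := congrArg ρ h1
    rwa [map_intCast, map_neg, map_add, map_add] at h3
  have hBk : (b : κ) = ρ E1 * ρ E2 + ρ E1 * ρ E3 + ρ E2 * ρ E3 := by
    have h1 : (b : w.valuationSubring) = E1 * E2 + E1 * E3 + E2 * E3 := by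
      apply Subtype.ext
      push_cast
      exact hB
    have h3 := congrArg ρ h1
    rwa [map_intCast, map_add, map_add, map_mul, map_mul, map_mul] at h3
  have hCk : (c : κ) = -(ρ E1 * ρ E2 * ρ E3) := by
    have h1 : (c : w.valuationSubring) = -(E1 * E2 * E3) := by
      apply Subtype.ext
      push_cast
      exact hCc
    have h3 := congrArg ρ h1
    rwa [map_intCast, map_neg, map_mul, map_mul] at h3
  have hρsub : ∀ (x y : Ω') (hx : w x ≤ 1) (hy : w y ≤ 1), w (x - y) = 1 →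
      rd w x hx ≠ rd w y hy := by
    intro x y hx hy hxy h
    rw [rd_eq_iff] at h
    exact absurd hxy h.ne
  have d12 := hρsub e1 e2 he1 he2 h12
  have d13 := hρsub e1 e3 he1 he3 h13
  have d23 := hρsub e2 e3 he2 he3 h23
  -- the curve over the residue field
  set V' : WeierstrassCurve (O ⧸ P) := ⟨0, (a : O ⧸ P), 0, (b : O ⧸ P), (c : O ⧸ P)⟩ with hV'
  have hcV : ∀ x : κ, cub V' x = x ^ 3 + (a : κ) * x ^ 2 + (b : κ) * x + (c : κ) := by
    intro x
    simp only [cub, hV', map_intCast]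
  have hcV' : ∀ x : κ, cub' V' x = 3 * x ^ 2 + 2 * (a : κ) * x + (b : κ) := by
    intro x
    simp only [cub', hV', map_intCast]
  have hcVF : ∀ x : O ⧸ P, cub V' x = x ^ 3 + (a : O ⧸ P) * x ^ 2 + (b : O ⧸ P) * x + (c : O ⧸ P) := by
    intro x
    simp only [cub, hV', map_intCast]
  have hcV3 : ∀ x : κ, cub V' x = (x - rd w e1 he1) * (x - rd w e2 he2) * (x - rd w e3 he3) := by
    intro x
    rw [hcV, hAk, hBk, hCk, hρ1, hρ2, hρ3]
    ring
  have h2F : (2 : O ⧸ P) ≠ 0 := by
    intro h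
    have h1 : (Ideal.Quotient.mk P) (2 : O) = 0 := by rw [map_ofNat]; exact h
    rw [Ideal.Quotient.eq_zero_iff_mem, ← hjP, map_ofNat, map_ofNat, h2] at h1
    exact lt_irrefl _ h1
  have h2k : (2 : κ) ≠ 0 := by
    intro h
    apply h2F
    apply (algebraMap (O ⧸ P) κ).injective
    rw [map_ofNat, map_zero]
    exact h
  have hΔ : V'.Δ ≠ 0 := by
    intro h
    have h1 := congrArg (algebraMap (O ⧸ P) κ) h
    rw [map_zero] at h1
    have h3 : algebraMap (O ⧸ P) κ V'.Δ = 16 * ((ρ E1 - ρ E2) * (ρ E1 - ρ E3) * (ρ E2 - ρ E3)) ^ 2 := by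
      simp only [WeierstrassCurve.Δ, WeierstrassCurve.b₂, WeierstrassCurve.b₄,
        WeierstrassCurve.b₆, WeierstrassCurve.b₈, hV', map_add, map_sub, map_mul, map_pow, map_neg,
        map_intCast, map_ofNat, map_zero]
      rw [hAk, hBk, hCk]
      ring
    rw [h3] at h1
    have h16 : (16 : κ) ≠ 0 := by
      have : (16 : κ) = 2 ^ 4 := by norm_num
      rw [this]
      exact pow_ne_zero 4 h2k
    rcases mul_eq_zero.1 h1 with h4 | h4
    · exact h16 h4
    · have h5 := pow_eq_zero_iff (two_ne_zero) |>.1 h4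
      rcases mul_eq_zero.1 h5 with h6 | h6
      · rcases mul_eq_zero.1 h6 with h7 | h7
        · exact d12 (sub_eq_zero.1 h7)
        · exact d13 (sub_eq_zero.1 h7)
      · exact d23 (sub_eq_zero.1 h6)
  -- the norm
  obtain ⟨r', hr'1, hr'2⟩ : ∃ r' : L, w (algebraMap L Ω' r') = 1 ∧
      η e1 * η e2 * η e3 = algebraMap L Ω' r' ^ 2 := by
    refine ⟨r / (sv (w (ζ e1)) * sv (w (ζ e2)) * sv (w (ζ e3))), ?_, ?_⟩
    · have h1 : w (algebraMap L Ω' (r / (sv (w (ζ e1)) * sv (w (ζ e2)) * sv (w (ζ e3))))) ^ 2 = 1 := by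
        have h3 : algebraMap L Ω' (r / (sv (w (ζ e1)) * sv (w (ζ e2)) * sv (w (ζ e3)))) ^ 2 =
            η e1 * η e2 * η e3 := by
          rw [map_div₀, div_pow, ← hr, hζη e1 hz1, hζη e2 hz2, hζη e3 hz3, map_mul, map_mul]
          have q1 := hq0 e1 hz1
          have q2 := hq0 e2 hz2
          have q3 := hq0 e3 hz3
          have g1 : algebraMap L Ω' (sv (w (ζ e1))) = q e1 := rfl
          have g2 : algebraMap L Ω' (sv (w (ζ e2))) = q e2 := rfl
          have g3 : algebraMap L Ω' (sv (w (ζ e3))) = q e3 := rfl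
          rw [← hζη e1 hz1, ← hζη e2 hz2, ← hζη e3 hz3, g1, g2, g3]
          rw [hζη e1 hz1, hζη e2 hz2, hζη e3 hz3]
          field_simp
        rw [← map_pow, h3, map_mul, map_mul, hη1 e1 hz1, hη1 e2 hz2, hη1 e3 hz3]
        simp
      exact (pow_eq_one_iff_of_nonneg zero_le two_ne_zero).1 h1
    · rw [map_div₀, div_pow, ← hr, map_mul, map_mul]
      have q1 := hq0 e1 hz1
      have q2 := hq0 e2 hz2
      have q3 := hq0 e3 hz3
      have g1 : algebraMap L Ω' (sv (w (ζ e1))) = q e1 := rfl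
      have g2 : algebraMap L Ω' (sv (w (ζ e2))) = q e2 := rfl
      have g3 : algebraMap L Ω' (sv (w (ζ e3))) = q e3 := rfl
      rw [g1, g2, g3, hζη e1 hz1, hζη e2 hz2, hζη e3 hz3]
      field_simp
  obtain ⟨ar, har⟩ := happ r' hr'1.le
  have hf0r : f0 ar = rd w (algebraMap L Ω' r') hr'1.le := by
    rw [hf0', rd_eq_iff, Valuation.map_sub_swap]; exact har
  have hmain := hF (O ⧸ P) h2F V' rfl rfl hΔ κ (rd w e1 he1) (rd w e2 he2) (rd w e3 he3) hcV3 H
    (Ideal.Quotient.mk P ar) (by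
      intro h
      have h1 : f0 ar = 0 := by rw [← hFKm, h, map_zero]
      rw [hf0r, rd_zero_iff, hr'1] at h1
      exact lt_irrefl _ h1) (by
      rw [hHe e1 hz1 he1, hHe e2 hz2 he2, hHe e3 hz3 he3, hFKm, hf0r]
      have h3 : (⟨η e1, (hη1 e1 hz1).le⟩ * ⟨η e2, (hη1 e2 hz2).le⟩ * ⟨η e3, (hη1 e3 hz3).le⟩ :
          w.valuationSubring) = ⟨algebraMap L Ω' r', hr'1.le⟩ ^ 2 := Subtype.ext hr'2
      unfold rd
      rw [← map_mul, ← map_mul, h3, map_pow])
  have hwroot : ∀ e, cub V e = 0 → w e ≤ 1 := fun e he => hse e ((hms e).2 he)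
  have hrk : ∀ (e : Ω') (he : cub V e = 0), cub V' (rd w e (hwroot e he)) = 0 := by
    intro e he
    rw [hcV3]
    rcases (hroot e).1 he with rfl | rfl | rfl
    · rw [sub_self]; ring
    · rw [sub_self]; ring
    · rw [sub_self]; ring
  -- the square classes
  have key : ∀ (e : Ω') (he : cub V e = 0) (S : O[X]) (D : Ω') (hD : w D = 1),
      (∀ σ : Ω' ≃ₐ[L] Ω', σ e = e → σ D = D) →
      aeval (rd w e (hwroot e he)) H =
        (aeval (rd w e (hwroot e he)) (S.map (Ideal.Quotient.mk P))) ^ 2 * rd w D hD.le →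
      ∃ y : Ω', (∀ σ : Ω' ≃ₐ[L] Ω', σ e = e → σ y = y) ∧ ζ e = y ^ 2 * D := by
    intro e he S D hD hDσ hS
    obtain ⟨Se, hSe, hSe1, hSeσ⟩ := hEv S e (hwroot e he)
    rw [hHe e he, hSe1] at hS
    have hD0 : D ≠ 0 := by
      rintro rfl
      rw [map_zero] at hD
      exact zero_ne_one hD
    have hw1 : w (Se ^ 2 * D) ≤ 1 := by
      rw [map_mul, map_pow, hD, mul_one]
      exact pow_le_one₀ zero_le hSe
    have hS' : rd w (η e) (hη1 e he).le = rd w (Se ^ 2 * D) hw1 := by
      rw [hS]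
      unfold rd
      rw [← map_pow, ← map_mul]
      rfl
    rw [rd_eq_iff] at hS'
    have hwS : w Se = 1 := by
      have h1 : w (Se ^ 2 * D) = 1 := by
        have h3 : Se ^ 2 * D = η e - (η e - Se ^ 2 * D) := by ring
        rw [h3, Valuation.map_sub_eq_of_lt_left _ (by rw [hη1 e he]; exact hS'), hη1 e he]
      rw [map_mul, hD, mul_one, map_pow] at h1
      exact (pow_eq_one_iff_of_nonneg zero_le two_ne_zero).1 h1
    have hu : w (η e / D - Se ^ 2) < 1 := by
      have h3 : η e / D - Se ^ 2 = (η e - Se ^ 2 * D) / D := by field_simp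
      rw [h3, map_div₀, hD, div_one]
      exact hS'
    obtain ⟨y, hy, -, hyσ⟩ := sqrt_fix (L := L) w hσ h2 hwS hu
    refine ⟨q e * y, fun σ hσe => ?_, ?_⟩
    · rw [map_mul, hqσ, hyσ σ ?_ (hSeσ σ hσe)]
      rw [map_div₀, hησ σ e he, hσe, hDσ σ hσe]
    · rw [hζη e he, mul_pow, hy]
      field_simp
  rcases hmain with hleft | ⟨x, y, hxy, hall⟩
  · left
    intro e he
    obtain ⟨t, ht⟩ := hleft _ (hrk e he)
    obtain ⟨S, rfl⟩ := hlift t
    obtain ⟨y, hyσ, hy⟩ := key e he S 1 (map_one _) (fun σ _ => map_one _) (by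
      rw [ht]
      have : rd w (1 : Ω') (map_one w).le = 1 := map_one ρ
      rw [this, mul_one])
    exact ⟨y, hyσ, by rw [hy, mul_one]⟩
  · right
    obtain ⟨X0, rfl⟩ := Ideal.Quotient.mk_surjective x
    obtain ⟨Y0, rfl⟩ := Ideal.Quotient.mk_surjective y
    -- the residue of the abscissa
    have hX0 : w (algebraMap L Ω' (j X0)) ≤ 1 := hj X0
    have hxk : algebraMap (O ⧸ P) κ (Ideal.Quotient.mk P X0) = rd w (algebraMap L Ω' (j X0)) hX0 :=
      rfl
    have hyk : algebraMap (O ⧸ P) κ (Ideal.Quotient.mk P Y0) =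
      rd w (algebraMap L Ω' (j Y0)) (hj Y0) := rfl
    have hcubk : algebraMap (O ⧸ P) κ (cub V' (Ideal.Quotient.mk P X0)) =
        cub V' (algebraMap (O ⧸ P) κ (Ideal.Quotient.mk P X0)) := by
      rw [hcVF, hcV]
      simp only [map_add, map_mul, map_pow, map_intCast]
    have hcubw : w (cub V (algebraMap L Ω' (j X0))) ≤ 1 := by
      rw [hcub]
      have m : ∀ {p q : Ω'}, w p ≤ 1 → w q ≤ 1 → w (p * q) ≤ 1 := fun hp hq => by
        rw [map_mul]; exact mul_le_one' hp hq
      have ad : ∀ {p q : Ω'}, w p ≤ 1 → w q ≤ 1 → w (p + q) ≤ 1 := fun hp hq =>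
        (Valuation.map_add _ _ _).trans (max_le hp hq)
      have pw : ∀ {p : Ω'} (n : ℕ), w p ≤ 1 → w (p ^ n) ≤ 1 := fun n hp => by
        rw [map_pow]; exact pow_le_one₀ zero_le hp
      exact ad (ad (ad (pw 3 hX0) (m (int_le w a) (pw 2 hX0))) (m (int_le w b) hX0)) (int_le w c)
    have hcubr : rd w (cub V (algebraMap L Ω' (j X0))) hcubw =
        cub V' (rd w (algebraMap L Ω' (j X0)) hX0) := by
      rw [hcV]
      have h3 : (⟨cub V (algebraMap L Ω' (j X0)), hcubw⟩ : w.valuationSubring) =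
          ⟨algebraMap L Ω' (j X0), hX0⟩ ^ 3 + (a : w.valuationSubring) *
          ⟨algebraMap L Ω' (j X0), hX0⟩ ^ 2 + (b : w.valuationSubring) *
          ⟨algebraMap L Ω' (j X0), hX0⟩ + (c : w.valuationSubring) := by
        apply Subtype.ext
        push_cast
        exact hcub _
      unfold rd
      rw [h3]
      simp only [map_add, map_mul, map_pow, map_intCast]
    by_cases hy0 : cub V' (algebraMap (O ⧸ P) κ (Ideal.Quotient.mk P X0)) = 0
    · -- a point of order two
      obtain ⟨e0, he0, he0x⟩ : ∃ (e0 : Ω') (he0 : cub V e0 = 0),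
          rd w (algebraMap L Ω' (j X0)) hX0 = rd w e0 (hwroot e0 he0) := by
        rw [hcV3, hxk, mul_eq_zero, mul_eq_zero, sub_eq_zero, sub_eq_zero, sub_eq_zero] at hy0
        rcases hy0 with (h | h) | h
        · exact ⟨e1, hz1, h⟩
        · exact ⟨e2, hz2, h⟩
        · exact ⟨e3, hz3, h⟩
      have hfix : ∀ σ : Ω' ≃ₐ[L] Ω', σ e0 = e0 := by
        intro σ
        by_contra hne
        have h1 := hsd _ ((hms _).2 (hcubσ σ e0 he0)) _ ((hms _).2 he0) hne
        rw [rd_eq_iff] at he0x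
        have h3 : w (σ e0 - algebraMap L Ω' (j X0)) < 1 := by
          have e : σ e0 - algebraMap L Ω' (j X0) = -σ (algebraMap L Ω' (j X0) - e0) := by
            rw [map_sub, σ.commutes]; ring
          rw [e, Valuation.map_neg, hσ]
          exact he0x
        have h5 : w (σ e0 - e0) < 1 := by
          have e : σ e0 - e0 = (σ e0 - algebraMap L Ω' (j X0)) + (algebraMap L Ω' (j X0) - e0) := by
            ring
          rw [e]
          exact Valuation.map_add_lt _ h3 he0x
        exact absurd h1 h5.ne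
      obtain ⟨l, hl'⟩ := mem_of_fixed hfix
      refine ⟨l, 0, ?_, fun e he => ?_⟩
      · have h1 : algebraMap L Ω' (cub V l) = 0 := by
          rw [hcub]
          simp only [map_add, map_mul, map_pow, map_intCast]
          rw [hl', ← hcub]
          exact he0
        rw [(map_eq_zero (algebraMap L Ω')).1 h1]
        ring
      · obtain ⟨t, D, hD, hor⟩ := hall _ (hrk e he)
        obtain ⟨S, rfl⟩ := hlift t
        rw [hxk, he0x] at hor
        by_cases hee : e0 = e
        · subst hee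
          have hDv : w (cub' V e0) = 1 := by
            have h7 : ∀ x : Ω', cub' V x =
                (x - e1) * (x - e2) + (x - e1) * (x - e3) + (x - e2) * (x - e3) := by
              intro x
              rw [hcub', hA, hB]; ring
            rw [h7]
            rcases (hroot e0).1 he with rfl | rfl | rfl
            · have e : (e0 - e0) * (e0 - e2) + (e0 - e0) * (e0 - e3) + (e0 - e2) * (e0 - e3) =
                  (e0 - e2) * (e0 - e3) := by ring
              rw [e, map_mul, h12, h13, one_mul]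
            · have e : (e0 - e1) * (e0 - e0) + (e0 - e1) * (e0 - e3) + (e0 - e0) * (e0 - e3) =
                  -((e1 - e0) * (e0 - e3)) := by ring
              rw [e, Valuation.map_neg, map_mul, h12, h23, one_mul]
            · have e : (e0 - e1) * (e0 - e2) + (e0 - e1) * (e0 - e0) + (e0 - e2) * (e0 - e0) =
                  (e1 - e0) * (e2 - e0) := by ring
              rw [e, map_mul, h13, h23, one_mul]
          have hDD : D = cub' V' (rd w e0 (hwroot e0 he)) := by
            rcases hor with ⟨-, h⟩ | ⟨h, -⟩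
            · exact h
            · exact absurd rfl h
          have hDr : rd w (cub' V e0) hDv.le = cub' V' (rd w e0 (hwroot e0 he)) := by
            rw [hcV']
            have h3 : (⟨cub' V e0, hDv.le⟩ : w.valuationSubring) =
                3 * ⟨e0, hwroot e0 he⟩ ^ 2 + 2 * (a : w.valuationSubring) * ⟨e0, hwroot e0 he⟩ +
                (b : w.valuationSubring) := by
              apply Subtype.ext
              push_cast
              exact hcub' _
            unfold rd
            rw [h3]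
            simp only [map_add, map_mul, map_pow, map_intCast, map_ofNat]
          obtain ⟨y, hyσ, hy⟩ := key e0 he S (cub' V e0) hDv (by
            intro σ hσe
            rw [hcub']
            simp only [map_add, map_mul, map_pow, map_intCast, map_ofNat, hσe]) (by
            rw [hD, hDD, hDr])
          exact ⟨y, cub' V e0, hyσ, hy, Or.inl ⟨hl', rfl⟩⟩
        · have hDv : w (e0 - e) = 1 := hsd _ ((hms _).2 he0) _ ((hms _).2 he) hee
          have hne := hρsub e0 e (hwroot e0 he0) (hwroot e he) hDv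
          have hDD : D = rd w e0 (hwroot e0 he0) - rd w e (hwroot e he) := by
            rcases hor with ⟨h, -⟩ | ⟨-, h⟩
            · exact absurd h hne
            · exact h
          obtain ⟨y, hyσ, hy⟩ := key e he S (e0 - e) hDv (by
            intro σ hσe
            rw [map_sub, hσe, hfix]) (by
            rw [hD, hDD, rd_sub w (hwroot e0 he0) (hwroot e he)])
          refine ⟨y, e0 - e, hyσ, hy, Or.inr ⟨?_, by rw [hl']⟩⟩
          rw [hl']
          exact hee
    · -- a point that is not of order two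
      have hY1 : w (algebraMap L Ω' (j Y0)) = 1 := by
        refine le_antisymm (hj Y0) (not_lt.1 fun h => hy0 ?_)
        have h1 : algebraMap (O ⧸ P) κ (Ideal.Quotient.mk P Y0) = 0 := by
          rw [hyk, rd_zero_iff]
          exact h
        rw [← hcubk, ← hxy, map_pow, h1]
        ring
      have hu : w (cub V (algebraMap L Ω' (j X0)) - algebraMap L Ω' (j Y0) ^ 2) < 1 := by
        have hYw : w (algebraMap L Ω' (j Y0) ^ 2) ≤ 1 := by
          rw [map_pow, hY1, one_pow]
        rw [← rd_eq_iff w hcubw hYw, hcubr, ← hxk, ← hcubk, ← hxy, map_pow, hyk]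
        unfold rd
        rw [← map_pow]
        rfl
      obtain ⟨Yb, hYb, -, hYσ⟩ := sqrt_fix (L := L) w hσ h2 hY1 hu
      obtain ⟨Yl, hYl⟩ := mem_of_fixed (L := L) (x := Yb) fun σ => hYσ σ (by
        rw [hcub]
        simp only [map_add, map_mul, map_pow, map_intCast, AlgEquiv.commutes]) (σ.commutes _)
      refine ⟨j X0, Yl, ?_, fun e he => ?_⟩
      · apply (algebraMap L Ω').injective
        rw [map_pow, hYl, hYb, hcub, hcub]
        simp only [map_add, map_mul, map_pow, map_intCast]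
      · obtain ⟨t, D, hD, hor⟩ := hall _ (hrk e he)
        obtain ⟨S, rfl⟩ := hlift t
        rw [hxk] at hor
        have hne : rd w (algebraMap L Ω' (j X0)) hX0 ≠ rd w e (hwroot e he) := by
          intro h
          apply hy0
          rw [hxk, h]
          exact hrk e he
        have hDD : D = rd w (algebraMap L Ω' (j X0)) hX0 - rd w e (hwroot e he) := by
          rcases hor with ⟨h, -⟩ | ⟨-, h⟩
          · exact absurd h hne
          · exact h
        have hDv : w (algebraMap L Ω' (j X0) - e) = 1 := by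
          refine le_antisymm ((Valuation.map_sub _ _ _).trans (max_le hX0 (hwroot e he)))
            (not_lt.1 fun h => hne ?_)
          rw [rd_eq_iff]
          exact h
        obtain ⟨y, hyσ, hy⟩ := key e he S (algebraMap L Ω' (j X0) - e) hDv (by
          intro σ hσe
          rw [map_sub, hσe, σ.commutes]) (by
          rw [hD, hDD, rd_sub w hX0 (hwroot e he)])
        refine ⟨y, algebraMap L Ω' (j X0) - e, hyσ, hy, Or.inr ⟨?_, rfl⟩⟩
        intro h
        rw [h, sub_self, map_zero] at hDv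
        exact zero_ne_one hDv

end main

end Pool.Agent.R425
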