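import Pool.Agent.R425.Pe
import Pool.Agent.R425.Lz
import Pool.Agent.R425.Av
import Pool.Agent.R425.Kc
import Pool.Agent.Y500.G.FLM

/-!
# The local conditions at the finite places
-/

set_option autoImplicit false
set_option linter.all false

open scoped NNReal

namespace Pool.Agent.R425

open Pool.Agent.TH115.GD
open Pool.Agent.Y702 (W2 tht)
open Pool.Agent.Y710.CV (Cond cond1 cond2)

/-- the function on the roots -/
def zt {F : Type} [Field F] (z : ℤ × ℤ × ℤ) (e : F) : F := ev (pe e) z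

theorem zt_map {F F' : Type} [Field F] [Field F'] [Algebra ℚ F] [Algebra ℚ F'] (φ : F →+* F')
    (z : ℤ × ℤ × ℤ) (e : F) : φ (zt z e) = zt z (φ e) := by
  unfold zt
  rw [ev_map, pe_map]

section

variable {L Ω' : Type} [Field L] [Field Ω'] [Algebra L Ω'] [Algebra ℚ L] [Algebra ℚ Ω']

variable (L Ω') in
/-- The local condition in terms of a function on the roots. -/
def LC (ζ : Ω' → Ω') : Prop :=
  (∀ e : Ω', cub W2 e = 0 → ∃ y : Ω', (∀ σ : Ω' ≃ₐ[L] Ω', σ e = e → σ y = y) ∧ ζ e = y ^ 2) ∨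
    ∃ X Y : L, Y ^ 2 = cub W2 X ∧ ∀ e : Ω', cub W2 e = 0 → ∃ y D : Ω',
      (∀ σ : Ω' ≃ₐ[L] Ω', σ e = e → σ y = y) ∧ ζ e = y ^ 2 * D ∧
      ((algebraMap L Ω' X = e ∧ D = cub' W2 e) ∨
        (algebraMap L Ω' X ≠ e ∧ D = algebraMap L Ω' X - e))

theorem LC.cond [IsScalarTower ℚ L Ω'] {A : Type} [Field A] [Algebra ℚ A] {π : A}
    (hπ : π ^ 3 - 4 * π ^ 2 + 6 * π - 2 = 0) {z : ℤ × ℤ × ℤ} (h : LC L Ω' (zt z)) :
    Cond L Ω' W2 (tht π) (ev π z) := by
  have hcub : cub W2 (tht π) = 0 := by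
    rw [cub_W2]
    unfold tht
    linear_combination (216 * π ^ 3 - 1944 * π ^ 2 + 5976 * π - 6536) * hπ
  have hpe : pe (tht π) = π := by
    haveI : CharZero A := algebraRat.charZero A
    unfold pe tht
    rw [div_eq_iff ne484]
    linear_combination (108 * π - 504) * hπ
  have h1 : ∀ φ : A →+* Ω', cub W2 (φ (tht π)) = 0 := by
    intro φ
    have := congrArg φ hcub
    rw [cub_W2] at this ⊢
    simpa only [map_sub, map_mul, map_pow, map_ofNat, map_zero] using this
  have h2 : ∀ φ : A →+* Ω', φ (ev π z) = zt z (φ (tht π)) := by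
    intro φ
    unfold zt
    rw [← pe_map, hpe, ev_map]
  rcases h with h | ⟨X, Y, hXY, h⟩
  · refine cond1 fun φ => ?_
    obtain ⟨y, hy, he⟩ := h _ (h1 φ)
    exact ⟨y, hy, by rw [h2, he]⟩
  · refine cond2 rfl rfl Pool.Agent.Y809.BS.W2_disc hXY fun φ => ?_
    obtain ⟨y, D, hy, he, hD⟩ := h _ (h1 φ)
    exact ⟨y, D, hy, by rw [h2, he], hD⟩

end

theorem lt_of_lt_of_le' {x y : ℝ≥0} (hx : x < 1) (hy : y ≤ 1) : x * y < 1 :=
  mul_lt_one_of_nonneg_of_lt_one_left zero_le hx hy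

theorem lt_of_le_of_lt' {x y : ℝ≥0} (hx : x ≤ 1) (hy : y < 1) : x * y < 1 := by
  rw [mul_comm]
  exact lt_of_lt_of_le' hy hx

section val

variable {Ω' : Type} [Field Ω'] (w : Valuation Ω' ℝ≥0)

theorem w_int (n : ℤ) : w (n : Ω') ≤ 1 := int_le w n

theorem w_nat_lt {k : ℕ} (hk : w ((k : ℕ) : Ω') < 1) {n : ℤ} (h : (k : ℤ) ∣ n) :
    w ((n : ℤ) : Ω') < 1 := by
  obtain ⟨m, rfl⟩ := h
  push_cast
  rw [map_mul]
  exact lt_of_lt_of_le' hk (w_int w m)

/-- an integer prime to `k` is a unit at a place over `k` -/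
theorem w_unit {k : ℕ} (hk : w ((k : ℕ) : Ω') < 1) {n : ℤ} (h : IsCoprime (k : ℤ) n) :
    w ((n : ℤ) : Ω') = 1 := by
  obtain ⟨a, b, hab⟩ := h
  apply le_antisymm (w_int w n)
  by_contra hlt
  rw [not_le] at hlt
  have h1 : w ((1 : ℤ) : Ω') < 1 := by
    rw [← hab]
    push_cast
    refine lt_of_le_of_lt (Valuation.map_add _ _ _) (max_lt ?_ ?_)
    · rw [map_mul]
      exact lt_of_le_of_lt' (w_int w a) hk
    · rw [map_mul]
      exact lt_of_le_of_lt' (w_int w b) hlt
  rw [Int.cast_one, map_one] at h1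
  exact lt_irrefl _ h1

theorem w_pe {p : Ω'} (hp : p ^ 3 - 4 * p ^ 2 + 6 * p - 2 = 0) : w p ≤ 1 := by
  by_contra h
  rw [not_le] at h
  have h1 : p ^ 3 = 4 * p ^ 2 - 6 * p + 2 := by linear_combination hp
  have h2 : w (4 * p ^ 2 - 6 * p + 2) ≤ w p ^ 2 := by
    have i4 : w (4 : Ω') ≤ 1 := by exact_mod_cast w_int w 4
    have i6 : w (6 : Ω') ≤ 1 := by exact_mod_cast w_int w 6
    have i2 : w (2 : Ω') ≤ 1 := by exact_mod_cast w_int w 2
    have hp1 : w p ≤ w p ^ 2 := by
      rw [pow_two]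
      exact le_mul_of_one_le_left' h.le
    have hp2 : 1 ≤ w p ^ 2 := h.le.trans hp1
    refine (Valuation.map_add _ _ _).trans (max_le ((Valuation.map_sub _ _ _).trans
      (max_le ?_ ?_)) ?_)
    · rw [map_mul, map_pow]
      exact mul_le_of_le_one_left' i4
    · rw [map_mul]
      exact (mul_le_of_le_one_left' i6).trans hp1
    · exact i2.trans hp2
  rw [← h1, map_pow] at h2
  have h3 : w p ^ 2 < w p ^ 3 := pow_lt_pow_right₀ h (by norm_num)
  exact absurd h2 (not_le.2 h3)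

theorem w_ev {p : Ω'} (hp : w p ≤ 1) (a : ℤ × ℤ × ℤ) : w (ev p a) ≤ 1 := by
  unfold ev
  refine (Valuation.map_add _ _ _).trans (max_le ((Valuation.map_add _ _ _).trans
      (max_le ?_ ?_)) ?_)
  · exact w_int w _
  · rw [map_mul]
    exact mul_le_one' (w_int w _) hp
  · rw [map_mul, map_pow]
    exact mul_le_one' (w_int w _) (pow_le_one' hp 2)

theorem w_ev_sub {p p' : Ω'} (hp : w p ≤ 1) (hp' : w p' ≤ 1) (h : w (p - p') < 1)
    (a : ℤ × ℤ × ℤ) : w (ev p a - ev p' a) < 1 := by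
  have e : ev p a - ev p' a = (p - p') * ((a.2.1 : Ω') + a.2.2 * (p + p')) := by
    unfold ev
    ring
  rw [e, map_mul]
  refine lt_of_lt_of_le' h ((Valuation.map_add _ _ _).trans (max_le (w_int w _) ?_))
  rw [map_mul]
  exact mul_le_one' (w_int w _) ((Valuation.map_add _ _ _).trans (max_le hp hp'))

theorem w_eq_one_of {x y : Ω'} (hy : w y = 1) (h : w (x - y) < 1) : w x = 1 := by
  have : x = y + (x - y) := by ring
  rw [this, Valuation.map_add_eq_of_lt_left _ (by rwa [hy])]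
  exact hy

variable {L : Type} [Field L] [Algebra L Ω'] [IsAlgClosed Ω'] [IsGalois L Ω']
  [Algebra ℚ L] [Algebra ℚ Ω'] [IsScalarTower ℚ L Ω']
  (hσw : ∀ (σ : Ω' ≃ₐ[L] Ω') (x : Ω'), w (σ x) = w x)

include hσw in
/-- the place is over two -/
theorem lc_two (h2 : w (2 : Ω') < 1) {z s t : ℤ × ℤ × ℤ} {d : Bool} (hs : Odd s.1)
    (hz : z = ((mu (mu s s) (dd d)).1 + 8 * t.1, (mu (mu s s) (dd d)).2.1 + 8 * t.2.1,
        (mu (mu s s) (dd d)).2.2 + 8 * t.2.2)) : LC L Ω' (zt z) := by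
  haveI : CharZero Ω' := algebraRat.charZero Ω'
  have h2' : w ((2 : ℕ) : Ω') < 1 := by exact_mod_cast h2
  -- the value
  have key : ∀ e : Ω', cub W2 e = 0 → ∃ y : Ω', (∀ σ : Ω' ≃ₐ[L] Ω', σ e = e → σ y = y) ∧
      zt z e = y ^ 2 * (if d then 5 - e else 1) := by
    intro e he
    set p := pe e with hp
    have hf : p ^ 3 - 4 * p ^ 2 + 6 * p - 2 = 0 := pe_root he
    have hp1 : w p ≤ 1 := w_pe w hf
    have hplt : w p < 1 := by
      have h3 : p ^ 3 = 2 * (2 * p ^ 2 - 3 * p + 1) := by linear_combination hf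
      have h4 : w p ^ 3 < 1 := by
        rw [← map_pow, h3, map_mul]
        refine lt_of_lt_of_le' h2 ?_
        have := w_ev w hp1 (1, -3, 2)
        have e1 : ev p ((1 : ℤ), (-3 : ℤ), (2 : ℤ)) = 2 * p ^ 2 - 3 * p + 1 := by
          simp only [ev]; push_cast; ring
        rwa [e1] at this
      by_contra hcon
      rw [not_lt] at hcon
      exact absurd h4 (not_lt.2 (one_le_pow_of_one_le' hcon 3))
    have unit : ∀ a : ℤ × ℤ × ℤ, Odd a.1 → w (ev p a) = 1 := by
      intro a ha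
      have h3 : w ((a.1 : ℤ) : Ω') = 1 := by
        apply w_unit w h2'
        rw [show ((2 : ℕ) : ℤ) = 2 from rfl]
        obtain ⟨k, hk⟩ := ha
        exact ⟨-k, 1, by rw [hk]; ring⟩
      apply w_eq_one_of w h3
      have e1 : ev p a - (a.1 : Ω') = p * ((a.2.1 : Ω') + a.2.2 * p) := by
        unfold ev; ring
      rw [e1, map_mul]
      refine lt_of_lt_of_le' hplt ((Valuation.map_add _ _ _).trans (max_le (w_int w _) ?_))
      rw [map_mul]
      exact mul_le_one' (w_int w _) hp1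
    have hS := unit s hs
    have hD : w (ev p (dd d)) = 1 := unit _ (by cases d <;> simp only [dd] <;> decide)
    have hDe : ev p (dd d) = if d then 5 - e else 1 := by
      have h3 := tht_pe he
      rw [← hp] at h3
      cases d
      · simp [dd, ev]
      · simp only [dd, ev, if_true]
        push_cast
        linear_combination -h3
    have hS0 : ev p s ≠ 0 := by
      intro h
      rw [h, map_zero] at hS
      exact zero_ne_one hS
    have hD0 : ev p (dd d) ≠ 0 := by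
      intro h
      rw [h, map_zero] at hD
      exact zero_ne_one hD
    set S := ev p s with hSd
    set D := ev p (dd d) with hDd
    have hzv : zt z e = S ^ 2 * D + 8 * ev p t := by
      have e1 : zt z e = ev p z := rfl
      have e2 : ev p z = ev p (mu (mu s s) (dd d)) + 8 * ev p t := by
        rw [hz]
        simp only [ev]
        push_cast
        ring
      rw [e1, e2, ev_mu hf, ev_mu hf]
      ring
    set t' := 2 * ev p t / (S ^ 2 * D) with ht'
    have hSD : w (S ^ 2 * D) = 1 := by rw [map_mul, map_pow, hS, hD]; simp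
    have hSD0 : S ^ 2 * D ≠ 0 := mul_ne_zero (pow_ne_zero 2 hS0) hD0
    have hwt : w t' < 1 := by
      rw [ht', map_div₀, hSD, div_one, map_mul]
      exact lt_of_lt_of_le' h2 (w_ev w hp1 t)
    obtain ⟨y, hy, hyσ⟩ := sqrt_fix4 (L := L) w hσw (u := 1 + 4 * t') rfl hwt h2.le
    have hσp : ∀ σ : Ω' ≃ₐ[L] Ω', σ e = e → σ p = p := by
      intro σ hσ
      have h3 := pe_map (σ : Ω' →+* Ω') e
      have h4 : σ (pe e) = pe (σ e) := h3
      rw [hσ] at h4
      exact h4
    have hσev : ∀ (σ : Ω' ≃ₐ[L] Ω') (a : ℤ × ℤ × ℤ), σ e = e → σ (ev p a) = ev p a := by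
      intro σ a hσ
      have h3 : σ (ev p a) = ev (σ p) a := ev_map (σ : Ω' →+* Ω') p a
      rw [h3, hσp σ hσ]
    refine ⟨S * y, fun σ hσ => ?_, ?_⟩
    · have h3 : σ t' = t' := by
        rw [ht', map_div₀, map_mul, map_mul, map_pow, hσev σ t hσ, hSd, hDd, hσev σ s hσ,
          hσev σ (dd d) hσ, map_ofNat]
      rw [map_mul, hSd, hσev σ s hσ, hyσ σ h3]
    · rw [← hDe, mul_pow, hy, hzv, ht']
      field_simp
      ring
  cases d
  · left
    intro e he
    obtain ⟨y, hy, h⟩ := key e he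
    refine ⟨y, hy, ?_⟩
    rw [h]
    simp
  · right
    have ht2 : w ((-510 : ℤ) : Ω') < 1 := w_nat_lt w h2' ⟨-255, by norm_num⟩
    obtain ⟨y, hy, hyσ⟩ := sqrt_fix4 (L := L) w hσw (u := -2039) (t := ((-510 : ℤ) : Ω'))
      (by push_cast; norm_num) ht2 h2.le
    obtain ⟨Y, hY⟩ := mem_of_fixed (L := L) (x := y) fun σ => hyσ σ (map_intCast σ _)
    refine ⟨5, Y, ?_, fun e he => ?_⟩
    · apply (algebraMap L Ω').injective
      rw [map_pow, hY, hy, cub_W2]
      simp only [map_sub, map_mul, map_pow, map_ofNat]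
      norm_num
    · obtain ⟨y', hy', h⟩ := key e he
      refine ⟨y', 5 - e, hy', by rw [h]; simp, Or.inr ⟨?_, ?_⟩⟩
      · rw [map_ofNat]
        rintro rfl
        rw [cub_W2] at he
        norm_num at he
      · rw [map_ofNat]

include hσw in
/-- the place is over eleven -/
theorem lc_eleven (h11 : w (11 : Ω') < 1) {z : ℤ × ℤ × ℤ} {N : ℤ} (hz : nm z = N ^ 2)
    (hN : ¬ (11 : ℤ) ∣ N) : LC L Ω' (zt z) := by
  haveI : CharZero Ω' := algebraRat.charZero Ω'
  have h11' : w ((11 : ℕ) : Ω') < 1 := by exact_mod_cast h11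
  have hcop : ∀ n : ℤ, ¬ (11 : ℤ) ∣ n → IsCoprime (((11 : ℕ) : ℤ)) n := by
    intro n hn
    have hp : Prime (11 : ℤ) := by norm_num
    exact (hp.coprime_iff_not_dvd).2 hn
  have h2 : w (2 : Ω') = 1 := by
    have := w_unit w h11' (hcop 2 (by norm_num))
    exact_mod_cast this
  obtain ⟨d, hd⟩ := eleven_cls z N hz hN
  have key : ∀ e : Ω', cub W2 e = 0 → ∃ y : Ω', (∀ σ : Ω' ≃ₐ[L] Ω', σ e = e → σ y = y) ∧
      zt z e = y ^ 2 * (if d then 0 - e else 1) := by
    intro e he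
    set p := pe e with hp
    have hf : p ^ 3 - 4 * p ^ 2 + 6 * p - 2 = 0 := pe_root he
    have hp1 : w p ≤ 1 := w_pe w hf
    obtain ⟨r, hr, hpr⟩ : ∃ r : ℤ, (r = 4 ∨ r = 7) ∧ w (p - r) < 1 := by
      have h3 : (p - 4) ^ 2 * (p - 7) = 11 * (-(p ^ 2 - 6 * p + 10)) := by
        linear_combination hf
      have h4 : w ((p - 4) ^ 2 * (p - 7)) < 1 := by
        rw [h3, map_mul]
        refine lt_of_lt_of_le' h11 ?_
        have := w_ev w hp1 (-10, 6, -1)
        have e1 : ev p ((-10 : ℤ), (6 : ℤ), (-1 : ℤ)) = -(p ^ 2 - 6 * p + 10) := by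
          simp only [ev]; push_cast; ring
        rwa [e1] at this
      by_cases h5 : w (p - 4) < 1
      · exact ⟨4, Or.inl rfl, by exact_mod_cast h5⟩
      · refine ⟨7, Or.inr rfl, ?_⟩
        have h6 : w (p - 4) = 1 := by
          apply le_antisymm _ (not_lt.1 h5)
          have := w_ev w hp1 (-4, 1, 0)
          have e1 : ev p ((-4 : ℤ), (1 : ℤ), (0 : ℤ)) = p - 4 := by
            simp only [ev]; push_cast; ring
          rwa [e1] at this
        rw [map_mul, map_pow, h6, one_pow, one_mul] at h4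
        exact_mod_cast h4
    obtain ⟨m, hm, hmd⟩ := hd r hr
    have hwm : w ((m : ℤ) : Ω') = 1 := w_unit w h11' (hcop m hm)
    -- the divisor
    set Dt : ℤ × ℤ × ℤ := if d then (-28, 26, -6) else (1, 0, 0) with hDt
    have hDe : ev p Dt = if d then 0 - e else 1 := by
      have h3 := tht_pe he
      rw [← hp] at h3
      cases d
      · simp [hDt, ev]
      · simp only [hDt, ev, if_true]
        push_cast
        linear_combination -h3
    have hDr : w (((ev r Dt : ℤ)) : Ω') = 1 := by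
      apply w_unit w h11'
      apply hcop
      rcases hr with rfl | rfl <;> cases d <;> simp only [hDt, ev] <;> norm_num
    have hr1 : w ((r : ℤ) : Ω') ≤ 1 := w_int w r
    have cast_ev : ∀ a : ℤ × ℤ × ℤ, (((ev r a : ℤ)) : Ω') = ev ((r : ℤ) : Ω') a := by
      intro a
      simp only [ev]
      push_cast
      rfl
    have hD1 : w (ev p Dt) = 1 := by
      apply w_eq_one_of w hDr
      rw [cast_ev]
      exact w_ev_sub w hp1 hr1 hpr Dt
    have hD0 : ev p Dt ≠ 0 := by
      intro h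
      rw [h, map_zero] at hD1
      exact zero_ne_one hD1
    have hval : w (ev p z - (m : Ω') ^ 2 * ev p Dt) < 1 := by
      have h3 := w_ev_sub w hp1 hr1 hpr z
      have h4 := w_ev_sub w hp1 hr1 hpr Dt
      have h5 : w (((ev r z - m ^ 2 * (if d then -(28 - 26 * r + 6 * r ^ 2) else 1) : ℤ)) : Ω') < 1 :=
        w_nat_lt w h11' hmd
      have h6 : (if d then -(28 - 26 * r + 6 * r ^ 2) else 1 : ℤ) = ev r Dt := by
        cases d
        · simp [hDt, ev]
        · simp only [hDt, ev, if_true]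
          push_cast
          ring
      rw [h6] at h5
      push_cast at h5
      rw [cast_ev, cast_ev] at h5
      have e1 : ev p z - (m : Ω') ^ 2 * ev p Dt = (ev p z - ev ((r : ℤ) : Ω') z) +
          ((ev ((r : ℤ) : Ω') z - (m : Ω') ^ 2 * ev ((r : ℤ) : Ω') Dt) -
            (m : Ω') ^ 2 * (ev p Dt - ev ((r : ℤ) : Ω') Dt)) := by ring
      rw [e1]
      refine lt_of_le_of_lt (Valuation.map_add _ _ _) (max_lt h3
        (lt_of_le_of_lt (Valuation.map_sub _ _ _) (max_lt h5 ?_)))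
      rw [map_mul, map_pow, hwm, one_pow, one_mul]
      exact h4
    set u := ev p z / ev p Dt with hu
    have hwu : w (u - (m : Ω') ^ 2) < 1 := by
      have e1 : u - (m : Ω') ^ 2 = (ev p z - (m : Ω') ^ 2 * ev p Dt) / ev p Dt := by
        rw [hu]
        field_simp
      rw [e1, map_div₀, hD1, div_one]
      exact hval
    obtain ⟨y, hy, -, hyσ⟩ := sqrt_fix (L := L) w hσw h2 hwm hwu
    have hσp : ∀ σ : Ω' ≃ₐ[L] Ω', σ e = e → σ p = p := by
      intro σ hσ
      have h3 := pe_map (σ : Ω' →+* Ω') e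
      have h4 : σ (pe e) = pe (σ e) := h3
      rw [hσ] at h4
      exact h4
    have hσev : ∀ (σ : Ω' ≃ₐ[L] Ω') (a : ℤ × ℤ × ℤ), σ e = e → σ (ev p a) = ev p a := by
      intro σ a hσ
      have h3 : σ (ev p a) = ev (σ p) a := ev_map (σ : Ω' →+* Ω') p a
      rw [h3, hσp σ hσ]
    refine ⟨y, fun σ hσ => hyσ σ ?_ (map_intCast σ _), ?_⟩
    · rw [hu, map_div₀, hσev σ _ hσ, hσev σ _ hσ]
    · rw [hy, ← hDe, hu]
      have e1 : zt z e = ev p z := rfl
      rw [e1]
      field_simp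
  cases hdd : d
  · left
    intro e he
    obtain ⟨y, hy, h⟩ := key e he
    refine ⟨y, hy, ?_⟩
    rw [h, hdd]
    simp
  · right
    have hw : w ((-1264 : Ω') - 1 ^ 2) < 1 := by
      have e1 : (-1264 : Ω') - 1 ^ 2 = ((-1265 : ℤ) : Ω') := by push_cast; norm_num
      rw [e1]
      exact w_nat_lt w h11' ⟨-115, by norm_num⟩
    obtain ⟨y, hy, -, hyσ⟩ := sqrt_fix (L := L) w hσw h2 (map_one w) hw
    obtain ⟨Y, hY⟩ := mem_of_fixed (L := L) (x := y) fun σ => hyσ σ (by
      rw [map_neg, map_ofNat]) (map_one σ)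
    refine ⟨0, Y, ?_, fun e he => ?_⟩
    · apply (algebraMap L Ω').injective
      rw [map_pow, hY, hy, cub_W2]
      simp only [map_sub, map_mul, map_pow, map_ofNat, map_zero]
      norm_num
    · obtain ⟨y', hy', h⟩ := key e he
      refine ⟨y', 0 - e, hy', by rw [h, hdd]; simp, Or.inr ⟨?_, ?_⟩⟩
      · rw [map_zero]
        rintro rfl
        rw [cub_W2] at he
        norm_num at he
      · rw [map_zero]

end val

end Pool.Agent.R425
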