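import Pool.Agent.R425.LocF

/-!
# The local conditions at the good places
-/

set_option autoImplicit false
set_option linter.all false

open scoped NNReal
open NumberField IsDedekindDomain

namespace Pool.Agent.R425

open Pool.Agent.TH115.GD
open Pool.Agent.Y702 (W2 tht)

section val

variable {L Ω' : Type} [Field L] [Field Ω'] [Algebra L Ω'] [IsAlgClosed Ω'] [IsGalois L Ω']
  [Algebra ℚ L] [Algebra ℚ Ω'] [IsScalarTower ℚ L Ω'] (w : Valuation Ω' ℝ≥0)

theorem w_e {e : Ω'} (he : cub W2 e = 0) : w e ≤ 1 := by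
  rw [← tht_pe he]
  have := w_ev w (w_pe w (pe_root he)) (28, -26, 6)
  have e1 : ev (pe e) ((28 : ℤ), (-26 : ℤ), (6 : ℤ)) = 28 - 26 * pe e + 6 * (pe e) ^ 2 := by
    simp only [ev]; push_cast; ring
  rwa [e1] at this

theorem one_of_mul {x y : ℝ≥0} (hx : x ≤ 1) (hy : y ≤ 1) (h : x * y = 1) : x = 1 := by
  apply le_antisymm hx
  rw [← h]
  exact mul_le_of_le_one_right' hy

theorem w_sub_one {e1 e2 e3 : Ω'} (hC : IsC (W2.baseChange Ω').toAffine e1 e2 e3)
    (h2w : w (2 : Ω') = 1) (h11w : w (11 : Ω') = 1) : w (e1 - e2) = 1 ∧ w (e1 - e3) = 1 ∧ w (e2 - e3) = 1 := by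
  have hd := disc_prod hC
  have h1 := w_e w hC.root_a
  have h2 := w_e w hC.root_b
  have h3 := w_e w hC.root_c
  have d12 : w (e1 - e2) ≤ 1 := (Valuation.map_sub _ _ _).trans (max_le h1 h2)
  have d13 : w (e1 - e3) ≤ 1 := (Valuation.map_sub _ _ _).trans (max_le h1 h3)
  have d23 : w (e2 - e3) ≤ 1 := (Valuation.map_sub _ _ _).trans (max_le h2 h3)
  have p12 := pow_le_one' d12 2
  have p13 := pow_le_one' d13 2
  have p23 := pow_le_one' d23 2
  -- the discriminant is a unit
  have hu : w (-41229056 : Ω') = 1 := by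
    have e : (-41229056 : Ω') = -(2 ^ 8 * 11 ^ 5) := by norm_num
    rw [e, Valuation.map_neg, map_mul, map_pow, map_pow, h2w, h11w, one_pow, one_pow, one_mul]
  have hprod := congrArg w hd
  rw [hu, map_mul, map_mul, map_pow, map_pow, map_pow] at hprod
  have q23 : w (e2 - e3) ^ 2 = 1 := by
    rw [mul_comm] at hprod
    exact one_of_mul p23 (mul_le_one' p12 p13) hprod
  have q1213 : w (e1 - e2) ^ 2 * w (e1 - e3) ^ 2 = 1 := by
    rw [q23, mul_one] at hprod
    exact hprod
  have q12 := one_of_mul p12 p13 q1213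
  have q13 : w (e1 - e3) ^ 2 = 1 := by
    rw [q12, one_mul] at q1213
    exact q1213
  have sq1 : ∀ x : ℝ≥0, x ^ 2 = 1 → x = 1 := fun x hx =>
    (pow_eq_one_iff_of_nonneg zero_le (by norm_num)).1 hx
  exact ⟨sq1 _ q12, sq1 _ q13, sq1 _ q23⟩

/-- a good place -/
theorem lc_good {O : Type} [CommRing O] (P : Ideal O) [hP : P.IsMaximal] [hfin : Finite (O ⧸ P)]
    (j : O →+* L) (hσ : ∀ (σ : Ω' ≃ₐ[L] Ω') (x : Ω'), w (σ x) = w x)
    (hj : ∀ a, w (algebraMap L Ω' (j a)) ≤ 1)
    (hjP : ∀ a, w (algebraMap L Ω' (j a)) < 1 ↔ a ∈ P)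
    (happ : ∀ x : L, w (algebraMap L Ω' x) ≤ 1 →
      ∃ a : O, w (algebraMap L Ω' x - algebraMap L Ω' (j a)) < 1)
    (h2 : w (2 : Ω') = 1) (h11 : w (11 : Ω') = 1) {z : ℤ × ℤ × ℤ} {N : ℤ} (hz : nm z = N ^ 2)
    (hev : ∀ e : Ω', cub W2 e = 0 → ∃ s : L, s ≠ 0 ∧ w (zt z e) = w (algebraMap L Ω' s) ^ 2) :
    LC L Ω' (zt z) := by
  haveI : CharZero Ω' := algebraRat.charZero Ω'
  obtain ⟨e1, e2, e3, hC⟩ := Pool.Agent.Y809.BS.W2_roots Ω'
  obtain ⟨h12, h13, h23⟩ := w_sub_one w hC h2 h11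
  refine lz P j w hσ hj hjP happ Pool.Agent.Y500.G.s_fl h2 (V := W2) (a := -4) (b := -160)
    (c := -1264) ?_ ?_ (e1 := e1) (e2 := e2) (e3 := e3) hC.cub_eq (w_e w hC.root_a)
    (w_e w hC.root_b) (w_e w hC.root_c) h12 h13 h23 (zt z) ?_ hev (N : L) ?_
  · intro F _ _ x
    rw [cub_W2]
    push_cast
    ring
  · intro F _ _ x
    rw [cub'_W2]
    push_cast
    ring
  · intro σ e _
    exact zt_map (σ : Ω' →+* Ω') z e
  · obtain ⟨v1, v2, v3⟩ := pe_vieta hC
    have h := nm_eq_prod v1 v2 v3 z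
    show ev (pe e1) z * ev (pe e2) z * ev (pe e3) z = _
    rw [← h, hz, map_intCast]
    push_cast
    ring

/-- the valuation at a place that does not divide the norm -/
theorem hev_one {z : ℤ × ℤ × ℤ} {N : ℤ} (hz : nm z = N ^ 2) (hN : w ((N : ℤ) : Ω') = 1)
    {e : Ω'} (he : cub W2 e = 0) : w (zt z e) = 1 := by
  haveI : CharZero Ω' := algebraRat.charZero Ω'
  obtain ⟨a, b, c, hC0⟩ := Pool.Agent.Y809.BS.W2_roots Ω'
  obtain ⟨e2, e3, hC⟩ := hC0.at_root (hC0.root he)
  obtain ⟨v1, v2, v3⟩ := pe_vieta hC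
  have h := nm_eq_prod v1 v2 v3 z
  have h1 := congrArg w h
  rw [hz, Int.cast_pow, map_pow, hN, one_pow, map_mul, map_mul, mul_assoc] at h1
  exact one_of_mul (w_ev w (w_pe w (pe_root hC.root_a)) z)
    (mul_le_one' (w_ev w (w_pe w (pe_root hC.root_b)) z) (w_ev w (w_pe w (pe_root hC.root_c)) z))
    h1.symm

theorem w_uu {p : Ω'} (hp : p ^ 3 - 4 * p ^ 2 + 6 * p - 2 = 0) (b : Bool) :
    w (ev p (uu b)) = 1 := by
  have hp1 := w_pe w hp
  cases b
  · have e : ev p (uu false) = 1 := by simp [uu, ev]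
    rw [e, map_one]
  · have e : ev p (uu true) * ev p (3, -3, 1) = 1 := by
      simp only [uu, ev, if_true]
      push_cast
      linear_combination -hp
    have h1 := congrArg w e
    rw [map_mul, map_one] at h1
    exact one_of_mul (w_ev w hp1 _) (w_ev w hp1 _) h1

/-- the valuation at a place over the prime -/
theorem hev_l (h2w : w (2 : Ω') = 1) (h11w : w (11 : Ω') = 1) {l : ℕ} {n : ℤ}
    {ρ γ β z : ℤ × ℤ × ℤ} {b : Bool} (h1 : mu ρ γ = ((l : ℤ), 0, 0)) (h3 : mu ρ β = (-n, 1, 0))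
    (hρ : nm ρ = l ∨ nm ρ = -l)
    (hz : z = mu γ (uu b) ∨ z = mu (-γ.1, -γ.2.1, -γ.2.2) (uu b))
    {e : Ω'} (he : cub W2 e = 0) : w (zt z e) = 1 ∨ w (zt z e) = w ((l : ℕ) : Ω') := by
  haveI : CharZero Ω' := algebraRat.charZero Ω'
  obtain ⟨a, b', c, hC0⟩ := Pool.Agent.Y809.BS.W2_roots Ω'
  obtain ⟨e2, e3, hC⟩ := hC0.at_root (hC0.root he)
  obtain ⟨v1, v2, v3⟩ := pe_vieta hC
  obtain ⟨d12, d13, d23⟩ := w_sub_one w hC h2w h11w
  have hf : ∀ {x : Ω'}, cub W2 x = 0 → (pe x) ^ 3 - 4 * (pe x) ^ 2 + 6 * pe x - 2 = 0 :=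
    fun h => pe_root h
  have hp : ∀ {x : Ω'}, cub W2 x = 0 → w (pe x) ≤ 1 := fun h => w_pe w (pe_root h)
  -- the differences of the roots
  have hdiff : ∀ {x y : Ω'}, cub W2 x = 0 → cub W2 y = 0 → w (x - y) = 1 →
      w (pe x - pe y) = 1 := by
    intro x y hx hy hxy
    have e1 : x - y = (pe x - pe y) * (-26 + 6 * (pe x + pe y)) := by
      have t1 := tht_pe hx
      have t2 := tht_pe hy
      linear_combination t2 - t1
    have e2' : w (-26 + 6 * (pe x + pe y)) ≤ 1 := by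
      refine (Valuation.map_add _ _ _).trans (max_le ?_ ?_)
      · exact_mod_cast w_int w (-26)
      · rw [map_mul]
        refine mul_le_one' ?_ ((Valuation.map_add _ _ _).trans (max_le (hp hx) (hp hy)))
        exact_mod_cast w_int w 6
    rw [e1, map_mul] at hxy
    exact one_of_mul ((Valuation.map_sub _ _ _).trans (max_le (hp hx) (hp hy))) e2' hxy
  have k12 := hdiff hC.root_a hC.root_b d12
  have k13 := hdiff hC.root_a hC.root_c d13
  -- the factors
  have hργ : ∀ {x : Ω'}, cub W2 x = 0 → ev (pe x) ρ * ev (pe x) γ = (l : Ω') := by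
    intro x hx
    rw [← ev_mu (hf hx), h1]
    simp [ev]
  have hρβ : ∀ {x : Ω'}, cub W2 x = 0 → ev (pe x) ρ * ev (pe x) β = pe x - n := by
    intro x hx
    rw [← ev_mu (hf hx), h3]
    simp [ev]
    ring
  have hwz : w (zt z e) = w (ev (pe e) γ) := by
    have e1 : zt z e = ev (pe e) z := rfl
    rw [e1]
    rcases hz with h | h
    · rw [h, ev_mu (hf he), map_mul, w_uu w (hf he), mul_one]
    · rw [h, ev_mu (hf he), map_mul, w_uu w (hf he), mul_one]
      have e2' : ev (pe e) (-γ.1, -γ.2.1, -γ.2.2) = - ev (pe e) γ := by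
        simp only [ev]
        push_cast
        ring
      rw [e2', Valuation.map_neg]
  rw [hwz]
  have hne : w (ev (pe e) ρ) ≤ 1 := w_ev w (hp he) ρ
  rcases hne.lt_or_eq with hlt | heq
  · left
    -- the other roots
    have hn : w (pe e - n) < 1 := by
      rw [← hρβ he, map_mul]
      exact lt_of_lt_of_le' hlt (w_ev w (hp he) β)
    have hother : ∀ {x : Ω'}, cub W2 x = 0 → w (pe e - pe x) = 1 → w (ev (pe x) ρ) = 1 := by
      intro x hx hex
      have h5 : w (pe x - n) = 1 := by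
        have e1 : pe x - n = -((pe e - pe x) - (pe e - n)) := by ring
        rw [e1, Valuation.map_neg, Valuation.map_sub_eq_of_lt_left _ (by rw [hex]; exact hn), hex]
      rw [← hρβ hx, map_mul] at h5
      exact one_of_mul (w_ev w (hp hx) ρ) (w_ev w (hp hx) β) h5
    have o2 := hother hC.root_b k12
    have o3 := hother hC.root_c k13
    have hprod := nm_eq_prod v1 v2 v3 ρ
    have h6 : w (ev (pe e) ρ) = w ((l : ℕ) : Ω') := by
      have h7 := congrArg w hprod
      rw [map_mul, map_mul, o2, o3, mul_one, mul_one] at h7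
      rw [← h7]
      rcases hρ with h | h <;> rw [h]
      · push_cast; rfl
      · push_cast; rw [Valuation.map_neg]
    have h8 := congrArg w (hργ he)
    rw [map_mul, h6] at h8
    by_cases hl0 : (l : Ω') = 0
    · exfalso
      have : l = 0 := by exact_mod_cast hl0
      rw [this] at h6
      rw [Nat.cast_zero, map_zero] at h6
      have h9 : ev (pe e) ρ = 0 := (map_eq_zero w).1 h6
      -- then `pe e = n`, and the roots `pe e`, `pe e2` would be ...
      have h10 := hρβ he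
      rw [h9, zero_mul] at h10
      have h11' : ((nm ρ : ℤ) : Ω') = 0 := by
        rcases hρ with h | h <;> rw [h, this] <;> simp
      rw [h11'] at hprod
      have hρ2 : ev (pe e2) ρ ≠ 0 := by
        intro h
        rw [h, map_zero] at o2
        exact zero_ne_one o2
      -- `pe e` is an integer: impossible since `2` is a unit? use the polynomial
      have hpn : pe e = n := by linear_combination -h10
      have h12 := hf he
      rw [hpn] at h12
      have h13 : n ^ 3 - 4 * n ^ 2 + 6 * n - 2 = 0 := by exact_mod_cast h12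
      have h14 : n ∣ 2 := ⟨n ^ 2 - 4 * n + 6, by linear_combination -h13⟩
      have h15 := Int.le_of_dvd (by norm_num) h14
      have h16 : -2 ≤ n := by
        have := Int.le_of_dvd (by norm_num) ((Int.neg_dvd).2 h14)
        linarith
      interval_cases n <;> norm_num at h13
    · have h9 : w ((l : ℕ) : Ω') ≠ 0 := (map_ne_zero w).2 hl0
      exact mul_left_cancel₀ h9 (by rw [h8, mul_one])
  · right
    have h8 := congrArg w (hργ he)
    rw [map_mul, heq, one_mul] at h8
    exact h8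

end val

end Pool.Agent.R425
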