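import Pool.Agent.R425.LocK

/-!
# The local conditions at the infinite places
-/

set_option autoImplicit false
set_option linter.all false

open NumberField

namespace Pool.Agent.R425

open Pool.Agent.TH115.GD
open Pool.Agent.Y702 (W2 tht)

/-- the value at the real root is positive -/
theorem posR {z : ℤ × ℤ × ℤ} {N : ℤ} (hN : N ≠ 0) (hz : nm z = N ^ 2) {e : ℂ}
    (he : cub W2 e = 0) (hr : starRingEnd ℂ e = e) : ∃ r : ℝ, zt z e = (r : ℂ) ∧ 0 < r := by
  obtain ⟨a, b, c, hC0⟩ := Pool.Agent.Y809.BS.W2_roots ℂ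
  obtain ⟨e2, e3, hC⟩ := hC0.at_root (hC0.root he)
  have hd := disc_prod hC
  have hroot : ∀ x : ℂ, cub W2 x = 0 → cub W2 (starRingEnd ℂ x) = 0 := by
    intro x hx
    have := congrArg (starRingEnd ℂ) hx
    rw [cub_W2] at this ⊢
    simpa only [map_sub, map_mul, map_pow, map_ofNat, map_zero] using this
  obtain ⟨x1, hx1⟩ := Complex.conj_eq_iff_real.1 hr
  have hsum : e + e2 + e3 = 4 := by
    have h2 := hC.e2
    have c2 : algebraMap ℚ ℂ W2.a₂ = -4 := by
      show algebraMap ℚ ℂ (-4) = -4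
      rw [map_neg, map_ofNat]
    rw [c2] at h2
    linear_combination h2
  -- the second root is not real
  have h2r : starRingEnd ℂ e2 ≠ e2 := by
    intro h2
    obtain ⟨x2, hx2⟩ := Complex.conj_eq_iff_real.1 h2
    have hx3 : e3 = ((4 - x1 - x2 : ℝ) : ℂ) := by
      push_cast
      rw [← hx1, ← hx2]
      linear_combination hsum
    rw [hx1, hx2, hx3] at hd
    have hd' : (x1 - x2) ^ 2 * (x1 - (4 - x1 - x2)) ^ 2 * (x2 - (4 - x1 - x2)) ^ 2 =
        (-41229056 : ℝ) := by exact_mod_cast hd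
    have : 0 ≤ (x1 - x2) ^ 2 * (x1 - (4 - x1 - x2)) ^ 2 * (x2 - (4 - x1 - x2)) ^ 2 := by positivity
    rw [hd'] at this
    norm_num at this
  have h23 : starRingEnd ℂ e2 = e3 := by
    rcases hC.root (hroot e2 hC.root_b) with h | h | h
    · exfalso
      apply hC.ab
      have := congrArg (starRingEnd ℂ) h
      rw [Complex.conj_conj, hr] at this
      exact this.symm
    · exact absurd h h2r
    · exact h
  obtain ⟨v1, v2, v3⟩ := pe_vieta hC
  have hprod : ((nm z : ℤ) : ℂ) = zt z e * zt z e2 * zt z e3 := nm_eq_prod v1 v2 v3 z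
  have hconj : ∀ x : ℂ, starRingEnd ℂ (zt z x) = zt z (starRingEnd ℂ x) := fun x =>
    zt_map (starRingEnd ℂ) z x
  obtain ⟨r, hr1⟩ := Complex.conj_eq_iff_real.1 ((hconj e).trans (by rw [hr]))
  refine ⟨r, hr1, ?_⟩
  rw [hr1, ← h23, ← hconj, mul_assoc, Complex.mul_conj, hz] at hprod
  have h5 : ((N : ℝ)) ^ 2 = r * Complex.normSq (zt z e2) := by
    have : (((N : ℝ) ^ 2 : ℝ) : ℂ) = ((r * Complex.normSq (zt z e2) : ℝ) : ℂ) := by
      push_cast at hprod ⊢
      exact hprod
    exact_mod_cast this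
  have h6 : 0 < (N : ℝ) ^ 2 := by
    have : (N : ℝ) ≠ 0 := by exact_mod_cast hN
    positivity
  rw [h5] at h6
  exact pos_of_mul_pos_left h6 (Complex.normSq_nonneg _)

theorem lc_cplx {L : Type} [Field L] [Algebra ℚ L] [IsAlgClosed L] (z : ℤ × ℤ × ℤ) :
    LC L (AlgebraicClosure L) (zt z) := by
  left
  intro e he
  obtain ⟨y, hy⟩ := IsAlgClosed.exists_pow_nat_eq (zt z e) (n := 2) (by norm_num)
  refine ⟨y, fun σ _ => ?_, hy.symm⟩
  obtain ⟨x, rfl⟩ := (IsAlgClosed.algebraMap_bijective_of_isIntegral (k := L)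
    (K := AlgebraicClosure L)).2 y
  exact σ.commutes x

theorem lc_real {L : Type} [Field L] [Algebra ℚ L] (κ : L ≃+* ℝ) {z : ℤ × ℤ × ℤ} {N : ℤ}
    (hN : N ≠ 0) (hz : nm z = N ^ 2) : LC L (AlgebraicClosure L) (zt z) := by
  letI algC : Algebra L ℂ := (Complex.ofRealHom.comp (κ : L →+* ℝ)).toAlgebra
  letI algR : Algebra L ℝ := (κ : L →+* ℝ).toAlgebra
  haveI : IsScalarTower L ℝ ℂ := IsScalarTower.of_algebraMap_eq fun x => rfl
  haveI : Algebra.IsAlgebraic L ℝ := by
    refine ⟨fun x => ?_⟩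
    have h : x = algebraMap L ℝ (κ.symm x) := (κ.apply_symm_apply x).symm
    rw [h]
    exact isAlgebraic_algebraMap _
  haveI : Algebra.IsAlgebraic ℝ ℂ := Algebra.IsAlgebraic.of_finite ℝ ℂ
  haveI : Algebra.IsAlgebraic L ℂ := Algebra.IsAlgebraic.trans L ℝ ℂ
  haveI : IsAlgClosure L ℂ := ⟨inferInstance, inferInstance⟩
  let φ : AlgebraicClosure L ≃ₐ[L] ℂ := IsAlgClosure.equiv L (AlgebraicClosure L) ℂ
  have hφL : ∀ x : L, φ (algebraMap L _ x) = ((κ x : ℝ) : ℂ) := fun x => φ.commutes x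
  -- the automorphisms
  have haut : ∀ σ : AlgebraicClosure L ≃ₐ[L] AlgebraicClosure L,
      (∀ x, φ (σ x) = φ x) ∨ ∀ x, φ (σ x) = starRingEnd ℂ (φ x) := by
    intro σ
    let f : ℂ →ₐ[ℝ] ℂ := AlgHom.mk' ((φ.symm.trans (σ.trans φ) : ℂ ≃ₐ[L] ℂ) : ℂ →+* ℂ) (by
      intro r x
      show φ (σ (φ.symm (r • x))) = r • φ (σ (φ.symm x))
      have h1 : r • x = φ (algebraMap L _ (κ.symm r)) * x := by
        rw [hφL, κ.apply_symm_apply, Complex.real_smul]
      rw [h1]
      have h2 : φ.symm (φ (algebraMap L _ (κ.symm r)) * x) =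
          algebraMap L _ (κ.symm r) * φ.symm x := by
        rw [map_mul, φ.symm_apply_apply]
      rw [h2, map_mul, σ.commutes, map_mul, hφL, κ.apply_symm_apply, Complex.real_smul])
    have hf : ∀ x, f (φ x) = φ (σ x) := by
      intro x
      show φ (σ (φ.symm (φ x))) = _
      rw [φ.symm_apply_apply]
    rcases Complex.real_algHom_eq_id_or_conj f with h | h
    · left
      intro x
      rw [← hf, h]
      rfl
    · right
      intro x
      rw [← hf, h]
      rfl
  left
  intro e he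
  have he' : cub W2 (φ e) = 0 := by
    have := congrArg φ he
    rw [cub_W2] at this ⊢
    simpa only [map_sub, map_mul, map_pow, map_ofNat, map_zero] using this
  by_cases hre : starRingEnd ℂ (φ e) = φ e
  · obtain ⟨r, hr, hr0⟩ := posR hN hz he' hre
    refine ⟨φ.symm ((√r : ℝ) : ℂ), fun σ _ => ?_, ?_⟩
    · apply φ.injective
      rcases haut σ with h | h
      · rw [h]
      · rw [h, φ.apply_symm_apply, Complex.conj_ofReal]
    · apply φ.injective
      rw [map_pow, φ.apply_symm_apply]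
      have h3 : φ (zt z e) = zt z (φ e) := zt_map (φ : AlgebraicClosure L →+* ℂ) z e
      rw [h3, hr, ← Complex.ofReal_pow, Real.sq_sqrt hr0.le]
  · obtain ⟨y, hy⟩ := IsAlgClosed.exists_pow_nat_eq (zt z e) (n := 2) (by norm_num)
    refine ⟨y, fun σ hσ => ?_, hy.symm⟩
    apply φ.injective
    rcases haut σ with h | h
    · exact h y
    · exfalso
      apply hre
      rw [← h, hσ]

theorem locInf {K : Type} [Field K] [NumberField K] {z : ℤ × ℤ × ℤ} {N : ℤ}
    (hN : N ≠ 0) (hz : nm z = N ^ 2) (v : InfinitePlace K) :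
    LC v.Completion (AlgebraicClosure v.Completion) (zt z) := by
  rcases v.isReal_or_isComplex with hv | hv
  · exact lc_conv _ _ _ _ (lc_real (InfinitePlace.Completion.ringEquivRealOfIsReal hv) hN hz)
  · haveI : IsAlgClosed v.Completion :=
      IsAlgClosed.of_ringEquiv _ _ (InfinitePlace.Completion.ringEquivComplexOfIsComplex hv).symm
    exact lc_conv _ _ _ _ (lc_cplx z)

end Pool.Agent.R425
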