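import Pool.Agent.R425.LocG

/-!
# The local conditions at the finite places of a number field
-/

set_option autoImplicit false
set_option linter.all false

open scoped NNReal
open NumberField IsDedekindDomain

namespace Pool.Agent.R425

open Pool.Agent.TH115.GD
open Pool.Agent.Y702 (W2 tht)

theorem lc_conv {L Ω' : Type} [Field L] [Field Ω'] [Algebra L Ω'] (i1 i1' : Algebra ℚ L)
    (i2 i2' : Algebra ℚ Ω') {ζ : Ω' → Ω'} (h : @LC L Ω' _ _ _ i1 i2 ζ) :
    @LC L Ω' _ _ _ i1' i2' ζ := by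
  have e1 : i1 = i1' := Subsingleton.elim _ _
  have e2 : i2 = i2' := Subsingleton.elim _ _
  subst e1
  subst e2
  exact h

theorem locF {K : Type} [Field K] [NumberField K] {l : ℕ} (hl : l.Prime) (hl2 : l ≠ 2)
    (hl11 : l ≠ 11) {n : ℤ} {ρ γ β z s t : ℤ × ℤ × ℤ} {b d : Bool}
    (h1 : mu ρ γ = ((l : ℤ), 0, 0)) (h3 : mu ρ β = (-n, 1, 0))
    (hρ : nm ρ = l ∨ nm ρ = -l) (hnz : nm z = (l : ℤ) ^ 2)
    (hz : z = mu γ (uu b) ∨ z = mu (-γ.1, -γ.2.1, -γ.2.2) (uu b)) (hs : Odd s.1)
    (hzs : z = ((mu (mu s s) (dd d)).1 + 8 * t.1, (mu (mu s s) (dd d)).2.1 + 8 * t.2.1,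
        (mu (mu s s) (dd d)).2.2 + 8 * t.2.2))
    (hram : ∀ v : HeightOneSpectrum (𝓞 K), ((l : ℕ) : 𝓞 K) ∈ v.asIdeal →
      ∃ s : K, v.valuation K s ^ 2 = v.valuation K (l : K))
    (v : HeightOneSpectrum (𝓞 K)) :
    LC (v.adicCompletion K) (AlgebraicClosure (v.adicCompletion K)) (zt z) := by
  haveI : CharZero (v.adicCompletion K) := algebraRat.charZero _
  haveI : IsGalois (v.adicCompletion K) (AlgebraicClosure (v.adicCompletion K)) := inferInstance
  obtain ⟨w, hw1, hw2, hw3, hw4, hw5⟩ := exists_data v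
  set L := v.adicCompletion K with hL
  set Ω' := AlgebraicClosure (v.adicCompletion K) with hΩ'
  have hnat : ∀ k : ℕ, w ((k : ℕ) : Ω') < 1 ↔ ((k : ℕ) : 𝓞 K) ∈ v.asIdeal := by
    intro k
    rw [← hw4]
    simp only [map_natCast]
  have hle : ∀ k : ℕ, w ((k : ℕ) : Ω') ≤ 1 := fun k => by
    have := w_int w (k : ℤ)
    rwa [Int.cast_natCast] at this
  by_cases c2 : ((2 : ℕ) : 𝓞 K) ∈ v.asIdeal
  · have h2 : w (2 : Ω') < 1 := by
      have := (hnat 2).2 c2
      exact_mod_cast this
    exact lc_conv _ _ _ _ (lc_two w hw1 h2 hs hzs)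
  by_cases c11 : ((11 : ℕ) : 𝓞 K) ∈ v.asIdeal
  · have h11 : w (11 : Ω') < 1 := by
      have := (hnat 11).2 c11
      exact_mod_cast this
    refine lc_conv _ _ _ _ (lc_eleven w hw1 h11 hnz ?_)
    intro h
    have : 11 ∣ l := by exact_mod_cast h
    exact hl11 ((Nat.prime_dvd_prime_iff_eq (by norm_num) hl).1 this).symm
  · have h2 : w (2 : Ω') = 1 := by
      apply le_antisymm
      · exact_mod_cast hle 2
      · by_contra hcon
        rw [not_le] at hcon
        exact c2 ((hnat 2).1 (by exact_mod_cast hcon))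
    have h11 : w (11 : Ω') = 1 := by
      apply le_antisymm
      · exact_mod_cast hle 11
      · by_contra hcon
        rw [not_le] at hcon
        exact c11 ((hnat 11).1 (by exact_mod_cast hcon))
    haveI : v.asIdeal.IsMaximal := v.isMaximal
    haveI : Finite (𝓞 K ⧸ v.asIdeal) := Ring.HasFiniteQuotients.finiteQuotient v.ne_bot
    let j : 𝓞 K →+* L := (algebraMap K L).comp (algebraMap (𝓞 K) K)
    refine lc_conv _ _ _ _ (lc_good w v.asIdeal j hw1 hw3 hw4 hw5 h2 h11 hnz fun e he => ?_)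
    by_cases cl : ((l : ℕ) : 𝓞 K) ∈ v.asIdeal
    · obtain ⟨s', hs'⟩ := hram v cl
      have hls : w ((l : ℕ) : Ω') = w (algebraMap L Ω' (algebraMap K L s')) ^ 2 := by
        have e1 : ((l : ℕ) : Ω') = algebraMap L Ω' ((l : ℕ) : L) := by rw [map_natCast]
        have e2 : w (algebraMap L Ω' (algebraMap K L s')) ^ 2 =
            w (algebraMap L Ω' ((algebraMap K L s') ^ 2)) := by rw [map_pow, map_pow]
        have e3 : Valued.v ((l : ℕ) : L) = Valued.v ((algebraMap K L s') ^ 2) := by
          have e4 : ((l : ℕ) : L) = algebraMap K L (l : K) := by rw [map_natCast]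
          rw [e4, map_pow]
          have e5 : ∀ x : K, Valued.v (algebraMap K L x) = v.valuation K x := fun x =>
            HeightOneSpectrum.valuedAdicCompletion_eq_valuation' v x
          rw [e5, e5, hs']
        rw [e1, e2]
        exact le_antisymm ((hw2 _ _).2 e3.le) ((hw2 _ _).2 e3.ge)
      rcases hev_l w h2 h11 h1 h3 hρ hz he with h | h
      · exact ⟨1, one_ne_zero, by rw [h, map_one, map_one, one_pow]⟩
      · refine ⟨algebraMap K L s', ?_, by rw [h, hls]⟩
        intro h0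
        rw [h0, map_zero, map_zero] at hls
        have h4 : ((l : ℕ) : Ω') = 0 := (map_eq_zero w).1 (by rw [hls]; simp)
        haveI : CharZero Ω' := algebraRat.charZero Ω'
        have h5 : l = 0 := by exact_mod_cast h4
        exact hl.ne_zero h5
    · have hwl : w (((l : ℤ)) : Ω') = 1 := by
        rw [Int.cast_natCast]
        apply le_antisymm (hle l)
        by_contra hcon
        rw [not_le] at hcon
        exact cl ((hnat l).1 hcon)
      exact ⟨1, one_ne_zero, by rw [hev_one w hnz hwl he, map_one, map_one, one_pow]⟩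

end Pool.Agent.R425
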