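import Pool.Agent.R425.Zel
import Pool.Agent.Y809.BS.Inv

/-!
# The roots of the two cubic polynomials
-/

set_option autoImplicit false
set_option linter.all false

namespace Pool.Agent.R425

open Pool.Agent.TH115.GD
open Pool.Agent.Y702 (W2 tht)

section

variable {F : Type} [Field F] [Algebra ℚ F]

/-- `π` as a polynomial in `θ` -/
def pe (e : F) : F := (3 * e ^ 2 - 62 * e + 392) / 484

theorem cub_W2 (x : F) : cub W2 x = x ^ 3 - 4 * x ^ 2 - 160 * x - 1264 := by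
  unfold cub W2
  simp only [map_neg, map_ofNat]
  ring

theorem cub'_W2 (x : F) : cub' W2 x = 3 * x ^ 2 - 8 * x - 160 := by
  unfold cub' W2
  simp only [map_neg, map_ofNat]
  ring

theorem ne484 : (484 : F) ≠ 0 := by
  haveI : CharZero F := algebraRat.charZero F
  norm_num

theorem pe_mul (e : F) : 484 * pe e = 3 * e ^ 2 - 62 * e + 392 := by
  unfold pe
  rw [mul_div_cancel₀]
  exact ne484

theorem pe_root {e : F} (he : cub W2 e = 0) : (pe e) ^ 3 - 4 * (pe e) ^ 2 + 6 * pe e - 2 = 0 := by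
  haveI : CharZero F := algebraRat.charZero F
  rw [cub_W2] at he
  have h1 : pe e = (3 * e ^ 2 - 62 * e + 392) / 484 := rfl
  rw [h1]
  linear_combination (-8599 / 14172488 + 6453 / 28344976 * e - 783 / 56689952 * e ^ 2 +
    27 / 113379904 * e ^ 3) * he

theorem tht_pe {e : F} (he : cub W2 e = 0) : 28 - 26 * pe e + 6 * (pe e) ^ 2 = e := by
  haveI : CharZero F := algebraRat.charZero F
  rw [cub_W2] at he
  have h1 : pe e = (3 * e ^ 2 - 62 * e + 392) / 484 := rfl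
  rw [h1]
  linear_combination (-126 / 14641 + 27 / 117128 * e) * he

theorem pe_inj {e e' : F} (he : cub W2 e = 0) (he' : cub W2 e' = 0) (h : pe e = pe e') : e = e' := by
  rw [← tht_pe he, ← tht_pe he', h]

theorem pe_map {F' : Type} [Field F'] [Algebra ℚ F'] (φ : F →+* F') (e : F) :
    φ (pe e) = pe (φ e) := by
  unfold pe
  rw [map_div₀]
  simp only [map_add, map_sub, map_mul, map_pow, map_ofNat]

theorem vieta {p1 p2 p3 : F} (h1 : p1 ^ 3 - 4 * p1 ^ 2 + 6 * p1 - 2 = 0)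
    (h2 : p2 ^ 3 - 4 * p2 ^ 2 + 6 * p2 - 2 = 0) (h3 : p3 ^ 3 - 4 * p3 ^ 2 + 6 * p3 - 2 = 0)
    (n12 : p1 ≠ p2) (n13 : p1 ≠ p3) (n23 : p2 ≠ p3) :
    p1 + p2 + p3 = 4 ∧ p1 * p2 + p1 * p3 + p2 * p3 = 6 ∧ p1 * p2 * p3 = 2 := by
  have a12 : p1 ^ 2 + p1 * p2 + p2 ^ 2 - 4 * (p1 + p2) + 6 = 0 := by
    apply mul_left_cancel₀ (sub_ne_zero.2 n12)
    linear_combination h1 - h2
  have a13 : p1 ^ 2 + p1 * p3 + p3 ^ 2 - 4 * (p1 + p3) + 6 = 0 := by
    apply mul_left_cancel₀ (sub_ne_zero.2 n13)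
    linear_combination h1 - h3
  have s1 : p1 + p2 + p3 = 4 := by
    apply mul_left_cancel₀ (sub_ne_zero.2 n23)
    linear_combination a12 - a13
  have s2 : p1 * p2 + p1 * p3 + p2 * p3 = 6 := by
    linear_combination (p1 + p2) * s1 - a12
  refine ⟨s1, s2, ?_⟩
  linear_combination h1 - p1 ^ 2 * s1 + p1 * s2

theorem pe_vieta {e1 e2 e3 : F} (hC : IsC (W2.baseChange F).toAffine e1 e2 e3) :
    pe e1 + pe e2 + pe e3 = 4 ∧ pe e1 * pe e2 + pe e1 * pe e3 + pe e2 * pe e3 = 6 ∧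
      pe e1 * pe e2 * pe e3 = 2 :=
  vieta (pe_root hC.root_a) (pe_root hC.root_b) (pe_root hC.root_c)
    (fun h => hC.ab (pe_inj hC.root_a hC.root_b h)) (fun h => hC.ac (pe_inj hC.root_a hC.root_c h))
    (fun h => hC.bc (pe_inj hC.root_b hC.root_c h))

theorem disc_prod {e1 e2 e3 : F} (hC : IsC (W2.baseChange F).toAffine e1 e2 e3) :
    (e1 - e2) ^ 2 * (e1 - e3) ^ 2 * (e2 - e3) ^ 2 = -41229056 := by
  have h2 := hC.e2
  have h4 := hC.e4
  have h6 := hC.e6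
  have c2 : algebraMap ℚ F W2.a₂ = -4 := by
    show algebraMap ℚ F (-4) = -4
    rw [map_neg, map_ofNat]
  have c4 : algebraMap ℚ F W2.a₄ = -160 := by
    show algebraMap ℚ F (-160) = -160
    rw [map_neg, map_ofNat]
  have c6 : algebraMap ℚ F W2.a₆ = -1264 := by
    show algebraMap ℚ F (-1264) = -1264
    rw [map_neg, map_ofNat]
  rw [c2] at h2
  rw [c4] at h4
  rw [c6] at h6
  have s1 : e1 + e2 + e3 = 4 := by linear_combination h2
  have s2 : e1 * e2 + e1 * e3 + e2 * e3 = -160 := by linear_combination -h4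
  have s3 : e1 * e2 * e3 = 1264 := by linear_combination h6
  have e : (e1 - e2) ^ 2 * (e1 - e3) ^ 2 * (e2 - e3) ^ 2 =
      (e1 + e2 + e3) ^ 2 * (e1 * e2 + e1 * e3 + e2 * e3) ^ 2 -
        4 * (e1 * e2 + e1 * e3 + e2 * e3) ^ 3 - 4 * (e1 + e2 + e3) ^ 3 * (e1 * e2 * e3) -
        27 * (e1 * e2 * e3) ^ 2 +
        18 * (e1 + e2 + e3) * (e1 * e2 + e1 * e3 + e2 * e3) * (e1 * e2 * e3) := by ring
  rw [e, s1, s2, s3]
  norm_num

end

end Pool.Agent.R425
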