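import Pool.Agent.R425.Asm

/-!
# The Tate-Shafarevich group, or the group of points, is not trivial modulo two
-/

set_option autoImplicit false
set_option linter.all false

open NumberField IsDedekindDomain WeierstrassCurve WeierstrassCurve.Affine Polynomial
open scoped Classical

namespace Pool.Agent.R425

open Pool.Agent.TH115.GD
open Pool.Agent.Y702 (W2 tht)
open Pool.Agent.Y809.BS (EK trE trE_inj trE_surj trE_act W2_roots presQ isEW' tr_inj tr_surj tr)

/-- Local triviality of the class of `E` from that of the class of `W2`. -/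
theorem loc_transfer {K L : Type} [Field K] [NumberField K] [Field L] [Algebra K L]
    [Algebra ℚ L] [IsScalarTower ℚ K L]
    {g : (AlgebraicClosure K ≃ₐ[ℚ] AlgebraicClosure K) → Pt W2 (AlgebraicClosure K)}
    (hg1 : IsLocallyConstant g) (hg2 : ∀ σ τ, g (σ * τ) = g σ + act W2 (ak σ) (g τ))
    (hloc : LocTriv (F := ℚ) (Ω := AlgebraicClosure K) W2 L (AlgebraicClosure L) g)
    {f : Pool.Agent.TH841.SH.D.Coch (EK K)}
    (hf : ∀ σ, trE (AlgebraicClosure K) (f σ) = g (σ.restrictScalars ℚ)) :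
    Pool.Agent.TH841.SH.D.LocTriv (EK K) L f := by
  haveI : IsGalois ℚ (AlgebraicClosure K) := IsGalois.mk
  intro ι
  have hcoc : IsCoc (F := ℚ) W2 g := ⟨hg1, hg2⟩
  obtain ⟨P0, hP0⟩ := LocTriv.of_any W2 hcoc hloc (ι.restrictScalars ℚ)
  obtain ⟨P, hP⟩ := trE_surj (K := K) (AlgebraicClosure L) P0
  refine ⟨P, fun τ σ h => ?_⟩
  apply trE_inj (K := K) (AlgebraicClosure L)
  have h1 := hP0 τ (σ.restrictScalars ℚ) h
  have e1 := trE_act (K := K) ι (ι.restrictScalars ℚ) (fun x => rfl) (f σ)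
  have e2 := trE_act (K := K) (AlgHom.restrictScalars K τ.toAlgHom) (rs ℚ τ) (fun x => rfl) P
  rw [map_sub, hP]
  refine e1.trans ?_
  rw [hf]
  refine Eq.trans ?_ (h1.trans ?_)
  · rfl
  · rw [hP] at e2
    exact (congrArg (fun z => z - P0) e2).symm

/-- If a prime `l` with even ramification in `K` has a root then the group of points over `K` is
infinite or the Tate-Shafarevich group has an element of order two. -/
theorem not_sha (K : Type) [Field K] [NumberField K] [IsGalois ℚ K]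
    (hnr : ∀ x : K, cub W2 x ≠ 0) {l : ℕ} (hl : l.Prime) (h2 : l ≠ 2) (h11 : l ≠ 11) {n : ℤ}
    (hn : (l : ℤ) ∣ n ^ 3 - 4 * n ^ 2 + 6 * n - 2) (hram : Ev K l)
    (hfin : Finite (EK K).toAffine.Point)
    (hsha : ∀ s : Pool.Agent.TH841.NF.D.Sha (EK K), 2 • s = 0 → s = 0) : False := by
  haveI : IsGalois ℚ (AlgebraicClosure K) := IsGalois.mk
  obtain ⟨a, b, c, hC⟩ := W2_roots (AlgebraicClosure K)
  obtain ⟨g, hg1, hg2, hg3, hg4, hg5, hg6⟩ := exists_class K hnr hl h2 h11 hn hram
  have hsurj := trE_surj (K := K) (AlgebraicClosure K)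
  choose inv hinv using hsurj
  set f : Pool.Agent.TH841.SH.D.Coch (EK K) := fun σ => inv (g (σ.restrictScalars ℚ)) with hf
  have hfe : ∀ σ, trE (AlgebraicClosure K) (f σ) = g (σ.restrictScalars ℚ) := fun σ => hinv _
  have nat : ∀ (σ : AlgebraicClosure K ≃ₐ[K] AlgebraicClosure K)
      (R : Pool.Agent.TH841.SH.D.Pt (EK K) (AlgebraicClosure K)),
      trE (AlgebraicClosure K) (Pool.Agent.TH841.SH.D.act (EK K) σ.toAlgHom R) =
        act W2 (rs ℚ σ) (trE (AlgebraicClosure K) R) := fun σ R =>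
    trE_act σ.toAlgHom (rs ℚ σ) (fun x => rfl) R
  have hcoc : Pool.Agent.TH841.SH.D.IsCoc (EK K) f := by
    refine ⟨?_, fun σ τ => ?_⟩
    · have h1 : IsLocallyConstant (g ∘ (AlgEquiv.restrictScalarsHom ℚ :
          (AlgebraicClosure K ≃ₐ[K] AlgebraicClosure K) →* _)) :=
        hg1.comp_continuous cont_rs
      exact h1.comp inv
    · apply trE_inj (K := K) (AlgebraicClosure K)
      rw [map_add, nat, hfe, hfe, hfe]
      exact hg2 (σ.restrictScalars ℚ) (τ.restrictScalars ℚ)
  have hmem : f ∈ Pool.Agent.TH841.NF.D.shaCoc (EK K) := by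
    refine ⟨hcoc, fun v => ?_, fun v => ?_⟩
    · exact loc_transfer hg1 hg2 (hg4 v) hfe
    · exact loc_transfer hg1 hg2 (hg5 v) hfe
  -- the class in the Tate-Shafarevich group
  set s : Pool.Agent.TH841.NF.D.Sha (EK K) := QuotientAddGroup.mk
    (⟨f, hmem⟩ : Pool.Agent.TH841.NF.D.shaCoc (EK K)) with hs
  have h2f : (2 : ℕ) • (⟨f, hmem⟩ : Pool.Agent.TH841.NF.D.shaCoc (EK K)) = 0 := by
    apply Subtype.ext
    funext σ
    apply trE_inj (K := K) (AlgebraicClosure K)
    show trE (AlgebraicClosure K) (((2 : ℕ) • f) σ) = trE (AlgebraicClosure K) 0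
    rw [map_zero]
    have e1 : ((2 : ℕ) • f) σ = f σ + f σ := by
      rw [two_nsmul]
      rfl
    rw [e1, map_add, hfe, hg3]
  have h2s : (2 : ℕ) • s = 0 := by
    have e1 : (2 : ℕ) • s = QuotientAddGroup.mk
      ((2 : ℕ) • (⟨f, hmem⟩ : Pool.Agent.TH841.NF.D.shaCoc (EK K))) := rfl
    rw [e1, h2f]
    rfl
  have hs0 := hsha s h2s
  rw [hs] at hs0
  have hs1 := (QuotientAddGroup.eq_zero_iff _).1 hs0
  rw [AddSubgroup.mem_addSubgroupOf] at hs1
  obtain ⟨P, hP⟩ := hs1
  set Q := trE (AlgebraicClosure K) P with hQ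
  have hgQ : ∀ σ : AlgebraicClosure K ≃ₐ[K] AlgebraicClosure K,
      g (σ.restrictScalars ℚ) = act W2 (rs ℚ σ) Q - Q := by
    intro σ
    rw [← hfe, hQ, ← nat, ← map_sub]
    exact congrArg (trE (AlgebraicClosure K)) (hP σ)
  -- the double is a point over `K`
  have hfix : ∀ σ : AlgebraicClosure K ≃ₐ[K] AlgebraicClosure K,
      act W2 (rs ℚ σ) (Q + Q) = Q + Q := by
    intro σ
    have h3 := hg3 (σ.restrictScalars ℚ)
    rw [hgQ σ] at h3
    rw [map_add, ← sub_eq_zero, ← h3]
    abel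
  obtain ⟨R, hR⟩ := fixed_point (K := ℚ) (F := K) W2 (Q + Q) hfix
  -- doubling is bijective on the points over `K`
  have hfinW : Finite (Pt W2 K) := by
    let e : (EK K).toAffine.Point ≃ Pt W2 K := Equiv.ofBijective (tr (isEW' K))
      ⟨fun P Q h => tr_inj _ h, fun Q => tr_surj _ Q⟩
    exact Finite.of_equiv _ e
  have hinj : Function.Injective (fun x : Pt W2 K => x + x) := by
    intro x y hxy
    have hxy' : x + x = y + y := hxy
    have h5 : (x - y) + (x - y) = 0 := by
      rw [sub_add_sub_comm, hxy', sub_self]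
    have h6 : act W2 (incl ℚ K (AlgebraicClosure K)) (x - y) = 0 := by
      apply no_two hC hnr
      · rw [← map_add, h5, map_zero]
      · intro σ
        exact rs_act_incl W2 σ (x - y)
    have h7 : x - y = 0 := by
      apply act_inj W2 (incl ℚ K (AlgebraicClosure K))
      rw [h6, map_zero]
    exact sub_eq_zero.1 h7
  obtain ⟨R', hR'⟩ := (Finite.injective_iff_surjective.1 hinj) R
  have hR'' : R' + R' = R := hR'
  apply hg6
  refine ⟨Q - act W2 (incl ℚ K (AlgebraicClosure K)) R', ?_, fun σ => ?_⟩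
  · have h8 : act W2 (incl ℚ K (AlgebraicClosure K)) R' +
        act W2 (incl ℚ K (AlgebraicClosure K)) R' = Q + Q := by rw [← map_add, hR'', hR]
    rw [sub_add_sub_comm, h8, sub_self]
  · rw [hgQ σ, map_sub, rs_act_incl]
    abel

end Pool.Agent.R425
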