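import Mathlib

/-!
# The ring `ℤ[π]`, `π³ - 4 π² + 6 π - 2 = 0`, in coordinates
-/

set_option autoImplicit false
set_option linter.all false

open Polynomial

namespace Pool.Agent.R425

/-- the value of `a + b X + c X²` -/
def ev {R : Type} [CommRing R] (p : R) (a : ℤ × ℤ × ℤ) : R :=
  (a.1 : R) + (a.2.1 : R) * p + (a.2.2 : R) * p ^ 2

/-- the product in coordinates -/
def mu (a b : ℤ × ℤ × ℤ) : ℤ × ℤ × ℤ :=
  let c0 := a.1 * b.1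
  let c1 := a.1 * b.2.1 + a.2.1 * b.1
  let c2 := a.1 * b.2.2 + a.2.1 * b.2.1 + a.2.2 * b.1
  let c3 := a.2.1 * b.2.2 + a.2.2 * b.2.1
  let c4 := a.2.2 * b.2.2
  (c0 + 2 * c3 + 8 * c4, c1 - 6 * c3 - 22 * c4, c2 + 4 * c3 + 10 * c4)

/-- the norm in coordinates -/
def nm (a : ℤ × ℤ × ℤ) : ℤ :=
  let x := a.1
  let y := a.2.1
  let w := a.2.2
  x ^ 3 + 4 * x ^ 2 * y + 4 * x ^ 2 * w + 6 * x * y ^ 2 + 18 * x * y * w + 20 * x * w ^ 2 +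
    2 * y ^ 3 + 8 * y ^ 2 * w + 12 * y * w ^ 2 + 4 * w ^ 3

section

variable {R : Type} [CommRing R] {p : R} (hp : p ^ 3 - 4 * p ^ 2 + 6 * p - 2 = 0)

include hp in
theorem ev_mu (a b : ℤ × ℤ × ℤ) : ev p (mu a b) = ev p a * ev p b := by
  obtain ⟨a0, a1, a2⟩ := a
  obtain ⟨b0, b1, b2⟩ := b
  simp only [ev, mu]
  push_cast
  linear_combination (-((a1 : R) * b2 + a2 * b1) - (a2 : R) * b2 * (p + 4)) * hp

theorem ev_map {S : Type} [CommRing S] (φ : R →+* S) (p : R) (a : ℤ × ℤ × ℤ) :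
    φ (ev p a) = ev (φ p) a := by
  simp only [ev, map_add, map_mul, map_intCast, map_pow]

theorem nm_mu (a b : ℤ × ℤ × ℤ) : nm (mu a b) = nm a * nm b := by
  obtain ⟨a0, a1, a2⟩ := a
  obtain ⟨b0, b1, b2⟩ := b
  simp only [nm, mu]
  ring

theorem nm_eq_prod {p1 p2 p3 : R} (h1 : p1 + p2 + p3 = 4) (h2 : p1 * p2 + p1 * p3 + p2 * p3 = 6)
    (h3 : p1 * p2 * p3 = 2) (a : ℤ × ℤ × ℤ) : (nm a : R) = ev p1 a * ev p2 a * ev p3 a := by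
  obtain ⟨x, y, w⟩ := a
  have e : ev p1 (x, y, w) * ev p2 (x, y, w) * ev p3 (x, y, w) =
      (x : R) ^ 3 + x ^ 2 * y * (p1 + p2 + p3) + x ^ 2 * w * ((p1 + p2 + p3) ^ 2 -
        2 * (p1 * p2 + p1 * p3 + p2 * p3)) + x * y ^ 2 * (p1 * p2 + p1 * p3 + p2 * p3) +
      x * y * w * ((p1 + p2 + p3) * (p1 * p2 + p1 * p3 + p2 * p3) - 3 * (p1 * p2 * p3)) +
      x * w ^ 2 * ((p1 * p2 + p1 * p3 + p2 * p3) ^ 2 - 2 * (p1 + p2 + p3) * (p1 * p2 * p3)) +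
      y ^ 3 * (p1 * p2 * p3) + y ^ 2 * w * (p1 * p2 * p3) * (p1 + p2 + p3) +
      y * w ^ 2 * (p1 * p2 * p3) * (p1 * p2 + p1 * p3 + p2 * p3) + w ^ 3 * (p1 * p2 * p3) ^ 2 := by
    simp only [ev]
    ring
  rw [e, h1, h2, h3]
  simp only [nm]
  push_cast
  ring

end

end Pool.Agent.R425
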