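import Pool.Agent.R425.Tri

/-!
# Congruences for the norm form
-/

set_option autoImplicit false
set_option linter.all false

open Polynomial

namespace Pool.Agent.R425

/-- the product modulo 8 -/
def muN (a b : ℕ × ℕ × ℕ) : ℕ × ℕ × ℕ :=
  ((a.1 * b.1 + 2 * (a.2.1 * b.2.2 + a.2.2 * b.2.1) + 8 * (a.2.2 * b.2.2)) % 8,
   (a.1 * b.2.1 + a.2.1 * b.1 + 2 * (a.2.1 * b.2.2 + a.2.2 * b.2.1) + 2 * (a.2.2 * b.2.2)) % 8,
   (a.1 * b.2.2 + a.2.1 * b.2.1 + a.2.2 * b.1 + 4 * (a.2.1 * b.2.2 + a.2.2 * b.2.1)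
     + 2 * (a.2.2 * b.2.2)) % 8)

/-- the norm modulo 8 -/
def nmN (x y w : ℕ) : ℕ := (x ^ 3 + 4 * x ^ 2 * y + 4 * x ^ 2 * w + 6 * x * y ^ 2 + 2 * x * y * w +
  4 * x * w ^ 2 + 2 * y ^ 3 + 4 * y * w ^ 2 + 4 * w ^ 3) % 8

/-- the check -/
def chk : Bool := (List.range 8).all fun x => (List.range 8).all fun y => (List.range 8).all fun w =>
  nmN x y w != 1 || ([(1,0,0),(1,7,0)].any fun u => [(1,0,0),(1,2,2)].any fun D =>
    (List.range 4).any fun j => (List.range 4).any fun k =>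
      muN (x,y,w) u == muN (muN (1,j,k) (1,j,k)) D)

theorem chk_true : chk = true := by decide

/-- congruence modulo 8 -/
def rel (n : ℕ × ℕ × ℕ) (a : ℤ × ℤ × ℤ) : Prop :=
  ((n.1 : ℕ) : ZMod 8) = ((a.1 : ℤ) : ZMod 8) ∧ ((n.2.1 : ℕ) : ZMod 8) = ((a.2.1 : ℤ) : ZMod 8) ∧
    ((n.2.2 : ℕ) : ZMod 8) = ((a.2.2 : ℤ) : ZMod 8)

theorem eight_zero : (8 : ZMod 8) = 0 := rfl

theorem rel_mu {n m : ℕ × ℕ × ℕ} {a b : ℤ × ℤ × ℤ} (h : rel n a) (h' : rel m b) :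
    rel (muN n m) (mu a b) := by
  obtain ⟨n0, n1, n2⟩ := n
  obtain ⟨m0, m1, m2⟩ := m
  obtain ⟨a0, a1, a2⟩ := a
  obtain ⟨b0, b1, b2⟩ := b
  obtain ⟨h0, h1, h2⟩ := h
  obtain ⟨k0, k1, k2⟩ := h'
  simp only at h0 h1 h2 k0 k1 k2
  have h8 := eight_zero
  refine ⟨?_, ?_, ?_⟩
  · simp only [muN, mu, ZMod.natCast_mod]
    push_cast
    rw [h0, h1, h2, k0, k1, k2]
  · simp only [muN, mu, ZMod.natCast_mod]
    push_cast
    rw [h0, h1, h2, k0, k1, k2]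
    linear_combination (((a1 : ZMod 8) * b2 + a2 * b1) + 3 * (a2 : ZMod 8) * b2) * h8
  · simp only [muN, mu, ZMod.natCast_mod]
    push_cast
    rw [h0, h1, h2, k0, k1, k2]
    linear_combination (-(a2 : ZMod 8) * b2) * h8

theorem rel_nm {n : ℕ × ℕ × ℕ} {a : ℤ × ℤ × ℤ} (h : rel n a) :
    ((nmN n.1 n.2.1 n.2.2 : ℕ) : ZMod 8) = ((nm a : ℤ) : ZMod 8) := by
  obtain ⟨n0, n1, n2⟩ := n
  obtain ⟨a0, a1, a2⟩ := a
  obtain ⟨h0, h1, h2⟩ := h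
  simp only at h0 h1 h2
  have h8 := eight_zero
  simp only [nmN, nm, ZMod.natCast_mod]
  push_cast
  rw [h0, h1, h2]
  linear_combination (-(2 * (a0 : ZMod 8) * a1 * a2 + 2 * a0 * a2 ^ 2 + a1 ^ 2 * a2 +
    a1 * a2 ^ 2)) * h8

theorem exists_rel (a : ℤ × ℤ × ℤ) : ∃ x y w : ℕ, x < 8 ∧ y < 8 ∧ w < 8 ∧ rel (x, y, w) a := by
  have h : ∀ z : ℤ, ∃ n : ℕ, n < 8 ∧ ((n : ℕ) : ZMod 8) = ((z : ℤ) : ZMod 8) := by
    intro z
    refine ⟨(z % 8).toNat, ?_, ?_⟩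
    · omega
    · have h1 : (((z % 8).toNat : ℕ) : ℤ) = z % 8 := Int.toNat_of_nonneg (by omega)
      have h2 : (((z % 8).toNat : ℕ) : ZMod 8) = ((((z % 8).toNat : ℕ) : ℤ) : ZMod 8) := by
        rw [Int.cast_natCast]
      rw [h2, h1]
      exact ZMod.intCast_mod z 8
  obtain ⟨x, hx, hx'⟩ := h a.1
  obtain ⟨y, hy, hy'⟩ := h a.2.1
  obtain ⟨w, hw, hw'⟩ := h a.2.2
  exact ⟨x, y, w, hx, hy, hw, hx', hy', hw'⟩

/-- the unit `1 - π` or `1` -/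
def uu (b : Bool) : ℤ × ℤ × ℤ := if b then (1, -1, 0) else (1, 0, 0)

/-- `1`, or `5 - θ` -/
def dd (d : Bool) : ℤ × ℤ × ℤ := if d then (-23, 26, -6) else (1, 0, 0)

/-- The classes at two. -/
theorem two_cls (a : ℤ × ℤ × ℤ) (h : nm a % 8 = 1) : ∃ (b d : Bool) (s t : ℤ × ℤ × ℤ), Odd s.1 ∧
    mu a (uu b) = ((mu (mu s s) (dd d)).1 + 8 * t.1, (mu (mu s s) (dd d)).2.1 + 8 * t.2.1,
      (mu (mu s s) (dd d)).2.2 + 8 * t.2.2) := by
  obtain ⟨x, y, w, hx, hy, hw, hr⟩ := exists_rel a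
  have h1 := chk_true
  simp only [chk, List.all_eq_true, List.mem_range] at h1
  have h2 := h1 x hx y hy w hw
  have hn : nmN x y w = 1 := by
    have h3 := rel_nm hr
    simp only at h3
    have h4 : ((nm a : ℤ) : ZMod 8) = ((nm a % 8 : ℤ) : ZMod 8) := (ZMod.intCast_mod (nm a) 8).symm
    rw [h4, h] at h3
    have h5 : nmN x y w < 8 := Nat.mod_lt _ (by norm_num)
    have h6 : (nmN x y w : ZMod 8) = ((1 : ℕ) : ZMod 8) := by rw [h3]; norm_num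
    rw [ZMod.natCast_eq_natCast_iff'] at h6
    omega
  rw [Bool.or_eq_true] at h2
  rcases h2 with h2 | h2
  · rw [hn] at h2
    exact absurd h2 (by decide)
  simp only [List.any_eq_true, List.mem_range] at h2
  obtain ⟨u, hu, D, hD, j, hj, k, hk, he⟩ := h2
  have he' : muN (x, y, w) u = muN (muN (1, j, k) (1, j, k)) D := by
    simpa using he
  obtain ⟨b, hb⟩ : ∃ b : Bool, rel u (uu b) := by
    simp only [List.mem_cons, List.not_mem_nil, or_false] at hu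
    rcases hu with rfl | rfl
    · exact ⟨false, by unfold rel uu; decide⟩
    · exact ⟨true, by unfold rel uu; decide⟩
  obtain ⟨d, hd⟩ : ∃ d : Bool, rel D (dd d) := by
    simp only [List.mem_cons, List.not_mem_nil, or_false] at hD
    rcases hD with rfl | rfl
    · exact ⟨false, by unfold rel dd; decide⟩
    · exact ⟨true, by unfold rel dd; decide⟩
  have hs : rel (1, j, k) (1, (j : ℤ), (k : ℤ)) := ⟨by simp, by simp, by simp⟩
  have r1 := rel_mu hr hb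
  have r2 := rel_mu (rel_mu hs hs) hd
  rw [← he'] at r2
  obtain ⟨p0, p1, p2⟩ := r1
  obtain ⟨q0, q1, q2⟩ := r2
  have key : ∀ {n m : ℤ} {N : ZMod 8}, N = ((n : ℤ) : ZMod 8) → N = ((m : ℤ) : ZMod 8) →
      ∃ t : ℤ, n = m + 8 * t := by
    intro n m N h1 h2
    have h3 : ((n : ℤ) : ZMod 8) = ((m : ℤ) : ZMod 8) := h1.symm.trans h2
    rw [ZMod.intCast_eq_intCast_iff_dvd_sub] at h3
    obtain ⟨t, ht⟩ := h3
    exact ⟨-t, by push_cast at ht; linarith⟩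
  obtain ⟨t0, e0⟩ := key p0 q0
  obtain ⟨t1, e1⟩ := key p1 q1
  obtain ⟨t2, e2⟩ := key p2 q2
  refine ⟨b, d, (1, (j : ℤ), (k : ℤ)), (t0, t1, t2), odd_one, ?_⟩
  refine Prod.ext e0 (Prod.ext e1 e2)

theorem sq11 : ∀ n : ZMod 11, n ≠ 0 → (∃ m : ZMod 11, m ≠ 0 ∧ n = m ^ 2) ∨
      ∃ m : ZMod 11, m ≠ 0 ∧ n = 2 * m ^ 2 := by decide

theorem nine11 : (9 : ZMod 11) ≠ 0 := by decide

/-- The classes at eleven. -/
theorem eleven_cls (a : ℤ × ℤ × ℤ) (L : ℤ) (h : nm a = L ^ 2) (hL : ¬ (11 : ℤ) ∣ L) :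
    ∃ d : Bool, ∀ r : ℤ, r = 4 ∨ r = 7 → ∃ m : ℤ, ¬ (11 : ℤ) ∣ m ∧
      (11 : ℤ) ∣ ev r a - m ^ 2 * (if d then -(28 - 26 * r + 6 * r ^ 2) else 1) := by
  obtain ⟨x, y, w⟩ := a
  have hF : Fact (Nat.Prime 11) := ⟨by norm_num⟩
  have c0 : ∀ n : ℤ, ((n : ℤ) : ZMod 11) = 0 ↔ (11 : ℤ) ∣ n := fun n =>
    ZMod.intCast_zmod_eq_zero_iff_dvd n 11
  have hL' : ((L : ℤ) : ZMod 11) ≠ 0 := fun h' => hL ((c0 L).1 h')
  set n1 : ZMod 11 := ((x + y * 4 + w * 4 ^ 2 : ℤ) : ZMod 11) with hn1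
  set n2 : ZMod 11 := ((x + y * 7 + w * 7 ^ 2 : ℤ) : ZMod 11) with hn2
  have h11 : (11 : ZMod 11) = 0 := rfl
  have hprod : n1 ^ 2 * n2 = ((L : ℤ) : ZMod 11) ^ 2 := by
    have h1 : ((nm (x, y, w) : ℤ) : ZMod 11) = ((L : ℤ) : ZMod 11) ^ 2 := by rw [h]; push_cast; ring
    rw [← h1, hn1, hn2]
    simp only [nm]
    push_cast
    linear_combination ((x : ZMod 11) ^ 2 * y + 7 * x ^ 2 * w + 6 * x * y ^ 2 + 66 * x * y * w +
      164 * x * w ^ 2 + 10 * y ^ 3 + 152 * y ^ 2 * w + 732 * y * w ^ 2 + 1140 * w ^ 3) * h11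
  have hn1' : n1 ≠ 0 := by
    intro h'
    rw [h'] at hprod
    apply hL'
    have : ((L : ℤ) : ZMod 11) ^ 2 = 0 := by rw [← hprod]; ring
    exact pow_eq_zero_iff (by norm_num) |>.1 this
  obtain ⟨m2, hm20, hm2⟩ : ∃ m : ZMod 11, m ≠ 0 ∧ n2 = m ^ 2 :=
    ⟨(L : ZMod 11) / n1, div_ne_zero hL' hn1', by
      rw [div_pow, ← hprod, mul_comm, mul_div_assoc, div_self (pow_ne_zero 2 hn1'), mul_one]⟩
  have lift : ∀ m : ZMod 11, m ≠ 0 → ∃ M : ℤ, ¬ (11 : ℤ) ∣ M ∧ ((M : ℤ) : ZMod 11) = m := by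
    intro m hm
    refine ⟨(m.val : ℤ), ?_, ?_⟩
    · intro h'
      apply hm
      have h1 := (c0 _).2 h'
      rw [Int.cast_natCast, ZMod.natCast_val, ZMod.cast_id] at h1
      exact h1
    · rw [Int.cast_natCast, ZMod.natCast_val, ZMod.cast_id]
  rcases sq11 n1 hn1' with ⟨m1, hm10, hm1⟩ | ⟨m1, hm10, hm1⟩
  · refine ⟨false, ?_⟩
    rintro r (rfl | rfl)
    · obtain ⟨M, hM, hMe⟩ := lift m1 hm10
      refine ⟨M, hM, (c0 _).1 ?_⟩
      simp only [ev, Bool.false_eq_true, if_false]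
      push_cast
      rw [hMe, ← mul_one (m1 ^ 2)] 
      rw [hn1] at hm1
      push_cast at hm1
      linear_combination hm1
    · obtain ⟨M, hM, hMe⟩ := lift m2 hm20
      refine ⟨M, hM, (c0 _).1 ?_⟩
      simp only [ev, Bool.false_eq_true, if_false]
      push_cast
      rw [hMe]
      rw [hn2] at hm2
      push_cast at hm2
      linear_combination hm2
  · refine ⟨true, ?_⟩
    rintro r (rfl | rfl)
    · obtain ⟨M, hM, hMe⟩ := lift m1 hm10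
      refine ⟨M, hM, (c0 _).1 ?_⟩
      simp only [ev, if_true]
      push_cast
      rw [hMe]
      rw [hn1] at hm1
      push_cast at hm1
      linear_combination hm1 + 2 * m1 ^ 2 * h11
    · have h9 : (9 : ZMod 11) ≠ 0 := nine11
      obtain ⟨M, hM, hMe⟩ := lift (9 * m2) (mul_ne_zero h9 hm20)
      refine ⟨M, hM, (c0 _).1 ?_⟩
      simp only [ev, if_true]
      push_cast
      rw [hMe]
      rw [hn2] at hm2
      push_cast at hm2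
      linear_combination hm2 + 1031 * m2 ^ 2 * h11

end Pool.Agent.R425
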