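import Pool.Agent.R425.Tri2
import Pool.Agent.Y180.Y702.Cubic
import Pool.Agent.TH115.TC.Roots

/-!
# The element of the cubic field of discriminant `-44` given by a prime ideal of degree one
-/

set_option autoImplicit false
set_option linter.all false

open Polynomial NumberField Module

namespace Pool.Agent.R425

open Pool.Agent.Y180.Y702 (exists_basis integ discr_b resid prime_p p_ne absNorm_p pid coe_root
  discr_facts)

section field

variable {A : Type} [Field A] [NumberField A]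

theorem ev_coe (q : 𝓞 A) (a : ℤ × ℤ × ℤ) :
    algebraMap (𝓞 A) A (ev q a) = ev (algebraMap (𝓞 A) A q) a := ev_map (algebraMap (𝓞 A) A) q a

theorem ev_inj (hk : finrank ℚ A = 3) {q : 𝓞 A} (hq : q ^ 3 - 4 * q ^ 2 + 6 * q - 2 = 0)
    {a a' : ℤ × ℤ × ℤ} (h : ev q a = ev q a') : a = a' := by
  obtain ⟨b, hb⟩ := exists_basis hk (coe_root hq)
  obtain ⟨a0, a1, a2⟩ := a
  obtain ⟨c0, c1, c2⟩ := a'
  have h1 := congrArg (algebraMap (𝓞 A) A) h
  rw [ev_coe, ev_coe] at h1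
  simp only [ev] at h1
  have h2 : ∑ i, (![(a0 : ℚ), a1, a2] i) • b i = ∑ i, (![(c0 : ℚ), c1, c2] i) • b i := by
    rw [Fin.sum_univ_three, Fin.sum_univ_three]
    simp only [hb, Algebra.smul_def]
    simp
    linear_combination h1
  have h3 := congrArg (fun x => b.repr x) h2
  have h4 : ∀ i, ![(a0 : ℚ), a1, a2] i = ![(c0 : ℚ), c1, c2] i := by
    intro i
    have := congrArg (fun f => f i) h3
    simp only [Basis.repr_sum_self] at this
    exact this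
  have e0 := h4 0
  have e1 := h4 1
  have e2 := h4 2
  simp at e0 e1 e2
  rw [e0, e1, e2]

theorem coords (hk : finrank ℚ A = 3) {q : 𝓞 A} (hq : q ^ 3 - 4 * q ^ 2 + 6 * q - 2 = 0)
    (z : 𝓞 A) : ∃ a : ℤ × ℤ × ℤ, z = ev q a := by
  obtain ⟨b, hb⟩ := exists_basis hk (coe_root hq)
  obtain ⟨m, hm, hm0, hz⟩ := MZ413.exists_index b (fun i => q ^ (i : ℕ)) (fun i => by
    rw [hb, map_pow]) (-44) (discr_b (coe_root hq) b hb)
  obtain ⟨c, hc⟩ := hz z
  rw [Fin.sum_univ_three] at hc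
  simp only [Fin.val_zero, Fin.val_one, Fin.val_two, pow_zero, pow_one, mul_one] at hc
  have hq0 := p_ne hq
  have hnu := Pool.Agent.Y180.Y702.not_unit_p hk hq
  obtain ⟨e, he⟩ : ∃ e : 𝓞 A, 2 = q ^ 3 * e := ⟨7 * q ^ 2 - 25 * q + 31, by
    linear_combination (-(7 * q ^ 2 + 3 * q + 1)) * hq⟩
  have hev : ∀ c : ℤ, q ∣ (c : 𝓞 A) → ∃ k : ℤ, c = 2 * k := by
    intro c hc
    rcases Int.even_or_odd c with ⟨k, hk⟩ | ⟨k, hk⟩
    · exact ⟨k, by rw [hk]; ring⟩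
    · exfalso
      apply hnu
      apply isUnit_of_dvd_one
      have h1 : (1 : 𝓞 A) = (c : 𝓞 A) - q * (q ^ 2 * e * k) := by
        rw [hk]
        push_cast
        linear_combination (-(k : 𝓞 A)) * he
      rw [h1]
      exact dvd_sub hc (dvd_mul_right _ _)
  have key : ∀ (w : 𝓞 A) (c0 c1 c2 : ℤ), 2 * w = c0 + c1 * q + c2 * q ^ 2 →
      ∃ a : ℤ × ℤ × ℤ, w = ev q a := by
    intro w c0 c1 c2 h
    obtain ⟨k0, hk0⟩ := hev c0 ⟨q ^ 2 * e * w - c1 - c2 * q, by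
      linear_combination -h + w * he⟩
    have h1 : (c1 : 𝓞 A) + c2 * q = q ^ 2 * e * (w - k0) := by
      apply mul_left_cancel₀ hq0
      rw [hk0] at h
      push_cast at h
      linear_combination -h + (w - k0) * he
    obtain ⟨k1, hk1⟩ := hev c1 ⟨q * e * (w - k0) - c2, by linear_combination h1⟩
    have h2 : (c2 : 𝓞 A) = q * (e * (w - k0) - q * e * k1) := by
      apply mul_left_cancel₀ hq0
      rw [hk1] at h1
      push_cast at h1
      linear_combination h1 - k1 * he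
    obtain ⟨k2, hk2⟩ := hev c2 ⟨_, h2⟩
    refine ⟨(k0, k1, k2), ?_⟩
    have h20 : (2 : 𝓞 A) ≠ 0 := two_ne_zero
    apply mul_left_cancel₀ h20
    rw [h, hk0, hk1, hk2]
    simp only [ev]
    push_cast
    ring
  have hm4 : m ^ 2 ∣ 44 := ⟨-discr A, by linear_combination hm⟩
  have hmc : m = 1 ∨ m = -1 ∨ m = 2 ∨ m = -2 := by
    have h1 : m ^ 2 ≤ 44 := Int.le_of_dvd (by norm_num) hm4
    have h2 : m ≤ 6 := by nlinarith
    have h3 : -6 ≤ m := by nlinarith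
    interval_cases m <;> simp_all <;> norm_num at hm4
  rcases hmc with rfl | rfl | rfl | rfl
  · refine ⟨(c 0, c 1, c 2), ?_⟩
    simp only [ev]
    push_cast at hc
    linear_combination hc
  · refine ⟨(-c 0, -c 1, -c 2), ?_⟩
    simp only [ev]
    push_cast at hc ⊢
    linear_combination -hc
  · exact key z (c 0) (c 1) (c 2) (by push_cast at hc; linear_combination hc)
  · obtain ⟨a, ha⟩ := key z (-c 0) (-c 1) (-c 2) (by push_cast at hc ⊢; linear_combination -hc)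
    exact ⟨a, ha⟩

/-- The norm form is the norm. -/
theorem norm_ev (hk : finrank ℚ A = 3) {π : A} (hπ : π ^ 3 - 4 * π ^ 2 + 6 * π - 2 = 0)
    (a : ℤ × ℤ × ℤ) : Algebra.norm ℚ (ev π a) = nm a := by
  obtain ⟨b, hb⟩ := exists_basis hk hπ
  obtain ⟨x, y, w⟩ := a
  rw [Algebra.norm_eq_matrix_det b]
  have h : Algebra.leftMulMatrix b (ev π (x, y, w)) =
      !![(x : ℚ), 2 * w, 2 * y + 8 * w; (y : ℚ), x - 6 * w, -6 * y - 22 * w;
        (w : ℚ), y + 4 * w, x + 4 * y + 10 * w] := by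
    ext i j
    rw [Algebra.leftMulMatrix_eq_repr_mul]
    have e : (ev π (x, y, w)) * b j = ∑ l, (!![(x : ℚ), 2 * w, 2 * y + 8 * w;
        (y : ℚ), x - 6 * w, -6 * y - 22 * w;
        (w : ℚ), y + 4 * w, x + 4 * y + 10 * w] : Matrix (Fin 3) (Fin 3) ℚ) l j • b l := by
      rw [Fin.sum_univ_three]
      simp only [hb, ev]
      fin_cases j <;> simp [Algebra.smul_def]
      · linear_combination (w : A) * hπ
      · linear_combination ((y : A) + 4 * w + w * π) * hπ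
    rw [e]
    simp [Finsupp.single_apply, Fin.sum_univ_three]
    fin_cases i <;> fin_cases j <;> simp
  rw [h, Matrix.det_fin_three]
  simp only [nm]
  simp
  ring

theorem absNorm_ev (hk : finrank ℚ A = 3) {q : 𝓞 A} (hq : q ^ 3 - 4 * q ^ 2 + 6 * q - 2 = 0)
    (a : ℤ × ℤ × ℤ) : Ideal.absNorm (Ideal.span {ev q a}) = (nm a).natAbs := by
  rw [Ideal.absNorm_span_singleton]
  congr 1
  have h : (Algebra.norm ℤ (ev q a) : ℚ) = (nm a : ℚ) := by
    rw [Algebra.coe_norm_int, ← norm_ev hk (coe_root hq) a, ← ev_coe]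
  exact_mod_cast h

/-- The residue field of a prime ideal of degree one. -/
theorem absNorm_I (hk : finrank ℚ A = 3) {q : 𝓞 A} (hq : q ^ 3 - 4 * q ^ 2 + 6 * q - 2 = 0)
    {l : ℕ} (hl : l.Prime) {n : ℤ} (hn : (l : ℤ) ∣ n ^ 3 - 4 * n ^ 2 + 6 * n - 2) :
    Ideal.absNorm (Ideal.span {(l : 𝓞 A), q - n}) = l := by
  set I : Ideal (𝓞 A) := Ideal.span {(l : 𝓞 A), q - n} with hI
  have hlI : (l : 𝓞 A) ∈ I := Ideal.subset_span (by simp)
  have hqI : q - n ∈ I := Ideal.subset_span (by simp)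
  have hF : Fact l.Prime := ⟨hl⟩
  have htop : I ≠ ⊤ := by
    intro h
    have h1 : (1 : 𝓞 A) ∈ I := by rw [h]; trivial
    rw [hI, Ideal.mem_span_pair] at h1
    obtain ⟨x, y, hxy⟩ := h1
    obtain ⟨a, rfl⟩ := coords hk hq x
    obtain ⟨b, rfl⟩ := coords hk hq y
    have h2 : ev q ((1 : ℤ), (0 : ℤ), (0 : ℤ)) =
        ev q (mu a ((l : ℤ), 0, 0)) + ev q (mu b (-n, 1, 0)) := by
      rw [ev_mu hq, ev_mu hq]
      have e1 : ev q ((l : ℤ), (0 : ℤ), (0 : ℤ)) = (l : 𝓞 A) := by simp [ev]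
      have e2 : ev q ((-n : ℤ), (1 : ℤ), (0 : ℤ)) = q - n := by simp [ev]; ring
      have e3 : ev q ((1 : ℤ), (0 : ℤ), (0 : ℤ)) = (1 : 𝓞 A) := by simp [ev]
      rw [e1, e2, e3, hxy]
    have h3 : ev q ((1 : ℤ), (0 : ℤ), (0 : ℤ)) = ev q
        ((mu a ((l : ℤ), 0, 0)).1 + (mu b (-n, 1, 0)).1,
         (mu a ((l : ℤ), 0, 0)).2.1 + (mu b (-n, 1, 0)).2.1,
         (mu a ((l : ℤ), 0, 0)).2.2 + (mu b (-n, 1, 0)).2.2) := by
      rw [h2]
      simp only [ev]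
      push_cast
      ring
    have h4 := ev_inj hk hq h3
    -- evaluate at `n` modulo `l`
    have hp : ((n : ℤ) : ZMod l) ^ 3 - 4 * ((n : ℤ) : ZMod l) ^ 2 + 6 * ((n : ℤ) : ZMod l) - 2 = 0 := by
      have := (ZMod.intCast_zmod_eq_zero_iff_dvd _ l).2 hn
      push_cast at this
      exact this
    have h5 := congrArg (ev ((n : ℤ) : ZMod l)) h4
    have h6 : ev ((n : ℤ) : ZMod l) ((mu a ((l : ℤ), 0, 0)).1 + (mu b (-n, 1, 0)).1,
         (mu a ((l : ℤ), 0, 0)).2.1 + (mu b (-n, 1, 0)).2.1,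
         (mu a ((l : ℤ), 0, 0)).2.2 + (mu b (-n, 1, 0)).2.2) =
        ev ((n : ℤ) : ZMod l) (mu a ((l : ℤ), 0, 0)) + ev ((n : ℤ) : ZMod l) (mu b (-n, 1, 0)) := by
      simp only [ev]
      push_cast
      ring
    rw [h6, ev_mu hp, ev_mu hp] at h5
    have e1 : ev ((n : ℤ) : ZMod l) ((l : ℤ), (0 : ℤ), (0 : ℤ)) = 0 := by simp [ev]
    have e2 : ev ((n : ℤ) : ZMod l) ((-n : ℤ), (1 : ℤ), (0 : ℤ)) = 0 := by simp [ev]
    have e3 : ev ((n : ℤ) : ZMod l) ((1 : ℤ), (0 : ℤ), (0 : ℤ)) = 1 := by simp [ev]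
    rw [e1, e2, e3] at h5
    simp at h5
  have hnt : Nontrivial (𝓞 A ⧸ I) := Ideal.Quotient.nontrivial_iff.2 htop
  have hchar : CharP (𝓞 A ⧸ I) l := by
    refine (CharP.charP_iff_prime_eq_zero hl).2 ?_
    rw [← map_natCast (Ideal.Quotient.mk I), Ideal.Quotient.eq_zero_iff_mem]
    exact hlI
  have hsurj : Function.Surjective (ZMod.castHom (dvd_refl l) (𝓞 A ⧸ I)) := by
    intro x
    obtain ⟨z, rfl⟩ := Ideal.Quotient.mk_surjective x
    obtain ⟨a, rfl⟩ := coords hk hq z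
    refine ⟨((ev n a : ℤ) : ZMod l), ?_⟩
    rw [map_intCast, ← map_intCast (Ideal.Quotient.mk I), Ideal.Quotient.mk_eq_mk_iff_sub_mem]
    have e : (((ev n a : ℤ) : 𝓞 A)) - ev q a =
        (q - n) * (-((a.2.1 : 𝓞 A) + a.2.2 * (q + n))) := by
      simp only [ev]
      push_cast
      ring
    rw [e]
    exact I.mul_mem_right _ hqI
  have hbij : Function.Bijective (ZMod.castHom (dvd_refl l) (𝓞 A ⧸ I)) :=
    ⟨RingHom.injective _, hsurj⟩
  rw [Ideal.absNorm_apply, Submodule.cardQuot_apply]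
  have h1 := Nat.card_congr (Equiv.ofBijective _ hbij)
  rw [Nat.card_zmod] at h1
  exact h1.symm

end field

/-- Reduction modulo `l`: a square that vanishes modulo `l`. -/
theorem red_zero {l : ℕ} (hl : l.Prime) (h2 : l ≠ 2) (h11 : l ≠ 11) (P a : ℤ × ℤ × ℤ)
    (h : mu P P = ((l : ℤ) * a.1, (l : ℤ) * a.2.1, (l : ℤ) * a.2.2)) : (l : ℤ) ^ 3 ∣ nm P := by
  have hF : Fact l.Prime := ⟨hl⟩
  set f : (ZMod l)[X] := X ^ 3 + C (-4) * X ^ 2 + C 6 * X + C (-2) with hf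
  have h44 : (-4 : ZMod l) ^ 2 * 6 ^ 2 - 4 * 6 ^ 3 - 4 * (-4) ^ 3 * (-2) - 27 * (-2) ^ 2 +
      18 * (-4) * 6 * (-2) ≠ 0 := by
    intro h'
    have h1 : ((44 : ℕ) : ZMod l) = 0 := by
      push_cast
      linear_combination -h'
    rw [ZMod.natCast_eq_zero_iff] at h1
    have h3 : l ∣ 2 * 2 * 11 := by norm_num; exact h1
    rcases (Nat.Prime.dvd_mul hl).1 h3 with h4 | h4
    · rcases (Nat.Prime.dvd_mul hl).1 h4 with h5 | h5 <;>
        exact h2 ((Nat.prime_dvd_prime_iff_eq hl Nat.prime_two).1 h5)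
    · exact h11 ((Nat.prime_dvd_prime_iff_eq hl (by norm_num)).1 h4)
  have hsep : f.Separable := Pool.Agent.TH115.GD.cub_separable h44
  have hsq : Squarefree f := hsep.squarefree
  have hdeg : f.degree = 3 := by
    rw [hf]; compute_degree!
  set p : AdjoinRoot f := AdjoinRoot.root f with hp
  have hpf : p ^ 3 - 4 * p ^ 2 + 6 * p - 2 = 0 := by
    have h1 : AdjoinRoot.mk f f = 0 := AdjoinRoot.mk_self
    rw [hf] at h1
    simp only [map_add, map_mul, map_pow, AdjoinRoot.mk_X, AdjoinRoot.mk_C, map_neg,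
      map_ofNat] at h1
    linear_combination h1
  set Q : (ZMod l)[X] := C ((P.1 : ℤ) : ZMod l) + C ((P.2.1 : ℤ) : ZMod l) * X +
    C ((P.2.2 : ℤ) : ZMod l) * X ^ 2 with hQ
  have hlz : (l : AdjoinRoot f) = 0 := by
    have h1 : ((l : ℕ) : AdjoinRoot f) = AdjoinRoot.of f ((l : ℕ) : ZMod l) := by
      rw [map_natCast]
    rw [h1, CharP.cast_eq_zero, map_zero]
  have hev : AdjoinRoot.mk f Q = ev p P := by
    rw [hQ]
    simp only [map_add, map_mul, map_pow, AdjoinRoot.mk_X, AdjoinRoot.mk_C, map_intCast, ev]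
    rfl
  have h1 : AdjoinRoot.mk f (Q ^ 2) = 0 := by
    rw [map_pow, hev, pow_two, ← ev_mu hpf, h]
    simp only [ev]
    push_cast
    rw [hlz]
    ring
  rw [AdjoinRoot.mk_eq_zero] at h1
  have h3 : f ∣ Q := (hsq.dvd_pow_iff_dvd (by norm_num)).1 h1
  have hQ0 : Q = 0 := by
    apply eq_zero_of_dvd_of_degree_lt h3
    have hdQ : Q.degree ≤ 2 := by
      rw [hQ]
      compute_degree
    rw [hdeg]
    exact lt_of_le_of_lt hdQ (by norm_cast)
  have hc0 : ((P.1 : ℤ) : ZMod l) = 0 := by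
    have := congrArg (fun r => coeff r 0) hQ0
    simp only [hQ, coeff_add, coeff_C_mul, coeff_C, coeff_X, coeff_X_pow, coeff_zero] at this
    norm_num at this
    exact this
  have hc1 : ((P.2.1 : ℤ) : ZMod l) = 0 := by
    have := congrArg (fun r => coeff r 1) hQ0
    simp only [hQ, coeff_add, coeff_C_mul, coeff_C, coeff_X, coeff_X_pow, coeff_zero] at this
    norm_num at this
    exact this
  have hc2 : ((P.2.2 : ℤ) : ZMod l) = 0 := by
    have := congrArg (fun r => coeff r 2) hQ0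
    simp only [hQ, coeff_add, coeff_C_mul, coeff_C, coeff_X, coeff_X_pow, coeff_zero] at this
    norm_num at this
    exact this
  obtain ⟨k0, e0⟩ := (ZMod.intCast_zmod_eq_zero_iff_dvd _ l).1 hc0
  obtain ⟨k1, e1⟩ := (ZMod.intCast_zmod_eq_zero_iff_dvd _ l).1 hc1
  obtain ⟨k2, e2⟩ := (ZMod.intCast_zmod_eq_zero_iff_dvd _ l).1 hc2
  refine ⟨nm (k0, k1, k2), ?_⟩
  obtain ⟨x, y, w⟩ := P
  simp only at e0 e1 e2
  rw [e0, e1, e2]
  simp only [nm]
  ring

section field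

variable {A : Type} [Field A] [NumberField A]

/-- The element given by a prime ideal of degree one. -/
theorem zel (hk : finrank ℚ A = 3) {q : 𝓞 A} (hq : q ^ 3 - 4 * q ^ 2 + 6 * q - 2 = 0)
    {l : ℕ} (hl : l.Prime) (h2 : l ≠ 2) (h11 : l ≠ 11) {n : ℤ}
    (hn : (l : ℤ) ∣ n ^ 3 - 4 * n ^ 2 + 6 * n - 2) :
    ∃ (ρ γ β z : ℤ × ℤ × ℤ) (b d : Bool) (s t : ℤ × ℤ × ℤ), mu ρ γ = ((l : ℤ), 0, 0) ∧
      mu ρ β = (-n, 1, 0) ∧ (nm ρ = l ∨ nm ρ = -l) ∧ nm z = (l : ℤ) ^ 2 ∧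
      (z = mu γ (uu b) ∨ z = mu (-γ.1, -γ.2.1, -γ.2.2) (uu b)) ∧ Odd s.1 ∧
      z = ((mu (mu s s) (dd d)).1 + 8 * t.1, (mu (mu s s) (dd d)).2.1 + 8 * t.2.1,
        (mu (mu s s) (dd d)).2.2 + 8 * t.2.2) ∧ ∀ u : ℤ × ℤ × ℤ, mu u u ≠ z := by
  have hnorm := absNorm_I hk hq hl hn
  have hpid := pid hk hq
  obtain ⟨r, hr⟩ := (IsPrincipalIdealRing.principal
    (Ideal.span {(l : 𝓞 A), q - n})).principal
  have hr' : Ideal.span {(l : 𝓞 A), q - n} = Ideal.span {r} := hr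
  obtain ⟨ρ, rfl⟩ := coords hk hq r
  have h1 : (l : 𝓞 A) ∈ Ideal.span {ev q ρ} := by
    rw [← hr']
    exact Ideal.subset_span (by simp)
  have h3 : q - n ∈ Ideal.span {ev q ρ} := by
    rw [← hr']
    exact Ideal.subset_span (by simp)
  rw [Ideal.mem_span_singleton] at h1 h3
  obtain ⟨g, hg⟩ := h1
  obtain ⟨β', hβ'⟩ := h3
  obtain ⟨γ, rfl⟩ := coords hk hq g
  obtain ⟨β, rfl⟩ := coords hk hq β'
  have eγ : mu ρ γ = ((l : ℤ), 0, 0) := by
    apply ev_inj hk hq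
    rw [ev_mu hq, ← hg]
    simp [ev]
  have eβ : mu ρ β = (-n, 1, 0) := by
    apply ev_inj hk hq
    rw [ev_mu hq, ← hβ']
    simp [ev]
    ring
  have hnρ : nm ρ = l ∨ nm ρ = -l := by
    rw [hr', absNorm_ev hk hq] at hnorm
    rcases Int.natAbs_eq (nm ρ) with h | h
    · left; rw [h, hnorm]
    · right; rw [h, hnorm]
  have hl0 : (l : ℤ) ≠ 0 := by exact_mod_cast hl.ne_zero
  have hnγ : nm ρ * nm γ = (l : ℤ) ^ 3 := by
    rw [← nm_mu, eγ]
    simp [nm]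
  obtain ⟨γ', hγ', hnγ'⟩ : ∃ γ' : ℤ × ℤ × ℤ, (γ' = γ ∨ γ' = (-γ.1, -γ.2.1, -γ.2.2)) ∧
      nm γ' = (l : ℤ) ^ 2 := by
    rcases hnρ with h | h
    · refine ⟨γ, Or.inl rfl, ?_⟩
      rw [h] at hnγ
      apply mul_left_cancel₀ hl0
      rw [hnγ]; ring
    · refine ⟨_, Or.inr rfl, ?_⟩
      rw [h] at hnγ
      have e : nm (-γ.1, -γ.2.1, -γ.2.2) = - nm γ := by
        simp only [nm]; ring
      rw [e]
      apply mul_left_cancel₀ hl0
      linear_combination hnγ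
  have hodd : (l : ℤ) ^ 2 % 8 = 1 := by
    have h5 : (l : ℤ) % 2 = 1 := by
      have := hl.eq_two_or_odd
      omega
    have h6 : (l : ℤ) % 8 = 1 ∨ (l : ℤ) % 8 = 3 ∨ (l : ℤ) % 8 = 5 ∨ (l : ℤ) % 8 = 7 := by omega
    rcases h6 with h6 | h6 | h6 | h6 <;> simp [pow_two, Int.mul_emod, h6]
  obtain ⟨b, d, s, t, hs, ht⟩ := two_cls γ' (by rw [hnγ']; exact hodd)
  refine ⟨ρ, γ, β, mu γ' (uu b), b, d, s, t, eγ, eβ, hnρ, ?_, ?_, hs, ht, ?_⟩
  · rw [nm_mu, hnγ']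
    cases b <;> simp [uu, nm]
  · rcases hγ' with h | h <;> rw [h]
    · exact Or.inl rfl
    · exact Or.inr rfl
  · intro u hu
    have e1 : mu (mu ρ u) (mu ρ u) = mu (mu ρ ρ) (mu u u) := by
      apply ev_inj hk hq
      simp only [ev_mu hq]
      ring
    have e2 : ∃ a : ℤ × ℤ × ℤ, mu (mu ρ ρ) (mu u u) =
        ((l : ℤ) * a.1, (l : ℤ) * a.2.1, (l : ℤ) * a.2.2) := by
      rw [hu]
      have e3 : ∀ ε : ℤ, γ' = (ε * γ.1, ε * γ.2.1, ε * γ.2.2) → mu (mu ρ ρ) (mu γ' (uu b)) =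
          ((l : ℤ) * (ε * (mu ρ (uu b)).1), (l : ℤ) * (ε * (mu ρ (uu b)).2.1),
            (l : ℤ) * (ε * (mu ρ (uu b)).2.2)) := by
        intro ε hε
        apply ev_inj hk hq
        have e4 : ev q γ' = ε * ev q γ := by
          rw [hε]
          simp only [ev]
          push_cast
          ring
        have e5 : ev q ((l : ℤ) * (ε * (mu ρ (uu b)).1), (l : ℤ) * (ε * (mu ρ (uu b)).2.1),
            (l : ℤ) * (ε * (mu ρ (uu b)).2.2)) = l * (ε * ev q (mu ρ (uu b))) := by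
          simp only [ev]
          push_cast
          ring
        rw [e5, ev_mu hq, ev_mu hq, ev_mu hq, ev_mu hq, e4]
        linear_combination (-(ε : 𝓞 A) * ev q ρ * ev q (uu b)) * hg
      rcases hγ' with h | h
      · exact ⟨(1 * (mu ρ (uu b)).1, 1 * (mu ρ (uu b)).2.1, 1 * (mu ρ (uu b)).2.2),
          e3 1 (by rw [h]; simp)⟩
      · exact ⟨((-1) * (mu ρ (uu b)).1, (-1) * (mu ρ (uu b)).2.1, (-1) * (mu ρ (uu b)).2.2),
          e3 (-1) (by rw [h]; simp)⟩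
    obtain ⟨a, ha⟩ := e2
    have h7 := red_zero hl h2 h11 (mu ρ u) a (e1.trans ha)
    rw [nm_mu] at h7
    have h8 : nm u ^ 2 = (l : ℤ) ^ 2 := by
      have := congrArg nm hu
      rw [nm_mu, nm_mu, hnγ'] at this
      have h9 : nm (uu b) = 1 := by cases b <;> simp [uu, nm]
      rw [h9, mul_one] at this
      rw [pow_two]
      exact this
    have h9 : (nm ρ * nm u) ^ 2 = (l : ℤ) ^ 4 := by
      have h10 : nm ρ ^ 2 = (l : ℤ) ^ 2 := by
        rcases hnρ with h | h <;> rw [h]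
        ring
      rw [mul_pow, h8, h10]
      ring
    have h10 : ((l : ℤ) ^ 3) ^ 2 ∣ (l : ℤ) ^ 4 := by
      rw [← h9]
      exact pow_dvd_pow_of_dvd h7 2
    rw [← pow_mul] at h10
    have h12 : l ^ (3 * 2) ∣ l ^ 4 := by exact_mod_cast h10
    have := (Nat.pow_dvd_pow_iff_le_right hl.one_lt).1 h12
    omega

end field

end Pool.Agent.R425
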